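import Pool.Agent.N246.HMW.Inst

/-! Averaging over the dyadic systems. -/

set_option autoImplicit false
open MeasureTheory Set Filter Topology
open scoped ENNReal NNReal

namespace Pool.Agent.N246.HMW

open Pool.Agent.N246.MZ Dat

/-- scaling -/
theorem lintegral_half {h : ℝ → ℝ≥0∞} (hm : Measurable h) : ∫⁻ x, h (x / 2) = 2 * ∫⁻ x, h x := by
  have h1 := Real.smul_map_volume_mul_left (a := (1 / 2 : ℝ)) (by norm_num)
  have h2 : ∫⁻ x, h x = ENNReal.ofReal |(1 / 2 : ℝ)| * ∫⁻ x, h (1 / 2 * x) := by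
    conv_lhs => rw [← h1]
    rw [lintegral_smul_measure, lintegral_map hm (measurable_const_mul _), smul_eq_mul]
  rw [h2, ← mul_assoc, show (2 : ℝ≥0∞) = ENNReal.ofReal 2 by simp,
    ← ENNReal.ofReal_mul (by norm_num)]
  have e : (2 : ℝ) * |1 / 2| = 1 := by rw [abs_of_pos (by norm_num)]; norm_num
  rw [e, ENNReal.ofReal_one, one_mul]
  refine lintegral_congr fun x => ?_
  congr 1; ring

theorem lintegral_half_Ioc {h : ℝ → ℝ≥0∞} (hm : Measurable h) {R : ℝ} :
    ∫⁻ x in Ioc (R / 2) R, h (x / 2) = 2 * ∫⁻ x in Ioc (R / 2 / 2) (R / 2), h x := by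
  rw [← lintegral_indicator measurableSet_Ioc, ← lintegral_indicator measurableSet_Ioc,
    ← lintegral_half (hm.indicator measurableSet_Ioc)]
  refine lintegral_congr fun x => ?_
  by_cases hx : x ∈ Ioc (R / 2) R
  · rw [indicator_of_mem hx, indicator_of_mem]
    exact ⟨by linarith [hx.1], by linarith [hx.2]⟩
  · rw [indicator_of_notMem hx, indicator_of_notMem]
    intro hx2
    exact hx ⟨by linarith [hx2.1], by linarith [hx2.2]⟩

/-- translation -/
theorem lintegral_shift (h : ℝ → ℝ≥0∞) (a : ℝ) : ∫⁻ x, h (x + a) = ∫⁻ x, h x :=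
  lintegral_add_right_eq_self h a

theorem F_meas {f : ℝ → ℂ} (hf : Integrable f) :
    Measurable (fun z : ℝ × ℝ => ∫ x in Ioc z.1 (z.1 + z.2), f x) := by
  have hP : Continuous fun b => ∫ x in (0 : ℝ)..b, f x :=
    intervalIntegral.continuous_primitive (fun a b => hf.intervalIntegrable) 0
  have e : (fun z : ℝ × ℝ => ∫ x in Ioc z.1 (z.1 + z.2), f x) = fun z : ℝ × ℝ =>
      if 0 ≤ z.2 then (∫ x in (0 : ℝ)..(z.1 + z.2), f x) - ∫ x in (0 : ℝ)..z.1, f x else 0 := by
    ext z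
    by_cases hz : 0 ≤ z.2
    · rw [if_pos hz, intervalIntegral.integral_interval_sub_left hf.intervalIntegrable
        hf.intervalIntegrable, intervalIntegral.integral_of_le (by linarith)]
    · rw [if_neg hz, Ioc_eq_empty (by linarith), setIntegral_empty]
  rw [e]
  refine Measurable.ite (measurableSet_le measurable_const measurable_snd) ?_ measurable_const
  exact ((hP.comp (by fun_prop : Continuous fun z : ℝ × ℝ => z.1 + z.2)).sub
    (hP.comp continuous_fst)).measurable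

section

variable {F G : ℝ → ℝ → ℂ} (hF : Measurable fun z : ℝ × ℝ => F z.1 z.2)
  (hG : Measurable fun z : ℝ × ℝ => G z.1 z.2)

include hF in
theorem dd_meas : Measurable fun z : ℝ × ℝ => dd F z.1 z.2 := by
  unfold dd
  exact ((hF.comp (by fun_prop : Measurable fun z : ℝ × ℝ => ((z.1, z.2 / 2) : ℝ × ℝ))).sub
    (hF.comp (by fun_prop : Measurable fun z : ℝ × ℝ => ((z.1 + z.2 / 2, z.2 / 2) : ℝ × ℝ)))).norm

include hF hG in
theorem qq_meas : Measurable fun z : ℝ × ℝ => qq F G z.1 z.2 := by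
  unfold qq
  refine (measurable_snd.inv).mul ((dd_meas hF).mul (Measurable.add ?_ ?_))
  · exact (dd_meas hG).comp (by fun_prop : Measurable fun z : ℝ × ℝ => ((z.1, z.2 / 2) : ℝ × ℝ))
  · exact (dd_meas hG).comp
      (by fun_prop : Measurable fun z : ℝ × ℝ => ((z.1 + z.2 / 2, z.2 / 2) : ℝ × ℝ))

include hF hG in
theorem Atr_meas (n : ℕ) : Measurable fun z : ℝ × ℝ => Atr F G n z.1 z.2 := by
  induction n with
  | zero => exact measurable_const
  | succ n ih =>
    simp only [Atr]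
    refine ((qq_meas hF hG).add ?_).add ?_
    · exact ih.comp (by fun_prop : Measurable fun z : ℝ × ℝ => ((z.1, z.2 / 2) : ℝ × ℝ))
    · exact ih.comp
        (by fun_prop : Measurable fun z : ℝ × ℝ => ((z.1 + z.2 / 2, z.2 / 2) : ℝ × ℝ))

/-- the integral of the terms over the positions -/
noncomputable def QI (F G : ℝ → ℝ → ℂ) (t : ℝ) : ℝ≥0∞ := ∫⁻ u, ENNReal.ofReal (qq F G u t)

/-- the integral of the forms over the positions -/
noncomputable def AI (F G : ℝ → ℝ → ℂ) (n : ℕ) (t : ℝ) : ℝ≥0∞ :=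
  ∫⁻ u, ENNReal.ofReal (Atr F G n u t)

include hF hG in
theorem QI_meas : Measurable (QI F G) := by
  unfold QI
  have h1 : Measurable fun z : ℝ × ℝ => ENNReal.ofReal (qq F G z.2 z.1) :=
    ((qq_meas hF hG).comp measurable_swap).ennreal_ofReal
  exact h1.lintegral_prod_right'

include hF hG in
theorem AI_meas (n : ℕ) : Measurable (AI F G n) := by
  unfold AI
  have h1 : Measurable fun z : ℝ × ℝ => ENNReal.ofReal (Atr F G n z.2 z.1) :=
    ((Atr_meas hF hG n).comp measurable_swap).ennreal_ofReal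
  exact h1.lintegral_prod_right'

include hF hG in
theorem AI_succ (n : ℕ) {t : ℝ} (ht : 0 < t) :
    AI F G (n + 1) t = QI F G t + 2 * AI F G n (t / 2) := by
  have ht2 : 0 < t / 2 := by linarith
  unfold AI QI
  have h1 : ∀ u, ENNReal.ofReal (Atr F G (n + 1) u t) = ENNReal.ofReal (qq F G u t) +
      ENNReal.ofReal (Atr F G n u (t / 2)) + ENNReal.ofReal (Atr F G n (u + t / 2) (t / 2)) := by
    intro u
    simp only [Atr]
    rw [ENNReal.ofReal_add (add_nonneg (qq_nonneg F G ht) (Atr_nonneg F G n _ _ ht2))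
      (Atr_nonneg F G n _ _ ht2), ENNReal.ofReal_add (qq_nonneg F G ht) (Atr_nonneg F G n _ _ ht2)]
  simp_rw [h1]
  have m1 : Measurable fun u => ENNReal.ofReal (qq F G u t) :=
    ((qq_meas hF hG).comp (by fun_prop : Measurable fun u : ℝ => ((u, t) : ℝ × ℝ))).ennreal_ofReal
  have m2 : Measurable fun u => ENNReal.ofReal (Atr F G n u (t / 2)) :=
    ((Atr_meas hF hG n).comp
      (by fun_prop : Measurable fun u : ℝ => ((u, t / 2) : ℝ × ℝ))).ennreal_ofReal
  rw [lintegral_add_left (f := fun u => ENNReal.ofReal (qq F G u t) +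
    ENNReal.ofReal (Atr F G n u (t / 2))) (m1.add m2), lintegral_add_left m1,
    lintegral_shift (fun u => ENNReal.ofReal (Atr F G n u (t / 2))) (t / 2)]
  ring

/-- the total form -/
noncomputable def LL (F G : ℝ → ℝ → ℂ) (a b : ℝ) : ℝ≥0∞ :=
  ∫⁻ t in Ioc a b, ENNReal.ofReal (t ^ 2)⁻¹ * QI F G t

/-- the averaged form -/
noncomputable def JJ (F G : ℝ → ℝ → ℂ) (n : ℕ) (R : ℝ) : ℝ≥0∞ :=
  ∫⁻ t in Ioc (R / 2) R, ENNReal.ofReal (t ^ 2)⁻¹ * AI F G n t

include hF hG in
theorem LL_eq (n : ℕ) : ∀ R : ℝ, 0 < R → LL F G (R / 2 ^ n) R ≤ JJ F G n R := by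
  induction n with
  | zero => intro R _; simp [LL]
  | succ n ih =>
    intro R hR
    have hR2 : 0 < R / 2 := by linarith
    have hle : R / 2 ^ (n + 1) ≤ R / 2 := by
      rw [pow_succ]
      refine div_le_div_of_nonneg_left hR.le (by norm_num) ?_
      have : (1 : ℝ) ≤ 2 ^ n := one_le_pow₀ (by norm_num)
      linarith
    have e1 : LL F G (R / 2 ^ (n + 1)) R = LL F G (R / 2 / 2 ^ n) (R / 2) + LL F G (R / 2) R := by
      unfold LL
      rw [← Ioc_union_Ioc_eq_Ioc hle (by linarith : R / 2 ≤ R),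
        lintegral_union measurableSet_Ioc (Ioc_disjoint_Ioc_of_le le_rfl)]
      congr 2
      rw [pow_succ, div_div, mul_comm]
    have e2 : JJ F G (n + 1) R = LL F G (R / 2) R + JJ F G n (R / 2) := by
      unfold JJ LL
      have h1 : ∀ t ∈ Ioc (R / 2) R, ENNReal.ofReal (t ^ 2)⁻¹ * AI F G (n + 1) t
          = ENNReal.ofReal (t ^ 2)⁻¹ * QI F G t +
            (fun s => ENNReal.ofReal ((2 * s) ^ 2)⁻¹ * (2 * AI F G n s)) (t / 2) := by
        intro t ht
        rw [AI_succ hF hG n (hR2.trans ht.1), mul_add]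
        simp only
        rw [show 2 * (t / 2) = t by ring]
      rw [setLIntegral_congr_fun measurableSet_Ioc h1]
      have m0 : Measurable fun t : ℝ => ENNReal.ofReal (t ^ 2)⁻¹ * QI F G t :=
        (by fun_prop : Measurable fun t : ℝ => ENNReal.ofReal (t ^ 2)⁻¹).mul (QI_meas hF hG)
      rw [lintegral_add_left m0]
      congr 1
      have m1 : Measurable fun s : ℝ => ENNReal.ofReal ((2 * s) ^ 2)⁻¹ * (2 * AI F G n s) :=
        (by fun_prop : Measurable fun s : ℝ => ENNReal.ofReal ((2 * s) ^ 2)⁻¹).mul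
          ((AI_meas hF hG n).const_mul 2)
      rw [lintegral_half_Ioc m1, ← lintegral_const_mul' 2 _ (by norm_num)]
      refine lintegral_congr fun s => ?_
      have e3 : ENNReal.ofReal ((2 * s) ^ 2)⁻¹ = ENNReal.ofReal (1 / 4) * ENNReal.ofReal (s ^ 2)⁻¹ := by
        rw [← ENNReal.ofReal_mul (by norm_num)]
        congr 1
        rw [mul_pow, mul_inv]; norm_num
      rw [e3]
      have e4 : ENNReal.ofReal (1 / 4) * 4 = 1 := by
        rw [show (4 : ℝ≥0∞) = ENNReal.ofReal 4 by simp, ← ENNReal.ofReal_mul (by norm_num)]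
        norm_num
      calc 2 * (ENNReal.ofReal (1 / 4) * ENNReal.ofReal (s ^ 2)⁻¹ * (2 * AI F G n s))
          = (ENNReal.ofReal (1 / 4) * 4) * (ENNReal.ofReal (s ^ 2)⁻¹ * AI F G n s) := by ring
        _ = _ := by rw [e4, one_mul]
    rw [e1, e2, add_comm]
    gcongr
    exact ih (R / 2) hR2

end

theorem Ioc_ind (h : ℝ → ℝ≥0∞) (u S : ℝ) : ∫⁻ x in Ioc u (u + S), h x =
    ∫⁻ x, indicator {z : ℝ × ℝ | z.1 < z.2 ∧ z.2 ≤ z.1 + S} (fun z => h z.2) (u, x) := by
  rw [← lintegral_indicator measurableSet_Ioc]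
  refine lintegral_congr fun x => ?_
  by_cases hx : x ∈ Ioc u (u + S)
  · rw [indicator_of_mem hx, indicator_of_mem]
    exact hx
  · rw [indicator_of_notMem hx, indicator_of_notMem]
    exact hx

theorem ind_meas {h : ℝ → ℝ≥0∞} (hm : Measurable h) (S : ℝ) :
    Measurable fun z : ℝ × ℝ => indicator {z : ℝ × ℝ | z.1 < z.2 ∧ z.2 ≤ z.1 + S}
      (fun z => h z.2) z := by
  refine (hm.comp measurable_snd).indicator ?_
  exact (measurableSet_lt measurable_fst measurable_snd).inter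
    (measurableSet_le measurable_snd (by fun_prop))

theorem meas_Ioc {h : ℝ → ℝ≥0∞} (hm : Measurable h) (S : ℝ) :
    Measurable fun u => ∫⁻ x in Ioc u (u + S), h x := by
  simp_rw [Ioc_ind]
  exact (ind_meas hm S).lintegral_prod_right'

/-- Tonelli -/
theorem tonelli_Ioc {h : ℝ → ℝ≥0∞} (hm : Measurable h) (S : ℝ) :
    ∫⁻ u, ∫⁻ x in Ioc u (u + S), h x = ENNReal.ofReal S * ∫⁻ x, h x := by
  simp_rw [Ioc_ind]
  rw [lintegral_lintegral_swap (ind_meas hm S).aemeasurable]
  rw [← lintegral_const_mul _ hm]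
  refine lintegral_congr fun x => ?_
  have e : ∀ u, indicator {z : ℝ × ℝ | z.1 < z.2 ∧ z.2 ≤ z.1 + S} (fun z => h z.2) (u, x)
      = indicator (Ico (x - S) x) (fun _ => h x) u := by
    intro u
    by_cases hu : u ∈ Ico (x - S) x
    · rw [indicator_of_mem hu, indicator_of_mem]
      exact ⟨hu.2, by show x ≤ u + S; linarith [hu.1]⟩
    · rw [indicator_of_notMem hu, indicator_of_notMem]
      rintro ⟨h1, h2⟩
      have h1' : u < x := h1
      have h2' : x ≤ u + S := h2
      exact hu ⟨by linarith, h1'⟩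
  simp_rw [e]
  rw [lintegral_indicator measurableSet_Ico, setLIntegral_const, Real.volume_Ico,
    show x - (x - S) = S by ring, mul_comm]

variable {p : ℝ} {W : ℝ → ℝ≥0}

/-- the right-hand side -/
noncomputable def NN (p : ℝ) (W : ℝ → ℝ≥0) (f g : ℝ → ℂ) : ℝ≥0∞ :=
  (∫⁻ x, ‖f x‖ₑ ^ p * W x) ^ (1 / p) *
    (∫⁻ x, ‖g x‖ₑ ^ (p / (p - 1)) * sig p W x) ^ (1 - 1 / p)

/-- **The averaged form.** -/
theorem LL_bound (hp : 1 < p) (hU : IsWeight W) {K : ℝ≥0}
    (hK : ∀ a b : ℝ, a < b →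
      ((ENNReal.ofReal (b - a))⁻¹ * ∫⁻ x in Ioo a b, (W x : ℝ≥0∞)) *
      ((ENNReal.ofReal (b - a))⁻¹ * ∫⁻ x in Ioo a b, (W x : ℝ≥0∞) ^ (-(1 / (p - 1)))) ^ (p - 1)
        ≤ K)
    {f g : ℝ → ℂ} (hf : Integrable f) (hfm : Measurable f) (hg : Integrable g) (hgm : Measurable g)
    (hZ : ∫⁻ x, ‖f x‖ₑ ^ p * W x ≠ ∞) (hY : ∫⁻ x, ‖g x‖ₑ ^ (p / (p - 1)) * sig p W x ≠ ∞)
    (n : ℕ) {R : ℝ} (hR : 0 < R) :
    LL (fun u t => ∫ x in Ioc u (u + t), f x) (fun u t => ∫ x in Ioc u (u + t), g x)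
      (R / 2 ^ n) R ≤ ENNReal.ofReal (C2 (1 / p) ((K : ℝ) ^ (1 / p))) * NN p W f g := by
  have hp0 : 0 < p := by linarith
  have hp1 : 0 < p - 1 := by linarith
  have hθ0 : 0 < 1 / p := by positivity
  have hθ1 : 1 / p < 1 := by rw [div_lt_one hp0]; exact hp
  have hFm := F_meas hf
  have hGm := F_meas hg
  refine (LL_eq hFm hGm n R hR).trans ?_
  set D := mkDat hp hU hK hf hfm hg hgm hZ hY with hD
  set C := C2 (1 / p) ((K : ℝ) ^ (1 / p)) with hC
  have mZ : Measurable fun x => ‖f x‖ₑ ^ p * (W x : ℝ≥0∞) := by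
    have := hU.meas
    have := hfm.enorm
    fun_prop
  have mY : Measurable fun x => ‖g x‖ₑ ^ (p / (p - 1)) * sig p W x := by
    have h1 := sig_meas (p := p) hU.meas
    have h2 := hgm.enorm
    exact (h2.pow_const _).mul h1
  -- the bound for one scale
  have hAI : ∀ t : ℝ, 0 < t → AI (fun u t => ∫ x in Ioc u (u + t), f x)
      (fun u t => ∫ x in Ioc u (u + t), g x) n t ≤ ENNReal.ofReal t * (ENNReal.ofReal C * NN p W f g) := by
    intro t ht
    unfold AI
    have h1 : ∀ u, ENNReal.ofReal (Atr (fun u t => ∫ x in Ioc u (u + t), f x)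
        (fun u t => ∫ x in Ioc u (u + t), g x) n u t) ≤ ENNReal.ofReal C *
        ((∫⁻ x in Ioc u (u + t), ‖f x‖ₑ ^ p * W x) ^ (1 / p) *
          (∫⁻ x in Ioc u (u + t), ‖g x‖ₑ ^ (p / (p - 1)) * sig p W x) ^ (1 - 1 / p)) := by
      intro u
      have h2 := D.bound hθ0 hθ1 n (u := u) ht
      have hC0 : 0 ≤ C := by
        have := D.C1_pos
        rw [hC]
        unfold C2
        have h3 : 0 < 1 - 1 / p := by linarith
        positivity
      have hz : ∫⁻ x in Ioc u (u + t), ‖f x‖ₑ ^ p * W x ≠ ∞ :=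
        ne_top_of_le_ne_top hZ (setLIntegral_le_lintegral _ _)
      have hy : ∫⁻ x in Ioc u (u + t), ‖g x‖ₑ ^ (p / (p - 1)) * sig p W x ≠ ∞ :=
        ne_top_of_le_ne_top hY (setLIntegral_le_lintegral _ _)
      refine (ENNReal.ofReal_le_ofReal h2).trans (le_of_eq ?_)
      rw [ENNReal.ofReal_mul hC0]
      congr 1
      unfold H
      rw [ENNReal.ofReal_mul (Real.rpow_nonneg (D.Z0 u t ht) _),
        ← ENNReal.ofReal_rpow_of_nonneg (D.Z0 u t ht) hθ0.le,
        ← ENNReal.ofReal_rpow_of_nonneg (D.Y0 u t ht) (by linarith)]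
      show ENNReal.ofReal (IL _ u t) ^ (1 / p) * ENNReal.ofReal (IL _ u t) ^ (1 - 1 / p) = _
      unfold IL
      rw [ENNReal.ofReal_toReal hz, ENNReal.ofReal_toReal hy]
    refine (lintegral_mono h1).trans ?_
    rw [lintegral_const_mul' _ _ ENNReal.ofReal_ne_top]
    have h3 := ENNReal.lintegral_mul_norm_pow_le (μ := (volume : Measure ℝ))
      (meas_Ioc mZ t).aemeasurable (meas_Ioc mY t).aemeasurable (p := 1 / p) (q := 1 - 1 / p)
      hθ0.le (by linarith) (by ring)
    rw [tonelli_Ioc mZ, tonelli_Ioc mY] at h3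
    calc ENNReal.ofReal C * _
        ≤ ENNReal.ofReal C * ((ENNReal.ofReal t * ∫⁻ x, ‖f x‖ₑ ^ p * W x) ^ (1 / p) *
          (ENNReal.ofReal t * ∫⁻ x, ‖g x‖ₑ ^ (p / (p - 1)) * sig p W x) ^ (1 - 1 / p)) :=
          mul_le_mul' le_rfl h3
      _ = ENNReal.ofReal t * (ENNReal.ofReal C * NN p W f g) := by
          rw [ENNReal.mul_rpow_of_nonneg _ _ hθ0.le, ENNReal.mul_rpow_of_nonneg _ _ (by linarith)]
          have e : ENNReal.ofReal t ^ (1 / p) * ENNReal.ofReal t ^ (1 - 1 / p) = ENNReal.ofReal t := by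
            rw [← ENNReal.rpow_add _ _ (ENNReal.ofReal_pos.2 ht).ne' ENNReal.ofReal_ne_top]
            simp
          unfold NN
          conv_rhs => rw [← e]
          ring
  unfold JJ
  calc ∫⁻ t in Ioc (R / 2) R, ENNReal.ofReal (t ^ 2)⁻¹ * AI (fun u t => ∫ x in Ioc u (u + t), f x)
        (fun u t => ∫ x in Ioc u (u + t), g x) n t
      ≤ ∫⁻ _t in Ioc (R / 2) R, ENNReal.ofReal (2 / R) * (ENNReal.ofReal C * NN p W f g) := by
        refine setLIntegral_mono' measurableSet_Ioc fun t ht => ?_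
        have ht0 : 0 < t := by linarith [ht.1]
        calc ENNReal.ofReal (t ^ 2)⁻¹ * AI (fun u t => ∫ x in Ioc u (u + t), f x)
                (fun u t => ∫ x in Ioc u (u + t), g x) n t
            ≤ ENNReal.ofReal (t ^ 2)⁻¹ * (ENNReal.ofReal t * (ENNReal.ofReal C * NN p W f g)) :=
              mul_le_mul' le_rfl (hAI t ht0)
          _ = ENNReal.ofReal ((t ^ 2)⁻¹ * t) * (ENNReal.ofReal C * NN p W f g) := by
              rw [ENNReal.ofReal_mul (by positivity)]; ring
          _ ≤ _ := by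
              gcongr
              rw [inv_mul_eq_div, div_le_div_iff₀ (by positivity) hR]
              nlinarith [ht.1, ht0]
    _ = ENNReal.ofReal (2 / R) * ENNReal.ofReal (R / 2) * (ENNReal.ofReal C * NN p W f g) := by
        rw [setLIntegral_const, Real.volume_Ioc, show R - R / 2 = R / 2 by ring]
        ring
    _ = ENNReal.ofReal C * NN p W f g := by
        rw [← ENNReal.ofReal_mul (by positivity), show 2 / R * (R / 2) = 1 by field_simp,
          ENNReal.ofReal_one, one_mul]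

end Pool.Agent.N246.HMW
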