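import Pool.Agent.N246.HMW.Form

/-! Convergence of the averaged Haar shifts to the Hilbert transform. -/

set_option autoImplicit false
open MeasureTheory Set Filter Topology Metric
open scoped ENNReal NNReal

namespace Pool.Agent.N246.HMW

open Pool.Agent.N246.MZ

theorem ball_meas (x a : ℝ) : MeasurableSet {y : ℝ | |y - x| ≤ a} :=
  measurableSet_le (by fun_prop) measurable_const

theorem odd_part (x a : ℝ) :
    ∫ y in {y : ℝ | |y - x| ≤ a}, (y - x)⁻¹ * J ((y - x) / a) = 0 := by
  rw [← integral_indicator (ball_meas x a)]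
  set F : ℝ → ℝ := indicator {y : ℝ | |y - x| ≤ a} (fun y => (y - x)⁻¹ * J ((y - x) / a)) with hF
  have h1 : ∫ y, F y = ∫ t, F (x + t) := (integral_add_left_eq_self F x).symm
  have h2 : ∫ t, F (x + t) = ∫ t, F (x - t) := by
    rw [← integral_neg_eq_self (fun t => F (x + t))]
    rfl
  have h3 : ∀ t, F (x - t) = - F (x + t) := by
    intro t
    simp only [hF]
    by_cases ht : |t| ≤ a
    · rw [indicator_of_mem, indicator_of_mem]
      · rw [show x - t - x = -t by ring, show x + t - x = t by ring, neg_div, J_even, inv_neg]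
        ring
      · rw [mem_ofPred_eq, add_sub_cancel_left]; exact ht
      · rw [mem_ofPred_eq, show x - t - x = -t by ring, abs_neg]; exact ht
    · rw [indicator_of_notMem, indicator_of_notMem, neg_zero]
      · rw [mem_ofPred_eq, add_sub_cancel_left]; exact ht
      · rw [mem_ofPred_eq, show x - t - x = -t by ring, abs_neg]; exact ht
  have h4 : ∫ t, F (x - t) = - ∫ t, F (x + t) := by
    rw [← integral_neg]
    exact integral_congr_ae (Eventually.of_forall h3)
  rw [h1]
  have h5 : ∫ t, F (x + t) = - ∫ t, F (x + t) := h2.trans h4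
  linarith

theorem K0_le {a : ℝ} (ha : 0 < a) (z : ℝ) : |z⁻¹ * J (z / a)| ≤ 1 / a := by
  by_cases hz : z = 0
  · rw [hz, inv_zero, zero_mul, abs_zero]; positivity
  have hz' : 0 < |z| := abs_pos.2 hz
  rw [abs_mul, abs_inv]
  have := J_le (z / a)
  rw [abs_div, abs_of_pos ha] at this
  calc |z|⁻¹ * |J (z / a)| ≤ |z|⁻¹ * (|z| / a) := mul_le_mul_of_nonneg_left this (by positivity)
    _ = 1 / a := by field_simp

theorem K0_meas (a x : ℝ) : Measurable fun y : ℝ => (y - x)⁻¹ * J ((y - x) / a) :=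
  (by fun_prop : Measurable fun y : ℝ => (y - x)⁻¹).mul
    (J_meas.comp (by fun_prop : Measurable fun y : ℝ => (y - x) / a))

theorem K0f_int {a : ℝ} (ha : 0 < a) (x : ℝ) {f : ℝ → ℂ} (hf : Integrable f) :
    Integrable (fun y : ℝ => (((y - x)⁻¹ * J ((y - x) / a) : ℝ) : ℂ) * f y) := by
  refine (hf.norm.const_mul (1 / a)).mono' ?_ (Eventually.of_forall fun y => ?_)
  · exact (Complex.measurable_ofReal.comp (K0_meas a x)).aestronglyMeasurable.mul
      hf.aestronglyMeasurable
  · rw [norm_mul, Complex.norm_real]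
    exact mul_le_mul_of_nonneg_right (K0_le ha _) (norm_nonneg _)

/-- the operator with one truncation -/
theorem T1_eq {a : ℝ} (ha : 0 < a) (x : ℝ) {f : ℝ → ℂ} (hf : Integrable f) :
    ∫ y, (((y - x)⁻¹ * J ((y - x) / a) : ℝ) : ℂ) * f y = -(cc : ℂ) * tr f x a +
      ∫ y in {y : ℝ | |y - x| ≤ a}, (((y - x)⁻¹ * J ((y - x) / a) : ℝ) : ℂ) * (f y - f x) := by
  have h0 := K0f_int ha x hf
  have hc : {y : ℝ | a < |y - x|}ᶜ = {y : ℝ | |y - x| ≤ a} := by
    ext y
    rw [mem_compl_iff, mem_ofPred_eq, mem_ofPred_eq, not_lt]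
  rw [← integral_add_compl (meas_set x a) h0, hc]
  congr 1
  · unfold tr
    rw [← integral_const_mul]
    refine setIntegral_congr_fun (meas_set x a) fun y hy => ?_
    have hy' : a < |y - x| := hy
    have hne : y - x ≠ 0 := by
      intro h; rw [h, abs_zero] at hy'; linarith
    rw [J_out (by rw [abs_div, abs_of_pos ha, le_div_iff₀ ha]; linarith)]
    have hne' : (x : ℂ) - (y : ℂ) ≠ 0 := by
      rw [← Complex.ofReal_sub]
      have : x - y ≠ 0 := fun h => hne (by linarith)
      exact_mod_cast this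
    have hne2 : (y : ℂ) - (x : ℂ) ≠ 0 := by
      rw [← Complex.ofReal_sub]
      exact_mod_cast hne
    push_cast
    rw [show (y : ℂ) - x = -((x : ℂ) - y) by ring]
    field_simp
  · have h1 : IntegrableOn (fun y : ℝ => (((y - x)⁻¹ * J ((y - x) / a) : ℝ) : ℂ) * f x)
        {y : ℝ | |y - x| ≤ a} := by
      refine Measure.integrableOn_of_bounded (M := 1 / a * ‖f x‖) ?_ ?_ ?_
      · refine ne_of_lt (lt_of_le_of_lt (measure_mono (t := Icc (x - a) (x + a)) ?_) ?_)
        · intro y hy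
          have := abs_le.1 (show |y - x| ≤ a from hy)
          exact ⟨by linarith [this.1], by linarith [this.2]⟩
        · rw [Real.volume_Icc]; exact ENNReal.ofReal_lt_top
      · exact ((Complex.measurable_ofReal.comp (K0_meas a x)).mul_const _).aestronglyMeasurable
      · refine Eventually.of_forall fun y => ?_
        rw [norm_mul, Complex.norm_real]
        exact mul_le_mul_of_nonneg_right (K0_le ha _) (norm_nonneg _)
    have h2 : ∫ y in {y : ℝ | |y - x| ≤ a}, (((y - x)⁻¹ * J ((y - x) / a) : ℝ) : ℂ) * f x = 0 := by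
      rw [integral_mul_const, integral_complex_ofReal, odd_part]
      simp
    have h3 : ∀ y, (((y - x)⁻¹ * J ((y - x) / a) : ℝ) : ℂ) * (f y - f x)
        = (((y - x)⁻¹ * J ((y - x) / a) : ℝ) : ℂ) * f y -
          (((y - x)⁻¹ * J ((y - x) / a) : ℝ) : ℂ) * f x := fun y => by ring
    simp_rw [h3]
    rw [integral_sub h0.integrableOn h1, h2, sub_zero]

theorem Tf_eq {a b : ℝ} (ha : 0 < a) (hb : 0 < b) (x : ℝ) {f : ℝ → ℂ} (hf : Integrable f) :
    Tf a b f x = (∫ y, (((y - x)⁻¹ * J ((y - x) / a) : ℝ) : ℂ) * f y) -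
      ∫ y, (((y - x)⁻¹ * J ((y - x) / b) : ℝ) : ℂ) * f y := by
  unfold Tf
  rw [← integral_sub (K0f_int ha x hf) (K0f_int hb x hf)]
  refine integral_congr_ae (Eventually.of_forall fun y => ?_)
  simp only [Kr]
  push_cast
  ring

theorem K0f_norm {b : ℝ} (hb : 0 < b) (x : ℝ) {f : ℝ → ℂ} (hf : Integrable f) :
    ‖∫ y, (((y - x)⁻¹ * J ((y - x) / b) : ℝ) : ℂ) * f y‖ ≤ 1 / b * ∫ y, ‖f y‖ := by
  rw [← integral_const_mul]
  refine norm_integral_le_of_norm_le (hf.norm.const_mul _) (Eventually.of_forall fun y => ?_)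
  rw [norm_mul, Complex.norm_real]
  exact mul_le_mul_of_nonneg_right (K0_le hb _) (norm_nonneg _)

theorem Tf_norm {a b : ℝ} (ha : 0 < a) (hb : 0 < b) (x : ℝ) {f : ℝ → ℂ} (hf : Integrable f) :
    ‖Tf a b f x‖ ≤ (1 / a + 1 / b) * ∫ y, ‖f y‖ := by
  rw [Tf_eq ha hb x hf, add_mul]
  exact (norm_sub_le _ _).trans (add_le_add (K0f_norm ha x hf) (K0f_norm hb x hf))

/-- convergence -/
theorem Tf_tendsto {f : ℝ → ℂ} (hf : Integrable f) : ∀ᵐ x : ℝ, ∀ v : ℂ, HasPV f x v →
    ∀ a b : ℕ → ℝ, (∀ n, 0 < a n) → (∀ n, 0 < b n) → Tendsto a atTop (𝓝 0) →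
      Tendsto b atTop atTop → Tendsto (fun n => Tf (a n) (b n) f x) atTop
        (𝓝 (-(cc : ℂ) * (Real.pi * v))) := by
  filter_upwards [IsUnifLocDoublingMeasure.ae_tendsto_average_norm_sub (μ := volume)
    hf.locallyIntegrable 1] with x hx v hv a b ha hb hal hbl
  have hal' : Tendsto a atTop (𝓝[>] 0) :=
    tendsto_nhdsWithin_iff.2 ⟨hal, Eventually.of_forall fun n => ha n⟩
  have h1 : Tendsto (fun n => tr f x (a n)) atTop (𝓝 (Real.pi * v)) := (hasPV_iff.1 hv).comp hal'
  have h2 : Tendsto (fun n => ∫ y in {y : ℝ | |y - x| ≤ a n},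
      (((y - x)⁻¹ * J ((y - x) / a n) : ℝ) : ℂ) * (f y - f x)) atTop (𝓝 0) := by
    have h3 := hx (l := atTop) (fun _ : ℕ => x) a hal' (Eventually.of_forall fun n => by
      rw [one_mul]; exact mem_closedBall_self (ha n).le)
    have h4 := h3.const_mul 2
    rw [mul_zero] at h4
    refine squeeze_zero_norm (fun n => ?_) h4
    have e : {y : ℝ | |y - x| ≤ a n} = closedBall x (a n) := by
      ext y; rw [mem_closedBall, Real.dist_eq]; rfl
    rw [e]
    have h5 : ‖∫ y in closedBall x (a n), (((y - x)⁻¹ * J ((y - x) / a n) : ℝ) : ℂ) * (f y - f x)‖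
        ≤ ∫ y in closedBall x (a n), 1 / a n * ‖f y - f x‖ := by
      refine norm_integral_le_of_norm_le ?_ (Eventually.of_forall fun y => ?_)
      · refine Integrable.const_mul ?_ _
        refine (hf.integrableOn.sub ?_).norm
        exact integrableOn_const measure_closedBall_lt_top.ne
      · rw [norm_mul, Complex.norm_real]
        exact mul_le_mul_of_nonneg_right (K0_le (ha n) _) (norm_nonneg _)
    refine h5.trans (le_of_eq ?_)
    rw [integral_const_mul, setAverage_eq, measureReal_def, Real.volume_closedBall,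
      ENNReal.toReal_ofReal (by linarith [ha n]), smul_eq_mul]
    have := (ha n).ne'
    field_simp
  have h3 : Tendsto (fun n => ∫ y, (((y - x)⁻¹ * J ((y - x) / b n) : ℝ) : ℂ) * f y) atTop (𝓝 0) := by
    refine squeeze_zero_norm (fun n => K0f_norm (hb n) x hf) ?_
    have h4 : Tendsto (fun n => 1 / b n) atTop (𝓝 0) := by
      simp_rw [one_div]
      exact tendsto_inv_atTop_zero.comp hbl
    have h5 := h4.mul_const (∫ y, ‖f y‖)
    rwa [zero_mul] at h5
  have h4 := ((h1.const_mul (-(cc : ℂ))).add h2).sub h3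
  rw [add_zero, sub_zero] at h4
  refine h4.congr fun n => ?_
  rw [Tf_eq (ha n) (hb n) x hf, T1_eq (ha n) x hf]

theorem Tf_meas (a b : ℝ) {f : ℝ → ℂ} (hfm : Measurable f) : Measurable (Tf a b f) := by
  unfold Tf
  have h1 : Measurable fun z : ℝ × ℝ => (Kr a b (z.2 - z.1) : ℂ) * f z.2 := by
    refine Measurable.mul ?_ (hfm.comp measurable_snd)
    exact Complex.measurable_ofReal.comp
      ((Kr_meas a b).comp (by fun_prop : Measurable fun z : ℝ × ℝ => z.2 - z.1))
  exact (h1.stronglyMeasurable.integral_prod_right' (ν := (volume : Measure ℝ))).measurable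

end Pool.Agent.N246.HMW
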