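import Pool.Agent.N246.HMW.Conv

/-! The theorem of Hunt, Muckenhoupt and Wheeden. -/

set_option autoImplicit false
open MeasureTheory Set Filter Topology Metric
open scoped ENNReal NNReal

namespace Pool.Agent.N246.HMW

open Pool.Agent.N246.MZ Dat

variable {p : ℝ} {W : ℝ → ℝ≥0}

/-- the identity `W^q σ = W` -/
theorem pow_sig (hp : 1 < p) (x : ℝ) : (W x : ℝ≥0∞) ^ (p / (p - 1)) * sig p W x = W x := by
  have hp0 : 0 < p := by linarith
  have hp1 : 0 < p - 1 := by linarith
  by_cases h : (W x : ℝ≥0∞) = 0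
  · rw [h, ENNReal.zero_rpow_of_pos (by positivity), zero_mul]
  · rw [sig, ← ENNReal.rpow_add _ _ h ENNReal.coe_ne_top]
    have : p / (p - 1) + -(1 / (p - 1)) = 1 := by field_simp; ring
    rw [this, ENNReal.rpow_one]

/-- the truncation sets -/
def Es (W : ℝ → ℝ≥0) (k : ℕ) : Set ℝ := {x | |x| ≤ (k : ℝ) ∧ (W x : ℝ) ≤ (k : ℝ)}

theorem Es_meas (hU : Measurable W) (k : ℕ) : MeasurableSet (Es W k) := by
  have h1 : MeasurableSet {x : ℝ | |x| ≤ (k : ℝ)} := measurableSet_le (by fun_prop) measurable_const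
  have h2 : MeasurableSet {x : ℝ | (W x : ℝ) ≤ (k : ℝ)} :=
    measurableSet_le (by fun_prop) measurable_const
  exact h1.inter h2

theorem Es_mono : Monotone (Es W) := fun k l hkl x hx =>
  ⟨hx.1.trans (by exact_mod_cast hkl), hx.2.trans (by exact_mod_cast hkl)⟩

theorem Es_univ : ⋃ k, Es W k = univ := by
  refine eq_univ_of_forall fun x => ?_
  obtain ⟨k, hk⟩ := exists_nat_ge (max |x| (W x : ℝ))
  exact mem_iUnion.2 ⟨k, (le_max_left _ _).trans hk, (le_max_right _ _).trans hk⟩

/-- the dual function -/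
noncomputable def gd (p : ℝ) (W : ℝ → ℝ≥0) (T : ℝ → ℂ) (k : ℕ) : ℝ → ℂ :=
  indicator (Es W k) (fun x => (starRingEnd ℂ) (T x) * ((‖T x‖ ^ (p - 2) * (W x : ℝ) : ℝ) : ℂ))

theorem gd_norm (hp : 1 < p) (T : ℝ → ℂ) {k : ℕ} {x : ℝ} (hx : x ∈ Es W k) :
    ‖gd p W T k x‖ = ‖T x‖ ^ (p - 1) * W x := by
  unfold gd
  rw [indicator_of_mem hx, norm_mul, Complex.norm_real, RCLike.norm_conj, Real.norm_eq_abs,
    abs_of_nonneg (by positivity), ← mul_assoc]
  congr 1
  rcases (norm_nonneg (T x)).eq_or_lt with h | h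
  · rw [← h, zero_mul, Real.zero_rpow (by linarith)]
  · have : p - 1 = 1 + (p - 2) := by ring
    rw [this, Real.rpow_add h, Real.rpow_one]

theorem gd_mul (hp : 1 < p) (T : ℝ → ℂ) {k : ℕ} {x : ℝ} (hx : x ∈ Es W k) :
    gd p W T k x * T x = ((‖T x‖ ^ p * W x : ℝ) : ℂ) := by
  unfold gd
  rw [indicator_of_mem hx]
  have h1 : (starRingEnd ℂ) (T x) * T x = ((‖T x‖ ^ 2 : ℝ) : ℂ) := by
    rw [mul_comm, Complex.mul_conj, Complex.normSq_eq_norm_sq]
  calc (starRingEnd ℂ) (T x) * ((‖T x‖ ^ (p - 2) * (W x : ℝ) : ℝ) : ℂ) * T x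
      = ((starRingEnd ℂ) (T x) * T x) * ((‖T x‖ ^ (p - 2) * (W x : ℝ) : ℝ) : ℂ) := by ring
    _ = ((‖T x‖ ^ 2 * (‖T x‖ ^ (p - 2) * (W x : ℝ)) : ℝ) : ℂ) := by
        rw [h1]; push_cast; ring
    _ = _ := by
        congr 1
        rw [← mul_assoc]
        congr 1
        rcases (norm_nonneg (T x)).eq_or_lt with h | h
        · rw [← h, Real.zero_rpow (by linarith : p ≠ 0)]; norm_num
        · rw [← Real.rpow_natCast, ← Real.rpow_add h]
          congr 1; push_cast; ring

theorem gd_zero (T : ℝ → ℂ) {k : ℕ} {x : ℝ} (hx : x ∉ Es W k) : gd p W T k x = 0 := by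
  unfold gd; rw [indicator_of_notMem hx]

/-- the weighted bound for the operator -/
theorem Tf_bound (hp : 1 < p) (hU : IsWeight W) {K : ℝ≥0}
    (hK : ∀ a b : ℝ, a < b →
      ((ENNReal.ofReal (b - a))⁻¹ * ∫⁻ x in Ioo a b, (W x : ℝ≥0∞)) *
      ((ENNReal.ofReal (b - a))⁻¹ * ∫⁻ x in Ioo a b, (W x : ℝ≥0∞) ^ (-(1 / (p - 1)))) ^ (p - 1)
        ≤ K)
    {f : ℝ → ℂ} (hf : Integrable f) (hfm : Measurable f) (hZ : nrm p W f ≠ ∞) (m : ℕ) {R : ℝ}
    (hR : 0 < R) :
    nrm p W (Tf (R / 2 ^ m) R f) ≤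
      ENNReal.ofReal (C2 (1 / p) ((K : ℝ) ^ (1 / p))) ^ p * nrm p W f := by
  have hp0 : 0 < p := by linarith
  have hp1 : 0 < p - 1 := by linarith
  set a := R / 2 ^ m with ha
  have ha0 : 0 < a := by positivity
  have hab : a ≤ R := by
    rw [ha]
    exact div_le_self hR.le (one_le_pow₀ (by norm_num))
  set T := Tf a R f with hT
  set C := ENNReal.ofReal (C2 (1 / p) ((K : ℝ) ^ (1 / p))) with hC
  have hTm : Measurable T := Tf_meas a R hfm
  set B := (1 / a + 1 / R) * ∫ y, ‖f y‖ with hB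
  have hB0 : 0 ≤ B := by
    have : 0 ≤ ∫ y, ‖f y‖ := integral_nonneg fun _ => norm_nonneg _
    positivity
  have hTB : ∀ x, ‖T x‖ ≤ B := fun x => Tf_norm ha0 hR x hf
  have key : ∀ k : ℕ, ∫⁻ x in Es W k, ‖T x‖ₑ ^ p * W x ≤ C ^ p * nrm p W f := by
    intro k
    have hE := Es_meas (W := W) hU.meas k
    set g := gd p W T k with hg
    have hgm : Measurable g := by
      refine Measurable.indicator ?_ hE
      refine Measurable.mul ?_ ?_
      · exact (Complex.continuous_conj.measurable).comp hTm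
      · refine Complex.measurable_ofReal.comp (Measurable.mul ?_ ?_)
        · exact (hTm.norm).pow_const _
        · have := hU.meas; fun_prop
    set X := ∫⁻ x in Es W k, ‖T x‖ₑ ^ p * W x with hX
    -- finiteness
    have hvol : volume (Es W k) < ∞ := by
      refine lt_of_le_of_lt (measure_mono (t := Icc (-(k : ℝ)) k) fun x hx => abs_le.1 hx.1) ?_
      rw [Real.volume_Icc]; exact ENNReal.ofReal_lt_top
    have hXf : X < ∞ := by
      calc X ≤ ∫⁻ _x in Es W k, ENNReal.ofReal B ^ p * ENNReal.ofReal k := by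
            refine setLIntegral_mono' hE fun x hx => ?_
            gcongr
            · rw [← ofReal_norm]; exact ENNReal.ofReal_le_ofReal (hTB x)
            · rw [← ENNReal.ofReal_coe_nnreal]
              exact ENNReal.ofReal_le_ofReal hx.2
        _ < ∞ := by
            rw [setLIntegral_const]
            refine ENNReal.mul_lt_top (ENNReal.mul_lt_top ?_ ENNReal.ofReal_lt_top) hvol
            exact ENNReal.rpow_lt_top_of_nonneg hp0.le ENNReal.ofReal_ne_top
    have hgi : Integrable g := by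
      have h1 : IntegrableOn (fun _ : ℝ => (B ^ (p - 1) * k : ℝ)) (Es W k) :=
        integrableOn_const hvol.ne
      have h2 := (integrable_indicator_iff hE).2 h1
      refine h2.mono' hgm.aestronglyMeasurable (Eventually.of_forall fun x => ?_)
      by_cases hx : x ∈ Es W k
      · rw [indicator_of_mem hx, gd_norm hp T hx]
        refine mul_le_mul (Real.rpow_le_rpow (norm_nonneg _) (hTB x) hp1.le) hx.2
          (by positivity) (by positivity)
      · rw [indicator_of_notMem hx, hg, gd_zero T hx, norm_zero]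
    have hY : ∫⁻ x, ‖g x‖ₑ ^ (p / (p - 1)) * sig p W x = X := by
      rw [hX, ← lintegral_indicator hE]
      refine lintegral_congr fun x => ?_
      by_cases hx : x ∈ Es W k
      · rw [indicator_of_mem hx]
        have h1 : ‖g x‖ₑ = ‖T x‖ₑ ^ (p - 1) * W x := by
          rw [← ofReal_norm, hg, gd_norm hp T hx, ENNReal.ofReal_mul (by positivity),
            ENNReal.ofReal_coe_nnreal, ← ENNReal.ofReal_rpow_of_nonneg (norm_nonneg _) hp1.le,
            ofReal_norm]
        rw [h1, ENNReal.mul_rpow_of_nonneg _ _ (by positivity), ← ENNReal.rpow_mul, mul_assoc,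
          pow_sig hp]
        congr 2
        field_simp
      · rw [indicator_of_notMem hx, hg, gd_zero T hx, enorm_zero,
          ENNReal.zero_rpow_of_pos (by positivity), zero_mul]
    have hpair : ‖∫ x, g x * T x‖ₑ = X := by
      have h1 : ∫ x, g x * T x = ((∫ x in Es W k, ‖T x‖ ^ p * (W x : ℝ) : ℝ) : ℂ) := by
        rw [← integral_complex_ofReal, ← integral_indicator hE]
        refine integral_congr_ae (Eventually.of_forall fun x => ?_)
        by_cases hx : x ∈ Es W k
        · simp only [indicator_of_mem hx]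
          exact gd_mul hp T hx
        · simp only [indicator_of_notMem hx]
          rw [hg, gd_zero T hx, zero_mul]
      have h0 : 0 ≤ ∫ x in Es W k, ‖T x‖ ^ p * (W x : ℝ) :=
        integral_nonneg fun x => by positivity
      rw [h1, ← ofReal_norm, Complex.norm_real, Real.norm_eq_abs, abs_of_nonneg h0,
        ofReal_integral_eq_lintegral_ofReal]
      · refine lintegral_congr fun x => ?_
        rw [ENNReal.ofReal_mul (by positivity), ENNReal.ofReal_coe_nnreal,
          ← ENNReal.ofReal_rpow_of_nonneg (norm_nonneg _) hp0.le, ofReal_norm]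
      · have h3 : IntegrableOn (fun _ : ℝ => (B ^ p * k : ℝ)) (Es W k) :=
          integrableOn_const hvol.ne
        refine h3.mono' ?_ ?_
        · refine (Measurable.mul ?_ ?_).aestronglyMeasurable
          · exact (hTm.norm).pow_const _
          · have := hU.meas; fun_prop
        · refine (ae_restrict_iff' hE).2 (Eventually.of_forall fun x hx => ?_)
          rw [Real.norm_eq_abs, abs_of_nonneg (by positivity)]
          exact mul_le_mul (Real.rpow_le_rpow (norm_nonneg _) (hTB x) hp0.le) hx.2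
            (by positivity) (by positivity)
      · exact Eventually.of_forall fun x => by positivity
    -- the inequality
    have h1 := form ha0 hab hf hfm hgi hgm
    have h2 := LL_bound hp hU hK hf hfm hgi hgm hZ (by rw [hY]; exact hXf.ne) m hR
    rw [← hT, hpair] at h1
    have h3 := h1.trans h2
    rw [← hC, NN, hY] at h3
    by_cases hX0 : X = 0
    · rw [hX0]; exact zero_le
    have h4 : X ^ (1 / p) ≤ C * nrm p W f ^ (1 / p) := by
      have e : X = X ^ (1 / p) * X ^ (1 - 1 / p) := by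
        rw [← ENNReal.rpow_add _ _ hX0 hXf.ne]
        simp
      have h5 : X ^ (1 - 1 / p) ≠ 0 := by
        simp [ENNReal.rpow_eq_zero_iff, hX0, hXf.ne]
      have h6 : X ^ (1 - 1 / p) ≠ ∞ := ENNReal.rpow_ne_top_of_nonneg (by
        have : 1 / p < 1 := by rw [div_lt_one hp0]; exact hp
        linarith) hXf.ne
      have h7 : X ^ (1 / p) * X ^ (1 - 1 / p) ≤ (C * nrm p W f ^ (1 / p)) * X ^ (1 - 1 / p) := by
        rw [← e, mul_assoc]
        exact h3
      exact (ENNReal.mul_le_mul_iff_left h5 h6).1 h7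
    calc X = (X ^ (1 / p)) ^ p := by
          rw [← ENNReal.rpow_mul, one_div_mul_cancel hp0.ne', ENNReal.rpow_one]
      _ ≤ (C * nrm p W f ^ (1 / p)) ^ p := ENNReal.rpow_le_rpow h4 hp0.le
      _ = C ^ p * nrm p W f := by
          rw [ENNReal.mul_rpow_of_nonneg _ _ hp0.le, ← ENNReal.rpow_mul,
            one_div_mul_cancel hp0.ne', ENNReal.rpow_one]
  -- exhaustion
  have h1 : nrm p W T = ⨆ k, ∫⁻ x in Es W k, ‖T x‖ₑ ^ p * W x := by
    rw [nrm, ← setLIntegral_univ, ← Es_univ (W := W),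
      setLIntegral_iUnion_of_directed _ (Es_mono.directed_le)]
  rw [h1]
  exact iSup_le key

/-- **Hunt–Muckenhoupt–Wheeden.** The Hilbert transform is bounded on `L^p(W)` for every weight
`W ∈ A_p`. -/
theorem strong_of_ap (hp : 1 < p) (hU : IsWeight W) (hA : Ap p W) : Strong p W := by
  have hp0 : 0 < p := by linarith
  obtain ⟨K, hK⟩ := hA
  set C : ℝ≥0 := (C2 (1 / p) ((K : ℝ) ^ (1 / p))).toNNReal with hC
  have hc0 : (0 : ℝ) < cc := by rw [cc_val]; norm_num
  set γ : ℝ := (cc * Real.pi)⁻¹ with hγ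
  have hγ0 : 0 < γ := by
    have := Real.pi_pos
    positivity
  refine ⟨γ.toNNReal ^ p * C ^ p + 1, fun f g hf hg => ?_⟩
  by_cases hZ : nrm p W f = ∞
  · rw [hZ, ENNReal.mul_top]
    · exact le_top
    · rw [ENNReal.coe_add]
      simp
  -- replace `f` by a measurable function
  set f' := hf.aestronglyMeasurable.mk f with hf'
  have hff' : f =ᵐ[volume] f' := hf.aestronglyMeasurable.ae_eq_mk
  have hfm' : Measurable f' := hf.aestronglyMeasurable.stronglyMeasurable_mk.measurable
  have hfi' : Integrable f' := hf.congr hff'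
  have hn : nrm p W f' = nrm p W f := by
    refine lintegral_congr_ae ?_
    filter_upwards [hff'] with x hx
    rw [hx]
  have hg' : IsHilbert f' g := by
    filter_upwards [hg] with x hx
    unfold HasPV at hx ⊢
    refine hx.congr fun δ => ?_
    congr 1
    refine setIntegral_congr_ae (meas_set x δ) ?_
    filter_upwards [hff'] with y hy _
    rw [hy]
  have hlim := Tf_tendsto hfi'
  have hpw : ∀ n : ℕ, (0 : ℝ) < 2 ^ n := fun n => by positivity
  have hmain : nrm p W g ≤ ((γ.toNNReal ^ p * C ^ p : ℝ≥0) : ℝ≥0∞) * nrm p W f := by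
    refine nrm_le_of_tendsto hp0 hU.meas
      (g := fun n x => (-(γ : ℂ)) * Tf (2 ^ n / 2 ^ (2 * n)) (2 ^ n) f' x)
      (fun n => ((Tf_meas _ _ hfm').const_mul _).aemeasurable) ?_ tendsto_const_nhds ?_
    · filter_upwards [hlim, hg'] with x hx hgx
      have h1 := hx (g x) hgx (fun n => 2 ^ n / 2 ^ (2 * n)) (fun n => 2 ^ n)
        (fun n => by positivity) (fun n => by positivity) ?_ ?_
      · have h2 := h1.const_mul (-(γ : ℂ))
        have e : -(γ : ℂ) * (-(cc : ℂ) * (Real.pi * g x)) = g x := by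
          have h3 : (γ : ℂ) * ((cc : ℂ) * (Real.pi : ℂ)) = 1 := by
            rw [hγ]
            push_cast
            refine inv_mul_cancel₀ ?_
            have h4 : (cc : ℂ) ≠ 0 := by exact_mod_cast hc0.ne'
            have h5 : (Real.pi : ℂ) ≠ 0 := by exact_mod_cast Real.pi_pos.ne'
            exact mul_ne_zero h4 h5
          calc -(γ : ℂ) * (-(cc : ℂ) * (Real.pi * g x))
              = ((γ : ℂ) * ((cc : ℂ) * (Real.pi : ℂ))) * g x := by ring
            _ = g x := by rw [h3, one_mul]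
        rwa [e] at h2
      · have e : ∀ n : ℕ, (2 : ℝ) ^ n / 2 ^ (2 * n) = (1 / 2) ^ n := by
          intro n
          rw [two_mul, pow_add, one_div, inv_pow]
          field_simp
        simp_rw [e]
        exact tendsto_pow_atTop_nhds_zero_of_lt_one (by norm_num) (by norm_num)
      · exact tendsto_pow_atTop_atTop_of_one_lt (by norm_num)
    · intro n
      have h1 := Tf_bound hp hU hK hfi' hfm' (by rw [hn]; exact hZ) (2 * n) (hpw n)
      have h2 : nrm p W (fun x => (-(γ : ℂ)) * Tf (2 ^ n / 2 ^ (2 * n)) (2 ^ n) f' x)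
          = (γ.toNNReal : ℝ≥0∞) ^ p * nrm p W (Tf (2 ^ n / 2 ^ (2 * n)) (2 ^ n) f') := by
        unfold nrm
        rw [← lintegral_const_mul' _ _ (ENNReal.rpow_ne_top_of_nonneg hp0.le ENNReal.coe_ne_top)]
        refine lintegral_congr fun x => ?_
        have e : ‖(-(γ : ℂ))‖ₑ = (γ.toNNReal : ℝ≥0∞) := by
          rw [← ofReal_norm, norm_neg, Complex.norm_real, Real.norm_eq_abs, abs_of_pos hγ0]
          rfl
        rw [enorm_mul, ENNReal.mul_rpow_of_nonneg _ _ hp0.le, e, mul_assoc]
      rw [h2]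
      rw [hn] at h1
      calc (γ.toNNReal : ℝ≥0∞) ^ p * nrm p W (Tf (2 ^ n / 2 ^ (2 * n)) (2 ^ n) f')
          ≤ (γ.toNNReal : ℝ≥0∞) ^ p * ((C : ℝ≥0∞) ^ p * nrm p W f) := by gcongr; exact h1
        _ = _ := by
            rw [ENNReal.coe_mul, ENNReal.coe_rpow_of_nonneg _ hp0.le,
              ENNReal.coe_rpow_of_nonneg _ hp0.le]
            ring
  refine hmain.trans ?_
  gcongr
  exact le_self_add

end Pool.Agent.N246.HMW
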