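import Pool.Agent.N246.HMW.Ker

/-! The bilinear form of the kernel. -/

set_option autoImplicit false
open MeasureTheory Set Filter Topology
open scoped ENNReal NNReal

namespace Pool.Agent.N246.HMW

open Pool.Agent.N246.MZ Dat

theorem Kr_le {a b : ℝ} (ha : 0 < a) (hab : a ≤ b) (z : ℝ) : |Kr a b z| ≤ 2 / a := by
  have hb : 0 < b := ha.trans_le hab
  unfold Kr
  by_cases hz : z = 0
  · rw [hz, inv_zero, zero_mul, abs_zero]; positivity
  have hz' : 0 < |z| := abs_pos.2 hz
  rw [abs_mul, abs_inv]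
  have h1 : |J (z / a) - J (z / b)| ≤ |z| / a + |z| / a := by
    refine (abs_sub _ _).trans (add_le_add ?_ ?_)
    · have := J_le (z / a)
      rwa [abs_div, abs_of_pos ha] at this
    · have := J_le (z / b)
      rw [abs_div, abs_of_pos hb] at this
      exact this.trans (div_le_div_of_nonneg_left hz'.le ha hab)
  calc |z|⁻¹ * |J (z / a) - J (z / b)| ≤ |z|⁻¹ * (|z| / a + |z| / a) :=
        mul_le_mul_of_nonneg_left h1 (by positivity)
    _ = 2 / a := by field_simp; ring

theorem J_meas : Measurable J :=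
  (continuous_iff_continuousAt.2 fun z => (J_deriv z).continuousAt).measurable

theorem Kr_meas (a b : ℝ) : Measurable (Kr a b) := by
  unfold Kr
  exact measurable_inv.mul ((J_meas.comp (by fun_prop : Measurable fun z : ℝ => z / a)).sub
    (J_meas.comp (by fun_prop : Measurable fun z : ℝ => z / b)))

/-- the operator -/
noncomputable def Tf (a b : ℝ) (f : ℝ → ℂ) (x : ℝ) : ℂ := ∫ y, (Kr a b (y - x) : ℂ) * f y

theorem ind_div {t : ℝ} (ht : 0 < t) (a b u y : ℝ) :
    indicator (Ioc a b) (fun _ => (1:ℝ)) ((y - u) / t)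
      = indicator (Ioc (u + t * a) (u + t * b)) (fun _ => (1:ℝ)) y := by
  have h : (y - u) / t ∈ Ioc a b ↔ y ∈ Ioc (u + t * a) (u + t * b) := by
    rw [mem_Ioc, mem_Ioc, lt_div_iff₀ ht, div_le_iff₀ ht]
    constructor
    · rintro ⟨h1, h2⟩; exact ⟨by linarith, by linarith⟩
    · rintro ⟨h1, h2⟩; exact ⟨by linarith, by linarith⟩
  by_cases hy : y ∈ Ioc (u + t * a) (u + t * b)
  · rw [indicator_of_mem hy, indicator_of_mem (h.2 hy)]
  · rw [indicator_of_notMem hy, indicator_of_notMem (fun h' => hy (h.1 h'))]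

theorem int_ind (a b : ℝ) (f : ℝ → ℂ) :
    ∫ y, ((indicator (Ioc a b) (fun _ => (1:ℝ)) y : ℝ) : ℂ) * f y = ∫ y in Ioc a b, f y := by
  rw [← integral_indicator measurableSet_Ioc]
  refine integral_congr_ae (Eventually.of_forall fun y => ?_)
  by_cases hy : y ∈ Ioc a b
  · simp only [indicator_of_mem hy, Complex.ofReal_one, one_mul]
  · simp only [indicator_of_notMem hy, Complex.ofReal_zero, zero_mul]

theorem ind_int {f : ℝ → ℂ} (hf : Integrable f) (a b : ℝ) :
    Integrable (fun y => ((indicator (Ioc a b) (fun _ => (1:ℝ)) y : ℝ) : ℂ) * f y) := by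
  refine (hf.indicator (measurableSet_Ioc (a := a) (b := b))).congr (Eventually.of_forall fun y => ?_)
  by_cases hy : y ∈ Ioc a b
  · simp only [indicator_of_mem hy, Complex.ofReal_one, one_mul]
  · simp only [indicator_of_notMem hy, Complex.ofReal_zero, zero_mul]

theorem ind_int2 {f : ℝ → ℂ} (hf : Integrable f) (a b c d : ℝ) :
    Integrable (fun y => ((indicator (Ioc a b) (fun _ => (1:ℝ)) y : ℝ) : ℂ) * f y
      - ((indicator (Ioc c d) (fun _ => (1:ℝ)) y : ℝ) : ℂ) * f y) :=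
  (ind_int hf a b).sub (ind_int hf c d)

theorem hh_form {f : ℝ → ℂ} (hf : Integrable f) {t : ℝ} (ht : 0 < t) (u : ℝ) :
    ‖∫ y, (hh ((y - u) / t) : ℂ) * f y‖ = dd (fun u t => ∫ x in Ioc u (u + t), f x) u t := by
  have h1 : ∫ y, (hh ((y - u) / t) : ℂ) * f y
      = (∫ x in Ioc u (u + t / 2), f x) - ∫ x in Ioc (u + t / 2) (u + t / 2 + t / 2), f x := by
    rw [← int_ind, ← int_ind, ← integral_sub (ind_int hf _ _) (ind_int hf _ _)]
    refine integral_congr_ae (Eventually.of_forall fun y => ?_)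
    simp only [hh]
    rw [ind_div ht, ind_div ht]
    have e1 : u + t * 0 = u := by ring
    have e2 : u + t * (1 / 2) = u + t / 2 := by ring
    have e3 : u + t * 1 = u + t / 2 + t / 2 := by ring
    rw [e1, e2, e3]
    push_cast
    ring
  rw [h1]
  rfl

theorem kk_form {g : ℝ → ℂ} (hg : Integrable g) {t : ℝ} (ht : 0 < t) (u : ℝ) :
    ‖∫ x, (kk ((x - u) / t) : ℂ) * g x‖ ≤ dd (fun u t => ∫ x in Ioc u (u + t), g x) u (t / 2) +
      dd (fun u t => ∫ x in Ioc u (u + t), g x) (u + t / 2) (t / 2) := by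
  have h1 : ∫ y, (kk ((y - u) / t) : ℂ) * g y
      = ((∫ x in Ioc u (u + t / 2 / 2), g x)
          - ∫ x in Ioc (u + t / 2 / 2) (u + t / 2 / 2 + t / 2 / 2), g x)
        - ((∫ x in Ioc (u + t / 2) (u + t / 2 + t / 2 / 2), g x)
          - ∫ x in Ioc (u + t / 2 + t / 2 / 2) (u + t / 2 + t / 2 / 2 + t / 2 / 2), g x) := by
    rw [← int_ind, ← int_ind, ← int_ind, ← int_ind, ← integral_sub (ind_int hg _ _) (ind_int hg _ _),
      ← integral_sub (ind_int hg _ _) (ind_int hg _ _),
      ← integral_sub (ind_int2 hg _ _ _ _) (ind_int2 hg _ _ _ _)]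
    refine integral_congr_ae (Eventually.of_forall fun y => ?_)
    simp only [kk]
    rw [ind_div ht, ind_div ht, ind_div ht, ind_div ht]
    have e0 : u + t * 0 = u := by ring
    have e1 : u + t * (1 / 4) = u + t / 2 / 2 := by ring
    have e2 : u + t * (1 / 2) = u + t / 2 := by ring
    have e2' : u + t / 2 / 2 + t / 2 / 2 = u + t / 2 := by ring
    have e3 : u + t * (3 / 4) = u + t / 2 + t / 2 / 2 := by ring
    have e4 : u + t * 1 = u + t / 2 + t / 2 / 2 + t / 2 / 2 := by ring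
    rw [e0, e1, e2, e3, e4, e2']
    push_cast
    ring
  rw [h1]
  exact norm_sub_le _ _

/-- the integrand -/
noncomputable def Ph (f g : ℝ → ℂ) (z w : ℝ × ℝ) : ℂ :=
  (g z.1 * f z.2) * (((w.2 ^ 3)⁻¹ * (hh ((z.2 - w.1) / w.2) * kk ((z.1 - w.1) / w.2)) : ℝ) : ℂ)

theorem Ph_meas {f g : ℝ → ℂ} (hfm : Measurable f) (hgm : Measurable g) :
    Measurable (Function.uncurry (Ph f g)) := by
  unfold Ph Function.uncurry
  refine Measurable.mul ?_ ?_
  · exact (hgm.comp (measurable_fst.comp measurable_fst)).mul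
      (hfm.comp (measurable_snd.comp measurable_fst))
  · refine Complex.measurable_ofReal.comp ?_
    refine Measurable.mul ?_ (Measurable.mul ?_ ?_)
    · exact (by fun_prop : Measurable fun p : (ℝ × ℝ) × (ℝ × ℝ) => (p.2.2 ^ 3)⁻¹)
    · exact hh_meas.comp (by fun_prop : Measurable fun p : (ℝ × ℝ) × (ℝ × ℝ) =>
        (p.1.2 - p.2.1) / p.2.2)
    · exact kk_meas.comp (by fun_prop : Measurable fun p : (ℝ × ℝ) × (ℝ × ℝ) =>
        (p.1.1 - p.2.1) / p.2.2)

/-- measure on the set of intervals -/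
noncomputable def mu (a b : ℝ) : Measure (ℝ × ℝ) :=
  (volume : Measure ℝ).prod ((volume : Measure ℝ).restrict (Ioc a b))

instance (a b : ℝ) : SFinite (mu a b) := by unfold mu; infer_instance

theorem mu_pos {a b : ℝ} : ∀ᵐ w ∂(mu a b), w.2 ∈ Ioc a b := by
  have h : ∀ᵐ t ∂((volume : Measure ℝ).restrict (Ioc a b)), t ∈ Ioc a b :=
    ae_restrict_mem measurableSet_Ioc
  unfold mu
  exact Measure.quasiMeasurePreserving_snd.ae h

/-- the bounding function -/
noncomputable def bd (a b y : ℝ) (w : ℝ × ℝ) : ℝ :=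
  indicator (Icc (y - b) y) (fun _ => (a ^ 3)⁻¹) w.1 * (1 : ℝ)

theorem bd_int (a b y : ℝ) : Integrable (bd a b y) (mu a b) := by
  unfold bd mu
  refine Integrable.mul_prod (f := indicator (Icc (y - b) y) (fun _ => (a ^ 3)⁻¹))
    (g := fun _ => (1 : ℝ)) ?_ ?_
  · rw [integrable_indicator_iff measurableSet_Icc]
    exact integrableOn_const (by rw [Real.volume_Icc]; exact ENNReal.ofReal_ne_top)
  · have : IntegrableOn (fun _ : ℝ => (1:ℝ)) (Ioc a b) :=
      integrableOn_const (by rw [Real.volume_Ioc]; exact ENNReal.ofReal_ne_top)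
    exact this

theorem bd_integral {a b : ℝ} (hb : 0 < b) (y : ℝ) :
    ∫ w, bd a b y w ∂(mu a b) = b * (a ^ 3)⁻¹ * (volume.restrict (Ioc a b)).real univ := by
  unfold bd mu
  rw [integral_prod_mul (f := indicator (Icc (y - b) y) (fun _ => (a ^ 3)⁻¹))
    (g := fun _ => (1 : ℝ)), integral_indicator measurableSet_Icc, setIntegral_const,
    measureReal_def, Real.volume_Icc, show y - (y - b) = b by ring, ENNReal.toReal_ofReal hb.le,
    integral_const]
  simp

theorem ker_bd {a b : ℝ} (ha : 0 < a) (x y : ℝ) {w : ℝ × ℝ} (hw : w.2 ∈ Ioc a b) :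
    |(w.2 ^ 3)⁻¹ * (hh ((y - w.1) / w.2) * kk ((x - w.1) / w.2))| ≤ bd a b y w := by
  have ht : 0 < w.2 := ha.trans hw.1
  unfold bd
  rw [mul_one, abs_mul, abs_mul, abs_of_pos (by positivity)]
  have h1 : |kk ((x - w.1) / w.2)| ≤ 1 :=
    (kk_abs _).trans (indicator_le_self' (fun _ _ => zero_le_one) _)
  have h2 : (w.2 ^ 3)⁻¹ ≤ (a ^ 3)⁻¹ := inv_anti₀ (by positivity) (pow_le_pow_left₀ ha.le hw.1.le 3)
  by_cases hu : w.1 ∈ Icc (y - b) y
  · rw [indicator_of_mem hu]
    have h3 : |hh ((y - w.1) / w.2)| ≤ 1 :=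
      (hh_abs _).trans (indicator_le_self' (fun _ _ => zero_le_one) _)
    calc (w.2 ^ 3)⁻¹ * (|hh ((y - w.1) / w.2)| * |kk ((x - w.1) / w.2)|)
        ≤ (a ^ 3)⁻¹ * (1 * 1) := by
          refine mul_le_mul h2 (mul_le_mul h3 h1 (abs_nonneg _) zero_le_one)
            (by positivity) (by positivity)
      _ = _ := by ring
  · rw [indicator_of_notMem hu]
    have h3 : |hh ((y - w.1) / w.2)| ≤ 0 := by
      refine (hh_abs _).trans (le_of_eq ?_)
      rw [indicator_of_notMem]
      rintro ⟨h4, h5⟩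
      apply hu
      rw [div_le_one ht] at h5
      have h6 : 0 < y - w.1 := by
        by_contra hcon
        push Not at hcon
        exact absurd h4 (not_lt.2 (div_nonpos_of_nonpos_of_nonneg hcon ht.le))
      exact ⟨by linarith [hw.2], by linarith⟩
    have h4 : |hh ((y - w.1) / w.2)| = 0 := le_antisymm h3 (abs_nonneg _)
    rw [h4, zero_mul, mul_zero]

theorem ker_meas (x y : ℝ) : Measurable fun w : ℝ × ℝ =>
    (w.2 ^ 3)⁻¹ * (hh ((y - w.1) / w.2) * kk ((x - w.1) / w.2)) := by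
  refine Measurable.mul ?_ (Measurable.mul ?_ ?_)
  · exact (by fun_prop : Measurable fun p : ℝ × ℝ => (p.2 ^ 3)⁻¹)
  · exact hh_meas.comp (by fun_prop : Measurable fun p : ℝ × ℝ => (y - p.1) / p.2)
  · exact kk_meas.comp (by fun_prop : Measurable fun p : ℝ × ℝ => (x - p.1) / p.2)

theorem ker_int {a b : ℝ} (ha : 0 < a) (x y : ℝ) : Integrable (fun w : ℝ × ℝ =>
    (w.2 ^ 3)⁻¹ * (hh ((y - w.1) / w.2) * kk ((x - w.1) / w.2))) (mu a b) := by
  refine (bd_int a b y).mono' (ker_meas x y).aestronglyMeasurable ?_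
  filter_upwards [mu_pos] with w hw
  exact ker_bd ha x y hw

theorem ker_val {a b : ℝ} (ha : 0 < a) (hab : a ≤ b) {x y : ℝ} (hxy : y - x ≠ 0) :
    ∫ w, (w.2 ^ 3)⁻¹ * (hh ((y - w.1) / w.2) * kk ((x - w.1) / w.2)) ∂(mu a b)
      = Kr a b (y - x) := by
  have h1 := ker_int (b := b) ha x y
  unfold mu at h1 ⊢
  rw [integral_prod_symm _ h1, ← Psi_integral ha hab hxy]
  refine setIntegral_congr_fun measurableSet_Ioc fun t ht => ?_
  have ht0 : 0 < t := ha.trans ht.1
  simp only
  rw [integral_const_mul, inner_int ht0]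
  field_simp

theorem Ph_int {a b : ℝ} (ha : 0 < a) (hab : a ≤ b) {f g : ℝ → ℂ} (hf : Integrable f)
    (hfm : Measurable f) (hg : Integrable g) (hgm : Measurable g) :
    Integrable (Function.uncurry (Ph f g)) ((volume : Measure (ℝ × ℝ)).prod (mu a b)) := by
  have hb : 0 < b := ha.trans_le hab
  have hm := Ph_meas hfm hgm
  rw [integrable_prod_iff hm.aestronglyMeasurable]
  have hnorm : ∀ z w : ℝ × ℝ, w.2 ∈ Ioc a b → ‖Ph f g z w‖ ≤ ‖g z.1 * f z.2‖ * bd a b z.2 w := by
    intro z w hw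
    unfold Ph
    rw [norm_mul, Complex.norm_real]
    exact mul_le_mul_of_nonneg_left (ker_bd ha z.1 z.2 hw) (norm_nonneg _)
  refine ⟨Eventually.of_forall fun z => ?_, ?_⟩
  · refine ((bd_int a b z.2).const_mul ‖g z.1 * f z.2‖).mono' ?_ ?_
    · exact (hm.comp (by fun_prop : Measurable fun w : ℝ × ℝ => (z, w))).aestronglyMeasurable
    · filter_upwards [mu_pos] with w hw
      exact hnorm z w hw
  · have hgf : Integrable (fun z : ℝ × ℝ => g z.1 * f z.2) (volume : Measure (ℝ × ℝ)) :=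
      Integrable.mul_prod hg hf
    refine (hgf.norm.mul_const (b * (a ^ 3)⁻¹ * (volume.restrict (Ioc a b)).real univ)).mono' ?_ ?_
    · exact (hm.aestronglyMeasurable.norm).integral_prod_right'
    · refine Eventually.of_forall fun z => ?_
      rw [Real.norm_eq_abs, abs_of_nonneg (integral_nonneg fun w => norm_nonneg _),
        ← bd_integral hb z.2, ← integral_const_mul]
      refine integral_mono_ae ?_ ((bd_int a b z.2).const_mul _) ?_
      · refine ((bd_int a b z.2).const_mul ‖g z.1 * f z.2‖).mono' ?_ ?_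
        · exact (hm.comp (by fun_prop : Measurable fun w : ℝ × ℝ => (z, w))).norm.aestronglyMeasurable
        · filter_upwards [mu_pos] with w hw
          rw [norm_norm]
          exact hnorm z w hw
      · filter_upwards [mu_pos] with w hw
        exact hnorm z w hw

/-- **The bilinear form of the operator.** -/
theorem form {a b : ℝ} (ha : 0 < a) (hab : a ≤ b) {f g : ℝ → ℂ} (hf : Integrable f)
    (hfm : Measurable f) (hg : Integrable g) (hgm : Measurable g) :
    ‖∫ x, g x * Tf a b f x‖ₑ ≤ LL (fun u t => ∫ x in Ioc u (u + t), f x)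
      (fun u t => ∫ x in Ioc u (u + t), g x) a b := by
  have hI := Ph_int ha hab hf hfm hg hgm
  have hswap := integral_integral_swap hI
  -- left side
  have hL : ∫ z, ∫ w, Ph f g z w ∂(mu a b) = ∫ x, g x * Tf a b f x := by
    have h1 : ∀ z : ℝ × ℝ, z.2 - z.1 ≠ 0 → ∫ w, Ph f g z w ∂(mu a b)
        = g z.1 * ((Kr a b (z.2 - z.1) : ℂ) * f z.2) := by
      intro z hz
      unfold Ph
      rw [integral_const_mul, integral_complex_ofReal, ker_val ha hab hz]
      ring
    have hne : ∀ᵐ z : ℝ × ℝ, z.2 - z.1 ≠ 0 := by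
      have : ∀ᵐ z ∂((volume : Measure ℝ).prod (volume : Measure ℝ)), z.2 - z.1 ≠ 0 := by
        rw [Measure.ae_prod_iff_ae_ae]
        · refine Eventually.of_forall fun x => ?_
          have : ∀ᵐ y : ℝ, y ≠ x := by rw [ae_iff]; simp
          filter_upwards [this] with y hy
          exact sub_ne_zero.2 hy
        · exact (measurableSet_eq_fun (by fun_prop) measurable_const).compl
      exact this
    have h2 : ∫ z, ∫ w, Ph f g z w ∂(mu a b)
        = ∫ z : ℝ × ℝ, g z.1 * ((Kr a b (z.2 - z.1) : ℂ) * f z.2) := by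
      refine integral_congr_ae ?_
      filter_upwards [hne] with z hz
      exact h1 z hz
    have h3 : Integrable (fun z : ℝ × ℝ => g z.1 * ((Kr a b (z.2 - z.1) : ℂ) * f z.2))
        ((volume : Measure ℝ).prod (volume : Measure ℝ)) := by
      have hgf : Integrable (fun z : ℝ × ℝ => g z.1 * f z.2)
          ((volume : Measure ℝ).prod (volume : Measure ℝ)) := Integrable.mul_prod hg hf
      refine (hgf.norm.const_mul (2 / a)).mono' ?_ (Eventually.of_forall fun z => ?_)
      · refine Measurable.aestronglyMeasurable ?_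
        refine (hgm.comp measurable_fst).mul (Measurable.mul ?_ (hfm.comp measurable_snd))
        exact Complex.measurable_ofReal.comp
          ((Kr_meas a b).comp (by fun_prop : Measurable fun z : ℝ × ℝ => z.2 - z.1))
      · rw [norm_mul, norm_mul, Complex.norm_real, norm_mul]
        have := Kr_le ha hab (z.2 - z.1)
        calc ‖g z.1‖ * (|Kr a b (z.2 - z.1)| * ‖f z.2‖)
            ≤ ‖g z.1‖ * (2 / a * ‖f z.2‖) := by gcongr
          _ = _ := by ring
    rw [h2]
    have h4 : ∫ z : ℝ × ℝ, g z.1 * ((Kr a b (z.2 - z.1) : ℂ) * f z.2)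
        = ∫ x, ∫ y, g x * ((Kr a b (y - x) : ℂ) * f y) := integral_prod _ h3
    rw [h4]
    refine integral_congr_ae (Eventually.of_forall fun x => ?_)
    simp only
    rw [integral_const_mul]
    rfl
  -- right side
  have hR : ∀ w : ℝ × ℝ, w.2 ∈ Ioc a b → ‖∫ z, Ph f g z w‖ₑ ≤ ENNReal.ofReal (w.2 ^ 2)⁻¹ *
      ENNReal.ofReal (qq (fun u t => ∫ x in Ioc u (u + t), f x)
        (fun u t => ∫ x in Ioc u (u + t), g x) w.1 w.2) := by
    intro w hw
    have ht : 0 < w.2 := ha.trans hw.1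
    have h1 : ∫ z, Ph f g z w = (((w.2 ^ 3)⁻¹ : ℝ) : ℂ) *
        ((∫ x, (kk ((x - w.1) / w.2) : ℂ) * g x) * ∫ y, (hh ((y - w.1) / w.2) : ℂ) * f y) := by
      have h2 : ∀ z : ℝ × ℝ, Ph f g z w = (((w.2 ^ 3)⁻¹ : ℝ) : ℂ) *
          (((kk ((z.1 - w.1) / w.2) : ℂ) * g z.1) * ((hh ((z.2 - w.1) / w.2) : ℂ) * f z.2)) := by
        intro z
        unfold Ph
        push_cast
        ring
      simp_rw [h2]
      rw [integral_const_mul]
      congr 1
      exact integral_prod_mul (fun x => (kk ((x - w.1) / w.2) : ℂ) * g x)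
        (fun y => (hh ((y - w.1) / w.2) : ℂ) * f y)
    rw [h1, ← ofReal_norm, norm_mul, norm_mul, Complex.norm_real, Real.norm_eq_abs,
      abs_of_pos (by positivity), ← ENNReal.ofReal_mul (by positivity)]
    refine ENNReal.ofReal_le_ofReal ?_
    rw [hh_form hf ht]
    unfold qq
    have h3 := kk_form hg ht w.1
    calc (w.2 ^ 3)⁻¹ * (‖∫ x, (kk ((x - w.1) / w.2) : ℂ) * g x‖ *
          dd (fun u t => ∫ x in Ioc u (u + t), f x) w.1 w.2)
        ≤ (w.2 ^ 3)⁻¹ * ((dd (fun u t => ∫ x in Ioc u (u + t), g x) w.1 (w.2 / 2) +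
          dd (fun u t => ∫ x in Ioc u (u + t), g x) (w.1 + w.2 / 2) (w.2 / 2)) *
          dd (fun u t => ∫ x in Ioc u (u + t), f x) w.1 w.2) := by
          refine mul_le_mul_of_nonneg_left ?_ (by positivity)
          exact mul_le_mul_of_nonneg_right h3 (dd_nonneg _ _ _)
      _ = _ := by
          field_simp
  rw [← hL]
  have hswap' : ∫ z, ∫ w, Ph f g z w ∂(mu a b) = ∫ w, ∫ z, Ph f g z w ∂volume ∂(mu a b) := hswap
  rw [hswap']
  refine (enorm_integral_le_lintegral_enorm _).trans ?_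
  have h5 : ∫⁻ w, ‖∫ z, Ph f g z w‖ₑ ∂(mu a b) ≤ ∫⁻ w, ENNReal.ofReal (w.2 ^ 2)⁻¹ *
      ENNReal.ofReal (qq (fun u t => ∫ x in Ioc u (u + t), f x)
        (fun u t => ∫ x in Ioc u (u + t), g x) w.1 w.2) ∂(mu a b) := by
    refine lintegral_mono_ae ?_
    filter_upwards [mu_pos] with w hw
    exact hR w hw
  refine h5.trans ?_
  have hqm : Measurable fun w : ℝ × ℝ => ENNReal.ofReal (w.2 ^ 2)⁻¹ *
      ENNReal.ofReal (qq (fun u t => ∫ x in Ioc u (u + t), f x)
        (fun u t => ∫ x in Ioc u (u + t), g x) w.1 w.2) := by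
    refine Measurable.mul ?_ (qq_meas (F_meas hf) (F_meas hg)).ennreal_ofReal
    exact (by fun_prop : Measurable fun w : ℝ × ℝ => ENNReal.ofReal (w.2 ^ 2)⁻¹)
  unfold mu LL
  rw [lintegral_prod_symm' _ hqm]
  refine lintegral_mono fun t => ?_
  simp only
  rw [lintegral_const_mul' _ _ ENNReal.ofReal_ne_top]
  rfl

end Pool.Agent.N246.HMW
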