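import Pool.Agent.N246.HMW.Tree

/-! The stopping time argument. -/

set_option autoImplicit false
open Set

namespace Pool.Agent.N246.HMW

/-- the data of the weighted inequality: integrals over dyadic intervals `[u, u + t)` -/
structure Dat (θ K : ℝ) where
  /-- integral of `f` -/
  F : ℝ → ℝ → ℂ
  /-- integral of `g` -/
  G : ℝ → ℝ → ℂ
  /-- integral of `|f|` -/
  f : ℝ → ℝ → ℝ
  /-- integral of `|g|` -/
  g : ℝ → ℝ → ℝ
  /-- integral of the weight -/
  w : ℝ → ℝ → ℝ
  /-- integral of the dual weight -/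
  s : ℝ → ℝ → ℝ
  /-- integral of `|f|^p w` -/
  Z : ℝ → ℝ → ℝ
  /-- integral of `|g|^{p'} σ` -/
  Y : ℝ → ℝ → ℝ
  addF : ∀ u t, 0 < t → F u t = F u (t / 2) + F (u + t / 2) (t / 2)
  addG : ∀ u t, 0 < t → G u t = G u (t / 2) + G (u + t / 2) (t / 2)
  addf : ∀ u t, 0 < t → f u t = f u (t / 2) + f (u + t / 2) (t / 2)
  addg : ∀ u t, 0 < t → g u t = g u (t / 2) + g (u + t / 2) (t / 2)
  addw : ∀ u t, 0 < t → w u t = w u (t / 2) + w (u + t / 2) (t / 2)
  adds : ∀ u t, 0 < t → s u t = s u (t / 2) + s (u + t / 2) (t / 2)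
  addZ : ∀ u t, 0 < t → Z u t = Z u (t / 2) + Z (u + t / 2) (t / 2)
  addY : ∀ u t, 0 < t → Y u t = Y u (t / 2) + Y (u + t / 2) (t / 2)
  nF : ∀ u t, 0 < t → ‖F u t‖ ≤ f u t
  nG : ∀ u t, 0 < t → ‖G u t‖ ≤ g u t
  wpos : ∀ u t, 0 < t → 0 < w u t
  spos : ∀ u t, 0 < t → 0 < s u t
  Z0 : ∀ u t, 0 < t → 0 ≤ Z u t
  Y0 : ∀ u t, 0 < t → 0 ≤ Y u t
  low : ∀ u t, 0 < t → t ≤ H θ (w u t) (s u t)
  upp : ∀ u t, 0 < t → H θ (w u t) (s u t) ≤ K * t
  fZ : ∀ u t, 0 < t → f u t ≤ H θ (Z u t) (s u t)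
  gY : ∀ u t, 0 < t → g u t ≤ H θ (w u t) (Y u t)

variable {θ K : ℝ}

namespace Dat

/-- difference of the two halves -/
noncomputable def dd (F : ℝ → ℝ → ℂ) (u t : ℝ) : ℝ := ‖F u (t / 2) - F (u + t / 2) (t / 2)‖

theorem dd_nonneg (F : ℝ → ℝ → ℂ) (u t : ℝ) : 0 ≤ dd F u t := norm_nonneg _

/-- one term of the form -/
noncomputable def qq (F G : ℝ → ℝ → ℂ) (u t : ℝ) : ℝ :=
  t⁻¹ * (dd F u t * (dd G u (t / 2) + dd G (u + t / 2) (t / 2)))

/-- the form -/
noncomputable def Atr (F G : ℝ → ℝ → ℂ) : ℕ → ℝ → ℝ → ℝ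
  | 0, _, _ => 0
  | n + 1, u, t => qq F G u t + Atr F G n u (t / 2) + Atr F G n (u + t / 2) (t / 2)

theorem qq_nonneg (F G : ℝ → ℝ → ℂ) {u t : ℝ} (ht : 0 < t) : 0 ≤ qq F G u t := by
  unfold qq
  have h1 := dd_nonneg F u t
  have h2 := dd_nonneg G u (t / 2)
  have h3 := dd_nonneg G (u + t / 2) (t / 2)
  positivity

theorem Atr_nonneg (F G : ℝ → ℝ → ℂ) (n : ℕ) : ∀ u t : ℝ, 0 < t → 0 ≤ Atr F G n u t := by
  induction n with
  | zero => intro u t _; exact le_rfl
  | succ n ih =>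
    intro u t ht
    have ht2 : 0 < t / 2 := by linarith
    exact add_nonneg (add_nonneg (qq_nonneg F G ht) (ih _ _ ht2)) (ih _ _ ht2)

open Classical in
/-- the corona part -/
noncomputable def Cor (St : ℝ → ℝ → Prop) (q : ℝ → ℝ → ℝ) : ℕ → ℝ → ℝ → ℝ
  | 0, _, _ => 0
  | n + 1, u, t => if St u t then 0 else q u t + Cor St q n u (t / 2) +
      Cor St q n (u + t / 2) (t / 2)

open Classical in
/-- the stopped part -/
noncomputable def Stp (St : ℝ → ℝ → Prop) (F G : ℝ → ℝ → ℂ) : ℕ → ℝ → ℝ → ℝ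
  | 0, _, _ => 0
  | n + 1, u, t => if St u t then Atr F G (n + 1) u t else Stp St F G n u (t / 2) +
      Stp St F G n (u + t / 2) (t / 2)

theorem Atr_eq (St : ℝ → ℝ → Prop) (F G : ℝ → ℝ → ℂ) (n : ℕ) :
    ∀ u t : ℝ, Atr F G n u t = Cor St (qq F G) n u t + Stp St F G n u t := by
  induction n with
  | zero => intro u t; simp [Atr, Cor, Stp]
  | succ n ih =>
    intro u t
    by_cases h : St u t
    · simp only [Cor, Stp, if_pos h, zero_add]
    · simp only [Cor, Stp, if_neg h, Atr]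
      rw [ih u (t / 2), ih (u + t / 2) (t / 2)]
      ring

open Classical in
/-- the unstopped part of a measure -/
noncomputable def US (St : ℝ → ℝ → Prop) (X : ℝ → ℝ → ℝ) : ℕ → ℝ → ℝ → ℝ
  | 0, u, t => if St u t then 0 else X u t
  | n + 1, u, t => if St u t then 0 else US St X n u (t / 2) + US St X n (u + t / 2) (t / 2)

open Classical in
/-- the stopped part of a measure -/
noncomputable def SS (St : ℝ → ℝ → Prop) (X : ℝ → ℝ → ℝ) : ℕ → ℝ → ℝ → ℝ
  | 0, u, t => if St u t then X u t else 0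
  | n + 1, u, t => if St u t then X u t else SS St X n u (t / 2) + SS St X n (u + t / 2) (t / 2)

theorem US_SS (St : ℝ → ℝ → Prop) {X : ℝ → ℝ → ℝ}
    (hX : ∀ u t, 0 < t → X u t = X u (t / 2) + X (u + t / 2) (t / 2)) (n : ℕ) :
    ∀ u t : ℝ, 0 < t → US St X n u t + SS St X n u t = X u t := by
  induction n with
  | zero =>
    intro u t _
    by_cases h : St u t
    · simp [US, SS, h]
    · simp [US, SS, h]
  | succ n ih =>
    intro u t ht
    have ht2 : 0 < t / 2 := by linarith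
    by_cases h : St u t
    · simp [US, SS, h]
    · simp only [US, SS, if_neg h]
      rw [hX u t ht, ← ih u (t / 2) ht2, ← ih (u + t / 2) (t / 2) ht2]
      ring

theorem US_nonneg (St : ℝ → ℝ → Prop) {X : ℝ → ℝ → ℝ} (hX : ∀ u t, 0 < t → 0 ≤ X u t) (n : ℕ) :
    ∀ u t : ℝ, 0 < t → 0 ≤ US St X n u t := by
  induction n with
  | zero =>
    intro u t ht
    by_cases h : St u t
    · simp [US, h]
    · simp [US, h, hX u t ht]
  | succ n ih =>
    intro u t ht
    have ht2 : 0 < t / 2 := by linarith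
    by_cases h : St u t
    · simp [US, h]
    · simp only [US, if_neg h]
      exact add_nonneg (ih _ _ ht2) (ih _ _ ht2)

theorem SS_nonneg (St : ℝ → ℝ → Prop) {X : ℝ → ℝ → ℝ} (hX : ∀ u t, 0 < t → 0 ≤ X u t) (n : ℕ) :
    ∀ u t : ℝ, 0 < t → 0 ≤ SS St X n u t := by
  induction n with
  | zero =>
    intro u t ht
    by_cases h : St u t
    · simp [SS, h, hX u t ht]
    · simp [SS, h]
  | succ n ih =>
    intro u t ht
    have ht2 : 0 < t / 2 := by linarith
    by_cases h : St u t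
    · simp [SS, h, hX u t ht]
    · simp only [SS, if_neg h]
      exact add_nonneg (ih _ _ ht2) (ih _ _ ht2)

open Classical in
/-- unstopped part of the maximal sum -/
noncomputable def TU (St : ℝ → ℝ → Prop) (r s : ℝ → ℝ → ℝ) (e : ℝ) : ℕ → ℝ → ℝ → ℝ → ℝ
  | 0, m, u, t => if St u t then 0 else (max m (r u t)) ^ e * s u t
  | n + 1, m, u, t => if St u t then 0 else TU St r s e n (max m (r u t)) u (t / 2) +
      TU St r s e n (max m (r u t)) (u + t / 2) (t / 2)

open Classical in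
/-- stopped part of the maximal sum -/
noncomputable def TS (St : ℝ → ℝ → Prop) (r s : ℝ → ℝ → ℝ) (e : ℝ) : ℕ → ℝ → ℝ → ℝ → ℝ
  | 0, m, u, t => if St u t then (max m (r u t)) ^ e * s u t else 0
  | n + 1, m, u, t => if St u t then Tot r s e (n + 1) m u t else
      TS St r s e n (max m (r u t)) u (t / 2) + TS St r s e n (max m (r u t)) (u + t / 2) (t / 2)

theorem Tot_eq (St : ℝ → ℝ → Prop) (r s : ℝ → ℝ → ℝ) (e : ℝ) (n : ℕ) :
    ∀ m u t : ℝ, Tot r s e n m u t = TU St r s e n m u t + TS St r s e n m u t := by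
  induction n with
  | zero =>
    intro m u t
    by_cases h : St u t
    · simp [Tot, TU, TS, h]
    · simp [Tot, TU, TS, h]
  | succ n ih =>
    intro m u t
    by_cases h : St u t
    · simp only [TU, TS, if_pos h, zero_add]
    · simp only [TU, TS, if_neg h, Tot]
      rw [ih _ u (t / 2), ih _ (u + t / 2) (t / 2)]
      ring

theorem TU_ge (St : ℝ → ℝ → Prop) {r s : ℝ → ℝ → ℝ} {e : ℝ} (he : 0 ≤ e)
    (hs : ∀ u t, 0 < t → 0 ≤ s u t) (n : ℕ) :
    ∀ m u t : ℝ, 0 ≤ m → 0 < t → (max m (r u t)) ^ e * US St s n u t ≤ TU St r s e n m u t := by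
  induction n with
  | zero =>
    intro m u t _ _
    by_cases h : St u t
    · simp [US, TU, h]
    · simp [US, TU, h]
  | succ n ih =>
    intro m u t hm ht
    have ht2 : 0 < t / 2 := by linarith
    by_cases h : St u t
    · simp [US, TU, h]
    · simp only [US, TU, if_neg h]
      set m1 := max m (r u t)
      have hm1 : 0 ≤ m1 := hm.trans (le_max_left _ _)
      have h1 := ih m1 u (t / 2) hm1 ht2
      have h2 := ih m1 (u + t / 2) (t / 2) hm1 ht2
      have h3 : m1 ^ e ≤ (max m1 (r u (t / 2))) ^ e := Real.rpow_le_rpow hm1 (le_max_left _ _) he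
      have h4 : m1 ^ e ≤ (max m1 (r (u + t / 2) (t / 2))) ^ e :=
        Real.rpow_le_rpow hm1 (le_max_left _ _) he
      rw [mul_add]
      exact add_le_add
        ((mul_le_mul_of_nonneg_right h3 (US_nonneg St hs n _ _ ht2)).trans h1)
        ((mul_le_mul_of_nonneg_right h4 (US_nonneg St hs n _ _ ht2)).trans h2)

theorem TS_nonneg (St : ℝ → ℝ → Prop) {r s : ℝ → ℝ → ℝ} {e : ℝ}
    (hs : ∀ u t, 0 < t → 0 ≤ s u t) (n : ℕ) :
    ∀ m u t : ℝ, 0 ≤ m → 0 < t → 0 ≤ TS St r s e n m u t := by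
  induction n with
  | zero =>
    intro m u t hm ht
    by_cases h : St u t
    · simp only [TS, if_pos h]
      exact mul_nonneg (Real.rpow_nonneg (hm.trans (le_max_left _ _)) _) (hs u t ht)
    · simp [TS, h]
  | succ n ih =>
    intro m u t hm ht
    have ht2 : 0 < t / 2 := by linarith
    by_cases h : St u t
    · simp only [TS, if_pos h]
      exact Tot_nonneg hs (n + 1) m u t hm ht
    · simp only [TS, if_neg h]
      exact add_nonneg (ih _ _ _ (hm.trans (le_max_left _ _)) ht2)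
        (ih _ _ _ (hm.trans (le_max_left _ _)) ht2)

theorem TU_nonneg (St : ℝ → ℝ → Prop) {r s : ℝ → ℝ → ℝ} {e : ℝ} (he : 0 ≤ e)
    (hs : ∀ u t, 0 < t → 0 ≤ s u t) (n : ℕ) (m u t : ℝ) (hm : 0 ≤ m) (ht : 0 < t) :
    0 ≤ TU St r s e n m u t := by
  refine le_trans ?_ (TU_ge St he hs n m u t hm ht)
  exact mul_nonneg (Real.rpow_nonneg (hm.trans (le_max_left _ _)) _) (US_nonneg St hs n u t ht)

/-! ### The corona estimate -/

variable (D : Dat θ K)

/-- the stopping condition -/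
def St (a b : ℝ) (u t : ℝ) : Prop := a * t < D.f u t ∨ b * t < D.g u t

theorem f0 {u t : ℝ} (ht : 0 < t) : 0 ≤ D.f u t := (norm_nonneg _).trans (D.nF u t ht)

theorem g0 {u t : ℝ} (ht : 0 < t) : 0 ≤ D.g u t := (norm_nonneg _).trans (D.nG u t ht)

theorem par {F : ℝ → ℝ → ℂ} (hF : ∀ u t, 0 < t → F u t = F u (t / 2) + F (u + t / 2) (t / 2))
    {u t : ℝ} (ht : 0 < t) : ‖F u t‖ ^ 2 + dd F u t ^ 2
      = 2 * (‖F u (t / 2)‖ ^ 2 + ‖F (u + t / 2) (t / 2)‖ ^ 2) := by
  rw [hF u t ht, dd]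
  have := parallelogram_law_with_norm ℝ (F u (t / 2)) (F (u + t / 2) (t / 2))
  linarith

theorem CP_le {a b : ℝ} (n : ℕ) : ∀ u t : ℝ, 0 < t → D.f u t ≤ 2 * a * t →
    Cor (D.St a b) (fun u t => dd D.F u t ^ 2 / t) n u t + ‖D.F u t‖ ^ 2 / t ≤ (2 * a) ^ 2 * t := by
  have base : ∀ u t : ℝ, 0 < t → D.f u t ≤ 2 * a * t → ‖D.F u t‖ ^ 2 / t ≤ (2 * a) ^ 2 * t := by
    intro u t ht h
    rw [div_le_iff₀ ht]
    have h1 := (D.nF u t ht).trans h
    calc ‖D.F u t‖ ^ 2 ≤ (2 * a * t) ^ 2 := by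
          exact pow_le_pow_left₀ (norm_nonneg _) h1 2
      _ = _ := by ring
  induction n with
  | zero =>
    intro u t ht h
    simp only [Cor, zero_add]
    exact base u t ht h
  | succ n ih =>
    intro u t ht h
    have ht2 : 0 < t / 2 := by linarith
    by_cases hS : D.St a b u t
    · simp only [Cor, if_pos hS, zero_add]
      exact base u t ht h
    · simp only [Cor, if_neg hS]
      have hns : D.f u t ≤ a * t := by
        unfold St at hS
        push Not at hS
        exact hS.1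
      have hadd := D.addf u t ht
      have hl := D.f0 (u := u) ht2
      have hr := D.f0 (u := u + t / 2) ht2
      have h1 := ih u (t / 2) ht2 (by linarith)
      have h2 := ih (u + t / 2) (t / 2) ht2 (by linarith)
      have h3 := par D.addF (u := u) ht
      have h4 : dd D.F u t ^ 2 / t + ‖D.F u t‖ ^ 2 / t
          = ‖D.F u (t / 2)‖ ^ 2 / (t / 2) + ‖D.F (u + t / 2) (t / 2)‖ ^ 2 / (t / 2) := by
        have : dd D.F u t ^ 2 = 2 * (‖D.F u (t / 2)‖ ^ 2 + ‖D.F (u + t / 2) (t / 2)‖ ^ 2)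
          - ‖D.F u t‖ ^ 2 := by linarith
        rw [this]
        field_simp
        ring
      have e : (2 * a) ^ 2 * t = (2 * a) ^ 2 * (t / 2) + (2 * a) ^ 2 * (t / 2) := by ring
      linarith

theorem dd_le {F : ℝ → ℝ → ℂ} {f : ℝ → ℝ → ℝ}
    (hf : ∀ u t, 0 < t → f u t = f u (t / 2) + f (u + t / 2) (t / 2))
    (h : ∀ u t, 0 < t → ‖F u t‖ ≤ f u t) {u t : ℝ} (ht : 0 < t) : dd F u t ≤ f u t := by
  have ht2 : 0 < t / 2 := by linarith
  rw [hf u t ht, dd]
  exact (norm_sub_le _ _).trans (add_le_add (h _ _ ht2) (h _ _ ht2))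

theorem CR_le {a b : ℝ} (n : ℕ) : ∀ u t : ℝ, 0 < t → D.g u t ≤ 2 * b * t →
    Cor (D.St a b) (fun u t => (dd D.G u (t / 2) ^ 2 + dd D.G (u + t / 2) (t / 2) ^ 2) / t) n u t +
      (‖D.G u t‖ ^ 2 + dd D.G u t ^ 2) / (2 * t) ≤ (2 * b) ^ 2 * t := by
  have base : ∀ u t : ℝ, 0 < t → D.g u t ≤ 2 * b * t →
      (‖D.G u t‖ ^ 2 + dd D.G u t ^ 2) / (2 * t) ≤ (2 * b) ^ 2 * t := by
    intro u t ht h
    rw [div_le_iff₀ (by positivity)]
    have h1 := (D.nG u t ht).trans h
    have h2 := (dd_le D.addg D.nG (u := u) ht).trans h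
    have h3 : ‖D.G u t‖ ^ 2 ≤ (2 * b * t) ^ 2 := pow_le_pow_left₀ (norm_nonneg _) h1 2
    have h4 : dd D.G u t ^ 2 ≤ (2 * b * t) ^ 2 := pow_le_pow_left₀ (dd_nonneg _ _ _) h2 2
    calc ‖D.G u t‖ ^ 2 + dd D.G u t ^ 2 ≤ (2 * b * t) ^ 2 + (2 * b * t) ^ 2 := add_le_add h3 h4
      _ = _ := by ring
  induction n with
  | zero =>
    intro u t ht h
    simp only [Cor, zero_add]
    exact base u t ht h
  | succ n ih =>
    intro u t ht h
    have ht2 : 0 < t / 2 := by linarith
    by_cases hS : D.St a b u t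
    · simp only [Cor, if_pos hS, zero_add]
      exact base u t ht h
    · simp only [Cor, if_neg hS]
      have hns : D.g u t ≤ b * t := by
        unfold St at hS
        push Not at hS
        exact hS.2
      have hadd := D.addg u t ht
      have hl := D.g0 (u := u) ht2
      have hr := D.g0 (u := u + t / 2) ht2
      have h1 := ih u (t / 2) ht2 (by linarith)
      have h2 := ih (u + t / 2) (t / 2) ht2 (by linarith)
      have h3 := par D.addG (u := u) ht
      have h4 : (‖D.G u t‖ ^ 2 + dd D.G u t ^ 2) / (2 * t)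
          = ‖D.G u (t / 2)‖ ^ 2 / t + ‖D.G (u + t / 2) (t / 2)‖ ^ 2 / t := by
        rw [h3]
        field_simp
      have e1 : (‖D.G u (t / 2)‖ ^ 2 + dd D.G u (t / 2) ^ 2) / (2 * (t / 2))
          = ‖D.G u (t / 2)‖ ^ 2 / t + dd D.G u (t / 2) ^ 2 / t := by field_simp
      have e2 : (‖D.G (u + t / 2) (t / 2)‖ ^ 2 + dd D.G (u + t / 2) (t / 2) ^ 2) / (2 * (t / 2))
          = ‖D.G (u + t / 2) (t / 2)‖ ^ 2 / t + dd D.G (u + t / 2) (t / 2) ^ 2 / t := by field_simp
      have e3 : (dd D.G u (t / 2) ^ 2 + dd D.G (u + t / 2) (t / 2) ^ 2) / t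
          = dd D.G u (t / 2) ^ 2 / t + dd D.G (u + t / 2) (t / 2) ^ 2 / t := by ring
      rw [e1] at h1
      rw [e2] at h2
      rw [h4, e3]
      have e : (2 * b) ^ 2 * t = (2 * b) ^ 2 * (t / 2) + (2 * b) ^ 2 * (t / 2) := by ring
      linarith

theorem Cor_le (St : ℝ → ℝ → Prop) (F G : ℝ → ℝ → ℂ) {l : ℝ} (hl : 0 < l) (n : ℕ) :
    ∀ u t : ℝ, 0 < t → Cor St (qq F G) n u t ≤ l * Cor St (fun u t => dd F u t ^ 2 / t) n u t +
      1 / (2 * l) * Cor St (fun u t => (dd G u (t / 2) ^ 2 + dd G (u + t / 2) (t / 2) ^ 2) / t) n u t := by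
  induction n with
  | zero => intro u t _; simp [Cor]
  | succ n ih =>
    intro u t ht
    have ht2 : 0 < t / 2 := by linarith
    by_cases hS : St u t
    · simp [Cor, hS]
    · simp only [Cor, if_neg hS]
      have h1 := ih u (t / 2) ht2
      have h2 := ih (u + t / 2) (t / 2) ht2
      have h3 : qq F G u t ≤ l * (dd F u t ^ 2 / t) +
          1 / (2 * l) * ((dd G u (t / 2) ^ 2 + dd G (u + t / 2) (t / 2) ^ 2) / t) := by
        unfold qq
        set x := dd F u t
        set y := dd G u (t / 2)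
        set z := dd G (u + t / 2) (t / 2)
        have e : l * (x ^ 2 / t) + 1 / (2 * l) * ((y ^ 2 + z ^ 2) / t) - t⁻¹ * (x * (y + z))
            = ((l * x - y) ^ 2 + (l * x - z) ^ 2) / (2 * l * t) := by
          field_simp
          ring
        have h4 : 0 ≤ ((l * x - y) ^ 2 + (l * x - z) ^ 2) / (2 * l * t) := by positivity
        linarith
      rw [mul_add, mul_add, mul_add, mul_add]
      linarith

/-- the corona estimate -/
theorem corona {a b : ℝ} (ha : 0 < a) (hb : 0 < b) (n : ℕ) {u t : ℝ} (ht : 0 < t)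
    (hf : D.f u t ≤ 2 * a * t) (hg : D.g u t ≤ 2 * b * t) :
    Cor (D.St a b) (qq D.F D.G) n u t ≤ 6 * a * b * t := by
  have h1 := Cor_le (D.St a b) D.F D.G (l := b / a) (by positivity) n u t ht
  have h2 := D.CP_le (a := a) (b := b) n u t ht hf
  have h3 := D.CR_le (a := a) (b := b) n u t ht hg
  have h4 : 0 ≤ ‖D.F u t‖ ^ 2 / t := by positivity
  have h5 : 0 ≤ (‖D.G u t‖ ^ 2 + dd D.G u t ^ 2) / (2 * t) := by positivity
  have h6 : Cor (D.St a b) (fun u t => dd D.F u t ^ 2 / t) n u t ≤ (2 * a) ^ 2 * t := by linarith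
  have h7 : Cor (D.St a b) (fun u t => (dd D.G u (t / 2) ^ 2 + dd D.G (u + t / 2) (t / 2) ^ 2) / t)
    n u t ≤ (2 * b) ^ 2 * t := by linarith
  have h8 : b / a * Cor (D.St a b) (fun u t => dd D.F u t ^ 2 / t) n u t
      ≤ b / a * ((2 * a) ^ 2 * t) := mul_le_mul_of_nonneg_left h6 (by positivity)
  have h9 : 1 / (2 * (b / a)) * Cor (D.St a b)
      (fun u t => (dd D.G u (t / 2) ^ 2 + dd D.G (u + t / 2) (t / 2) ^ 2) / t) n u t
      ≤ 1 / (2 * (b / a)) * ((2 * b) ^ 2 * t) := mul_le_mul_of_nonneg_left h7 (by positivity)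
  have e1 : b / a * ((2 * a) ^ 2 * t) = 4 * a * b * t := by field_simp; norm_num
  have e2 : 1 / (2 * (b / a)) * ((2 * b) ^ 2 * t) = 2 * a * b * t := by field_simp
  rw [e1] at h8
  rw [e2] at h9
  linarith

/-- the total length of the stopped intervals -/
theorem SS_len {a b : ℝ} (ha : 0 < a) (hb : 0 < b) (n : ℕ) : ∀ u t : ℝ, 0 < t →
    SS (D.St a b) (fun _ t => t) n u t ≤ D.f u t / a + D.g u t / b := by
  have base : ∀ u t : ℝ, 0 < t → D.St a b u t → t ≤ D.f u t / a + D.g u t / b := by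
    intro u t ht h
    have h1 : 0 ≤ D.f u t / a := div_nonneg (D.f0 ht) ha.le
    have h2 : 0 ≤ D.g u t / b := div_nonneg (D.g0 ht) hb.le
    rcases h with h | h
    · have : t ≤ D.f u t / a := by rw [le_div_iff₀ ha]; linarith
      linarith
    · have : t ≤ D.g u t / b := by rw [le_div_iff₀ hb]; linarith
      linarith
  induction n with
  | zero =>
    intro u t ht
    by_cases h : D.St a b u t
    · simp only [SS, if_pos h]; exact base u t ht h
    · simp only [SS, if_neg h]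
      have h1 : 0 ≤ D.f u t / a := div_nonneg (D.f0 ht) ha.le
      have h2 : 0 ≤ D.g u t / b := div_nonneg (D.g0 ht) hb.le
      linarith
  | succ n ih =>
    intro u t ht
    have ht2 : 0 < t / 2 := by linarith
    by_cases h : D.St a b u t
    · simp only [SS, if_pos h]; exact base u t ht h
    · simp only [SS, if_neg h]
      have h1 := ih u (t / 2) ht2
      have h2 := ih (u + t / 2) (t / 2) ht2
      rw [D.addf u t ht, D.addg u t ht, add_div, add_div]
      linarith

/-- Hölder's inequality for the unstopped part -/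
theorem US_low (h0 : 0 < θ) (h1 : θ < 1) (S : ℝ → ℝ → Prop) (n : ℕ) : ∀ u t : ℝ, 0 < t →
    US S (fun _ t => t) n u t ≤ H θ (US S D.w n u t) (US S D.s n u t) := by
  induction n with
  | zero =>
    intro u t ht
    by_cases h : S u t
    · simp only [US, if_pos h]
      exact H_nonneg le_rfl le_rfl
    · simp only [US, if_neg h]
      exact D.low u t ht
  | succ n ih =>
    intro u t ht
    have ht2 : 0 < t / 2 := by linarith
    by_cases h : S u t
    · simp only [US, if_pos h]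
      exact H_nonneg le_rfl le_rfl
    · simp only [US, if_neg h]
      refine (add_le_add (ih u (t / 2) ht2) (ih (u + t / 2) (t / 2) ht2)).trans ?_
      exact H_super h0 h1 (US_nonneg S (fun u t ht => (D.wpos u t ht).le) n _ _ ht2)
        (US_nonneg S (fun u t ht => (D.spos u t ht).le) n _ _ ht2)
        (US_nonneg S (fun u t ht => (D.wpos u t ht).le) n _ _ ht2)
        (US_nonneg S (fun u t ht => (D.spos u t ht).le) n _ _ ht2)

/-- the form vanishes if one of the functions does -/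
theorem Atr_zero (n : ℕ) : ∀ u t : ℝ, 0 < t → (D.f u t = 0 ∨ D.g u t = 0) →
    Atr D.F D.G n u t = 0 := by
  induction n with
  | zero => intro u t _ _; rfl
  | succ n ih =>
    intro u t ht h
    have ht2 : 0 < t / 2 := by linarith
    have hf1 := D.f0 (u := u) ht2
    have hf2 := D.f0 (u := u + t / 2) ht2
    have hg1 := D.g0 (u := u) ht2
    have hg2 := D.g0 (u := u + t / 2) ht2
    have haf := D.addf u t ht
    have hag := D.addg u t ht
    simp only [Atr]
    rw [ih u (t / 2) ht2 (by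
      rcases h with h | h
      · left; linarith
      · right; linarith), ih (u + t / 2) (t / 2) ht2 (by
      rcases h with h | h
      · left; linarith
      · right; linarith)]
    rw [add_zero, add_zero, qq]
    rcases h with h | h
    · have h1 : dd D.F u t = 0 := le_antisymm (by
        have := dd_le D.addf D.nF (u := u) ht
        linarith) (dd_nonneg _ _ _)
      rw [h1, zero_mul, mul_zero]
    · have h1 : dd D.G u (t / 2) = 0 := le_antisymm (by
        have := dd_le D.addg D.nG (u := u) ht2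
        linarith) (dd_nonneg _ _ _)
      have h2 : dd D.G (u + t / 2) (t / 2) = 0 := le_antisymm (by
        have := dd_le D.addg D.nG (u := u + t / 2) ht2
        linarith) (dd_nonneg _ _ _)
      rw [h1, h2, add_zero, mul_zero, mul_zero]

/-- the constant -/
noncomputable def C1 (θ K : ℝ) : ℝ := K * (2 * K) ^ (θ / (1 - θ) + (1 - θ) / θ)

/-- the maximal sum for `f` -/
noncomputable def TF (n : ℕ) (m u t : ℝ) : ℝ := Tot (fun u t => D.f u t / D.s u t) D.s (1 / θ) n m u t

/-- the maximal sum for `g` -/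
noncomputable def TG (n : ℕ) (m u t : ℝ) : ℝ :=
  Tot (fun u t => D.g u t / D.w u t) D.w (1 / (1 - θ)) n m u t

/-- the claim of the induction -/
def Claim (n : ℕ) : Prop := ∀ u t m m' : ℝ, 0 < t → 0 ≤ m → 0 ≤ m' →
  Atr D.F D.G n u t ≤ 96 * C1 θ K * H θ (D.TF n m u t) (D.TG n m' u t)

theorem K_ge (D : Dat θ K) : 1 ≤ K := by
  have h1 := (D.low 0 1 one_pos).trans (D.upp 0 1 one_pos)
  linarith

theorem C1_pos (D : Dat θ K) : 0 < C1 θ K := by
  have := D.K_ge
  unfold C1
  positivity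

theorem stp_bound (h0 : 0 < θ) (h1 : θ < 1) (S : ℝ → ℝ → Prop) (n : ℕ)
    (hc : ∀ k ≤ n, D.Claim k) :
    ∀ u t m m' : ℝ, 0 < t → 0 ≤ m → 0 ≤ m' → Stp S D.F D.G n u t ≤ 96 * C1 θ K *
      H θ (TS S (fun u t => D.f u t / D.s u t) D.s (1 / θ) n m u t)
        (TS S (fun u t => D.g u t / D.w u t) D.w (1 / (1 - θ)) n m' u t) := by
  have hC := D.C1_pos
  have hs0 : ∀ u t, 0 < t → 0 ≤ D.s u t := fun u t ht => (D.spos u t ht).le
  have hw0 : ∀ u t, 0 < t → 0 ≤ D.w u t := fun u t ht => (D.wpos u t ht).le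
  induction n with
  | zero =>
    intro u t m m' ht hm hm'
    simp only [Stp]
    exact mul_nonneg (by positivity) (H_nonneg (TS_nonneg S hs0 _ _ _ _ hm ht)
      (TS_nonneg S hw0 _ _ _ _ hm' ht))
  | succ n ih =>
    intro u t m m' ht hm hm'
    have ht2 : 0 < t / 2 := by linarith
    by_cases h : S u t
    · simp only [Stp, TS, if_pos h]
      exact hc (n + 1) le_rfl u t m m' ht hm hm'
    · simp only [Stp, TS, if_neg h]
      have ih' := ih (fun k hk => hc k (by omega))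
      set m1 := max m (D.f u t / D.s u t)
      set m1' := max m' (D.g u t / D.w u t)
      have hm1 : 0 ≤ m1 := hm.trans (le_max_left _ _)
      have hm1' : 0 ≤ m1' := hm'.trans (le_max_left _ _)
      refine (add_le_add (ih' u (t / 2) m1 m1' ht2 hm1 hm1')
        (ih' (u + t / 2) (t / 2) m1 m1' ht2 hm1 hm1')).trans ?_
      rw [← mul_add]
      refine mul_le_mul_of_nonneg_left ?_ (by positivity)
      exact H_super h0 h1 (TS_nonneg S hs0 _ _ _ _ hm1 ht2) (TS_nonneg S hw0 _ _ _ _ hm1' ht2)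
        (TS_nonneg S hs0 _ _ _ _ hm1 ht2) (TS_nonneg S hw0 _ _ _ _ hm1' ht2)

/-- the main term -/
theorem main_term (h0 : 0 < θ) (h1 : θ < 1) (S : ℝ → ℝ → Prop) (n : ℕ) {u t m m' : ℝ} (ht : 0 < t)
    (hm : 0 ≤ m) (hm' : 0 ≤ m') (hlen : t / 2 ≤ US S (fun _ t => t) n u t) :
    D.f u t * D.g u t / t ≤ C1 θ K *
      H θ (TU S (fun u t => D.f u t / D.s u t) D.s (1 / θ) n m u t)
        (TU S (fun u t => D.g u t / D.w u t) D.w (1 / (1 - θ)) n m' u t) := by
  have h1' : 0 < 1 - θ := by linarith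
  have hK := D.K_ge
  have hs0 : ∀ u t, 0 < t → 0 ≤ D.s u t := fun u t ht => (D.spos u t ht).le
  have hw0 : ∀ u t, 0 < t → 0 ≤ D.w u t := fun u t ht => (D.wpos u t ht).le
  set W := D.w u t with hW
  set s := D.s u t with hs
  set wE := US S D.w n u t with hwE
  set sE := US S D.s n u t with hsE
  have hWp : 0 < W := D.wpos u t ht
  have hsp : 0 < s := D.spos u t ht
  have hwE0 : 0 ≤ wE := US_nonneg S hw0 n u t ht
  have hsE0 : 0 ≤ sE := US_nonneg S hs0 n u t ht
  have hwEle : wE ≤ W := by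
    have := US_SS S D.addw n u t ht
    have h2 := SS_nonneg S hw0 n u t ht
    linarith
  have hsEle : sE ≤ s := by
    have := US_SS S D.adds n u t ht
    have h2 := SS_nonneg S hs0 n u t ht
    linarith
  have hH : H θ W s ≤ 2 * K * H θ wE sE := by
    have h2 := D.upp u t ht
    have h3 := D.US_low h0 h1 S n u t ht
    have h4 : K * t ≤ 2 * K * H θ wE sE := by
      have : t ≤ 2 * H θ wE sE := by linarith
      calc K * t ≤ K * (2 * H θ wE sE) := mul_le_mul_of_nonneg_left this (by linarith)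
        _ = _ := by ring
    exact h2.trans h4
  have hWt : 0 < W ^ θ := Real.rpow_pos_of_pos hWp _
  have hst : 0 < s ^ (1 - θ) := Real.rpow_pos_of_pos hsp _
  have hw1 : W ^ θ ≤ 2 * K * wE ^ θ := by
    have h2 : H θ wE sE ≤ wE ^ θ * s ^ (1 - θ) := by
      unfold H
      exact mul_le_mul_of_nonneg_left (Real.rpow_le_rpow hsE0 hsEle h1'.le)
        (Real.rpow_nonneg hwE0 _)
    have h3 : W ^ θ * s ^ (1 - θ) ≤ 2 * K * wE ^ θ * s ^ (1 - θ) := by
      calc W ^ θ * s ^ (1 - θ) ≤ 2 * K * H θ wE sE := hH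
        _ ≤ 2 * K * (wE ^ θ * s ^ (1 - θ)) := mul_le_mul_of_nonneg_left h2 (by linarith)
        _ = _ := by ring
    exact le_of_mul_le_mul_right h3 hst
  have hs1 : s ^ (1 - θ) ≤ 2 * K * sE ^ (1 - θ) := by
    have h2 : H θ wE sE ≤ W ^ θ * sE ^ (1 - θ) := by
      unfold H
      exact mul_le_mul_of_nonneg_right (Real.rpow_le_rpow hwE0 hwEle h0.le)
        (Real.rpow_nonneg hsE0 _)
    have h3 : W ^ θ * s ^ (1 - θ) ≤ W ^ θ * (2 * K * sE ^ (1 - θ)) := by
      calc W ^ θ * s ^ (1 - θ) ≤ 2 * K * H θ wE sE := hH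
        _ ≤ 2 * K * (W ^ θ * sE ^ (1 - θ)) := mul_le_mul_of_nonneg_left h2 (by linarith)
        _ = _ := by ring
    exact le_of_mul_le_mul_left h3 hWt
  -- change of exponents
  have hK2 : 0 < 2 * K := by linarith
  have hw2 : W ^ (1 - θ) ≤ (2 * K) ^ ((1 - θ) / θ) * wE ^ (1 - θ) := by
    have h2 := Real.rpow_le_rpow hWt.le hw1 (div_nonneg h1'.le h0.le : 0 ≤ (1 - θ) / θ)
    rw [← Real.rpow_mul hWp.le, Real.mul_rpow hK2.le (Real.rpow_nonneg hwE0 _),
      ← Real.rpow_mul hwE0, mul_div_cancel₀ _ h0.ne'] at h2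
    exact h2
  have hs2 : s ^ θ ≤ (2 * K) ^ (θ / (1 - θ)) * sE ^ θ := by
    have h2 := Real.rpow_le_rpow hst.le hs1 (div_nonneg h0.le h1'.le : 0 ≤ θ / (1 - θ))
    rw [← Real.rpow_mul hsp.le, Real.mul_rpow hK2.le (Real.rpow_nonneg hsE0 _),
      ← Real.rpow_mul hsE0, mul_div_cancel₀ _ h1'.ne'] at h2
    exact h2
  -- lower bounds for the maximal sums
  set f := D.f u t with hf
  set g := D.g u t with hg
  have hf0 : 0 ≤ f := D.f0 ht
  have hg0 : 0 ≤ g := D.g0 ht
  set A := TU S (fun u t => D.f u t / D.s u t) D.s (1 / θ) n m u t with hA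
  set B := TU S (fun u t => D.g u t / D.w u t) D.w (1 / (1 - θ)) n m' u t with hB
  have hA1 : (f / s) ^ (1 / θ) * sE ≤ A := by
    refine le_trans ?_ (TU_ge S (by positivity) hs0 n m u t hm ht)
    refine mul_le_mul_of_nonneg_right ?_ hsE0
    exact Real.rpow_le_rpow (by positivity) (le_max_right _ _) (by positivity)
  have hB1 : (g / W) ^ (1 / (1 - θ)) * wE ≤ B := by
    refine le_trans ?_ (TU_ge S (by positivity) hw0 n m' u t hm' ht)
    refine mul_le_mul_of_nonneg_right ?_ hwE0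
    exact Real.rpow_le_rpow (by positivity) (le_max_right _ _) (by positivity)
  have hA2 : f / s * sE ^ θ ≤ A ^ θ := by
    have h2 := Real.rpow_le_rpow (by positivity) hA1 h0.le
    rw [Real.mul_rpow (by positivity) hsE0, ← Real.rpow_mul (by positivity),
      one_div_mul_cancel h0.ne', Real.rpow_one] at h2
    exact h2
  have hB2 : g / W * wE ^ (1 - θ) ≤ B ^ (1 - θ) := by
    have h2 := Real.rpow_le_rpow (by positivity) hB1 h1'.le
    rw [Real.mul_rpow (by positivity) hwE0, ← Real.rpow_mul (by positivity),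
      one_div_mul_cancel h1'.ne', Real.rpow_one] at h2
    exact h2
  have hAB : (f / s * sE ^ θ) * (g / W * wE ^ (1 - θ)) ≤ H θ A B := by
    unfold H
    refine mul_le_mul hA2 hB2 (by positivity) ?_
    refine Real.rpow_nonneg ?_ _
    exact TU_nonneg S (by positivity) hs0 n m u t hm ht
  -- conclusion
  have e1 : s = s ^ (1 - θ) * s ^ θ := by
    rw [← Real.rpow_add hsp]; simp
  have e2 : W = W ^ θ * W ^ (1 - θ) := by
    rw [← Real.rpow_add hWp]; simp
  have hup : W ^ θ * s ^ (1 - θ) ≤ K * t := D.upp u t ht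
  have key : f * g / t ≤ K * ((f / s * s ^ θ) * (g / W * W ^ (1 - θ))) := by
    have h2 : (f / s * s ^ θ) * (g / W * W ^ (1 - θ)) = f * g / (W ^ θ * s ^ (1 - θ)) := by
      have hsθ : 0 < s ^ θ := Real.rpow_pos_of_pos hsp _
      have hWθ : 0 < W ^ (1 - θ) := Real.rpow_pos_of_pos hWp _
      calc (f / s * s ^ θ) * (g / W * W ^ (1 - θ))
          = f * g * (s ^ θ / s) * (W ^ (1 - θ) / W) := by ring
        _ = f * g * (1 / s ^ (1 - θ)) * (1 / W ^ θ) := by
            have e3 : s ^ θ / s = 1 / s ^ (1 - θ) := by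
              rw [div_eq_div_iff hsp.ne' hst.ne', one_mul, mul_comm]; exact e1.symm
            have e4 : W ^ (1 - θ) / W = 1 / W ^ θ := by
              rw [div_eq_div_iff hWp.ne' hWt.ne', one_mul, mul_comm]; exact e2.symm
            rw [e3, e4]
        _ = _ := by field_simp
    rw [h2, div_le_iff₀ ht, mul_div_assoc', div_mul_eq_mul_div, le_div_iff₀ (by positivity)]
    have h3 : 0 ≤ f * g := mul_nonneg hf0 hg0
    calc f * g * (W ^ θ * s ^ (1 - θ)) ≤ f * g * (K * t) := mul_le_mul_of_nonneg_left hup h3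
      _ = _ := by ring
  refine key.trans ?_
  unfold C1
  rw [mul_assoc K ((2 * K) ^ (θ / (1 - θ) + (1 - θ) / θ))]
  refine mul_le_mul_of_nonneg_left ?_ (by linarith)
  calc (f / s * s ^ θ) * (g / W * W ^ (1 - θ))
      ≤ (f / s * ((2 * K) ^ (θ / (1 - θ)) * sE ^ θ)) *
          (g / W * ((2 * K) ^ ((1 - θ) / θ) * wE ^ (1 - θ))) := by
        refine mul_le_mul (mul_le_mul_of_nonneg_left hs2 (by positivity))
          (mul_le_mul_of_nonneg_left hw2 (by positivity)) (by positivity) (by positivity)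
    _ = (2 * K) ^ (θ / (1 - θ) + (1 - θ) / θ) * ((f / s * sE ^ θ) * (g / W * wE ^ (1 - θ))) := by
        rw [Real.rpow_add hK2]; ring
    _ ≤ _ := mul_le_mul_of_nonneg_left hAB (by positivity)

theorem claim (h0 : 0 < θ) (h1 : θ < 1) (n : ℕ) : D.Claim n := by
  have h1' : 0 < 1 - θ := by linarith
  have hC := D.C1_pos
  have hs0 : ∀ u t, 0 < t → 0 ≤ D.s u t := fun u t ht => (D.spos u t ht).le
  have hw0 : ∀ u t, 0 < t → 0 ≤ D.w u t := fun u t ht => (D.wpos u t ht).le
  induction n using Nat.strong_induction_on with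
  | _ n ih =>
  intro u t m m' ht hm hm'
  rcases n with _ | n
  · simp only [Atr]
    refine mul_nonneg (by positivity) (H_nonneg ?_ ?_)
    · exact Tot_nonneg hs0 _ _ _ _ hm ht
    · exact Tot_nonneg hw0 _ _ _ _ hm' ht
  have ht2 : 0 < t / 2 := by linarith
  by_cases hz : D.f u t = 0 ∨ D.g u t = 0
  · rw [D.Atr_zero (n + 1) u t ht hz]
    refine mul_nonneg (by positivity) (H_nonneg ?_ ?_)
    · exact Tot_nonneg hs0 _ _ _ _ hm ht
    · exact Tot_nonneg hw0 _ _ _ _ hm' ht
  push Not at hz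
  have hf : 0 < D.f u t := lt_of_le_of_ne (D.f0 ht) (Ne.symm hz.1)
  have hg : 0 < D.g u t := lt_of_le_of_ne (D.g0 ht) (Ne.symm hz.2)
  set a := 4 * D.f u t / t with ha
  set b := 4 * D.g u t / t with hb
  have ha0 : 0 < a := by positivity
  have hb0 : 0 < b := by positivity
  have hat : a * t = 4 * D.f u t := by rw [ha]; field_simp
  have hbt : b * t = 4 * D.g u t := by rw [hb]; field_simp
  set S := D.St a b with hS
  have hns : ¬ S u t := by
    intro h
    rcases h with h | h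
    · rw [hat] at h; linarith
    · rw [hbt] at h; linarith
  have hcor := D.corona ha0 hb0 (n + 1) ht (by
    rw [mul_assoc, hat]; linarith) (by rw [mul_assoc, hbt]; linarith)
  have hcor' : Cor S (qq D.F D.G) (n + 1) u t ≤ 96 * (D.f u t * D.g u t / t) := by
    refine hcor.trans (le_of_eq ?_)
    rw [ha, hb]
    field_simp
    ring
  have hlen : t / 2 ≤ US S (fun _ t => t) (n + 1) u t := by
    have h2 := US_SS S (X := fun _ t => t) (fun u t _ => by ring) (n + 1) u t ht
    have h3 := D.SS_len ha0 hb0 (n + 1) u t ht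
    have h4 : D.f u t / a = t / 4 := by rw [ha]; field_simp
    have h5 : D.g u t / b = t / 4 := by rw [hb]; field_simp
    rw [h4, h5] at h3
    linarith
  have hmain := D.main_term h0 h1 S (n + 1) ht hm hm' hlen
  have hstp : Stp S D.F D.G (n + 1) u t ≤ 96 * C1 θ K *
      H θ (TS S (fun u t => D.f u t / D.s u t) D.s (1 / θ) (n + 1) m u t)
        (TS S (fun u t => D.g u t / D.w u t) D.w (1 / (1 - θ)) (n + 1) m' u t) := by
    simp only [Stp, TS, if_neg hns]
    have ih' := D.stp_bound h0 h1 S n (fun k hk => ih k (by omega))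
    set m1 := max m (D.f u t / D.s u t)
    set m1' := max m' (D.g u t / D.w u t)
    have hm1 : 0 ≤ m1 := hm.trans (le_max_left _ _)
    have hm1' : 0 ≤ m1' := hm'.trans (le_max_left _ _)
    refine (add_le_add (ih' u (t / 2) m1 m1' ht2 hm1 hm1')
      (ih' (u + t / 2) (t / 2) m1 m1' ht2 hm1 hm1')).trans ?_
    rw [← mul_add]
    refine mul_le_mul_of_nonneg_left ?_ (by positivity)
    exact H_super h0 h1 (TS_nonneg S hs0 _ _ _ _ hm1 ht2) (TS_nonneg S hw0 _ _ _ _ hm1' ht2)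
      (TS_nonneg S hs0 _ _ _ _ hm1 ht2) (TS_nonneg S hw0 _ _ _ _ hm1' ht2)
  rw [Atr_eq S]
  unfold TF TG
  rw [Tot_eq S (fun u t => D.f u t / D.s u t), Tot_eq S (fun u t => D.g u t / D.w u t)]
  calc Cor S (qq D.F D.G) (n + 1) u t + Stp S D.F D.G (n + 1) u t
      ≤ 96 * (C1 θ K * H θ (TU S (fun u t => D.f u t / D.s u t) D.s (1 / θ) (n + 1) m u t)
        (TU S (fun u t => D.g u t / D.w u t) D.w (1 / (1 - θ)) (n + 1) m' u t)) +
        96 * C1 θ K * H θ (TS S (fun u t => D.f u t / D.s u t) D.s (1 / θ) (n + 1) m u t)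
        (TS S (fun u t => D.g u t / D.w u t) D.w (1 / (1 - θ)) (n + 1) m' u t) := by
        refine add_le_add (hcor'.trans ?_) hstp
        exact mul_le_mul_of_nonneg_left hmain (by norm_num)
    _ = 96 * C1 θ K * (H θ (TU S (fun u t => D.f u t / D.s u t) D.s (1 / θ) (n + 1) m u t)
        (TU S (fun u t => D.g u t / D.w u t) D.w (1 / (1 - θ)) (n + 1) m' u t) +
        H θ (TS S (fun u t => D.f u t / D.s u t) D.s (1 / θ) (n + 1) m u t)
        (TS S (fun u t => D.g u t / D.w u t) D.w (1 / (1 - θ)) (n + 1) m' u t)) := by ring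
    _ ≤ _ := by
        refine mul_le_mul_of_nonneg_left ?_ (by positivity)
        exact H_super h0 h1 (TU_nonneg S (by positivity) hs0 _ _ _ _ hm ht)
          (TU_nonneg S (by positivity) hw0 _ _ _ _ hm' ht)
          (TS_nonneg S hs0 _ _ _ _ hm ht) (TS_nonneg S hw0 _ _ _ _ hm' ht)

/-- the final constant -/
noncomputable def C2 (θ K : ℝ) : ℝ := 96 * C1 θ K * (1 / (1 - θ)) * (1 / θ)

/-- **The weighted inequality for trees.** -/
theorem bound (h0 : 0 < θ) (h1 : θ < 1) (n : ℕ) {u t : ℝ} (ht : 0 < t) :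
    Atr D.F D.G n u t ≤ C2 θ K * H θ (D.Z u t) (D.Y u t) := by
  have h1' : 0 < 1 - θ := by linarith
  have hC := D.C1_pos
  have hs0 : ∀ u t, 0 < t → 0 ≤ D.s u t := fun u t ht => (D.spos u t ht).le
  have hw0 : ∀ u t, 0 < t → 0 ≤ D.w u t := fun u t ht => (D.wpos u t ht).le
  have he : 1 < 1 / θ := by rw [lt_div_iff₀ h0]; linarith
  have he' : 1 < 1 / (1 - θ) := by rw [lt_div_iff₀ h1']; linarith
  have hF := doob he D.addf D.adds D.addZ (fun u t ht => D.f0 ht) D.spos D.Z0
    (fun u t ht => by rw [one_div_one_div]; exact D.fZ u t ht) n (u := u) ht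
  have hG := doob he' D.addg D.addw D.addY (fun u t ht => D.g0 ht) D.wpos D.Y0
    (fun u t ht => by
      rw [one_div_one_div]
      have := D.gY u t ht
      unfold H at this ⊢
      rw [show 1 - (1 - θ) = θ by ring, mul_comm]
      exact this) n (u := u) ht
  have e1 : 1 / θ / (1 / θ - 1) = 1 / (1 - θ) := by field_simp
  have e2 : 1 / (1 - θ) / (1 / (1 - θ) - 1) = 1 / θ := by
    have : 1 / (1 - θ) - 1 = θ / (1 - θ) := by field_simp; ring
    rw [this]; field_simp
  rw [e1] at hF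
  rw [e2] at hG
  have h2 := D.claim h0 h1 n u t 0 0 ht le_rfl le_rfl
  refine h2.trans ?_
  have hTF0 : 0 ≤ D.TF n 0 u t := Tot_nonneg hs0 _ _ _ _ le_rfl ht
  have hTG0 : 0 ≤ D.TG n 0 u t := Tot_nonneg hw0 _ _ _ _ le_rfl ht
  have h3 : H θ (D.TF n 0 u t) (D.TG n 0 u t)
      ≤ H θ ((1 / (1 - θ)) ^ (1 / θ) * D.Z u t) ((1 / θ) ^ (1 / (1 - θ)) * D.Y u t) :=
    H_mono h0 h1 hTF0 hTG0 hF hG
  have h4 : H θ ((1 / (1 - θ)) ^ (1 / θ) * D.Z u t) ((1 / θ) ^ (1 / (1 - θ)) * D.Y u t)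
      = 1 / (1 - θ) * (1 / θ) * H θ (D.Z u t) (D.Y u t) := by
    unfold H
    rw [Real.mul_rpow (by positivity) (D.Z0 u t ht), Real.mul_rpow (by positivity) (D.Y0 u t ht),
      ← Real.rpow_mul (by positivity), ← Real.rpow_mul (by positivity),
      one_div_mul_cancel h0.ne', one_div_mul_cancel h1'.ne', Real.rpow_one, Real.rpow_one]
    ring
  calc 96 * C1 θ K * H θ (D.TF n 0 u t) (D.TG n 0 u t)
      ≤ 96 * C1 θ K * (1 / (1 - θ) * (1 / θ) * H θ (D.Z u t) (D.Y u t)) := by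
        refine mul_le_mul_of_nonneg_left (h3.trans (le_of_eq h4)) (by positivity)
    _ = _ := by unfold C2; ring

end Dat

end Pool.Agent.N246.HMW
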