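import Pool.Agent.N246.MZ.Nec
import Pool.Agent.N246.HMW.Stop

/-! The data of the tree inequality for a Muckenhoupt weight. -/

set_option autoImplicit false
open MeasureTheory Set Filter Topology
open scoped ENNReal NNReal

namespace Pool.Agent.N246.HMW

open Pool.Agent.N246.MZ

variable {p : ℝ} {W : ℝ → ℝ≥0}

theorem exists_pos_mass (hU : IsWeight W) : ∃ N : ℕ, ∫⁻ x in Ioo (-(N : ℝ)) N, (W x : ℝ≥0∞) ≠ 0 := by
  by_contra hcon
  push Not at hcon
  apply hU.ne_zero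
  have h1 : ∀ᵐ x : ℝ, ∀ n : ℕ, x ∈ Ioo (-(n : ℝ)) n → (W x : ℝ≥0∞) = 0 := by
    rw [ae_all_iff]
    intro n
    have := (lintegral_eq_zero_iff (f := fun x => (W x : ℝ≥0∞))
      (μ := volume.restrict (Ioo (-(n : ℝ)) n)) (by have := hU.meas; fun_prop)).1 (hcon n)
    exact (ae_restrict_iff' measurableSet_Ioo).1 this
  filter_upwards [h1] with x hx
  obtain ⟨n, hn⟩ := exists_nat_gt |x|
  have := hx n (abs_lt.1 hn)
  exact_mod_cast this

theorem sig_fin (hp : 1 < p) (hU : IsWeight W) (hA : Ap p W) (a b : ℝ) :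
    ∫⁻ x in Ioo a b, sig p W x < ∞ := by
  have hp1 : 0 < p - 1 := by linarith
  obtain ⟨K, hK⟩ := hA
  obtain ⟨N, hN⟩ := exists_pos_mass hU
  set L : ℝ := max (max |a| |b|) N + 1 with hL
  have hL1 : |a| ≤ L := by
    have := (le_max_left |a| |b|).trans (le_max_left _ (N : ℝ)); linarith
  have hL2 : |b| ≤ L := by
    have := (le_max_right |a| |b|).trans (le_max_left _ (N : ℝ)); linarith
  have hL3 : (N : ℝ) ≤ L := by
    have := (le_max_right (max |a| |b|) (N : ℝ)); linarith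
  have hL0 : 0 < L := by
    have : (0 : ℝ) ≤ max (max |a| |b|) N := (abs_nonneg a).trans
      ((le_max_left |a| |b|).trans (le_max_left _ (N : ℝ)))
    linarith
  have h1 := hK (-L) L (by linarith)
  have hw : ∫⁻ x in Ioo (-L) L, (W x : ℝ≥0∞) ≠ 0 := by
    intro h
    apply hN
    refine le_antisymm (le_trans (lintegral_mono_set ?_) h.le) zero_le
    exact Ioo_subset_Ioo (by linarith) hL3
  have hl : ENNReal.ofReal (L - -L) ≠ ∞ := ENNReal.ofReal_ne_top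
  have hs : ∫⁻ x in Ioo (-L) L, sig p W x ≠ ∞ := by
    intro h
    have h2 : (ENNReal.ofReal (L - -L))⁻¹ * ∫⁻ x in Ioo (-L) L, (W x : ℝ≥0∞) ^ (-(1 / (p - 1))) = ∞ := by
      have : ∫⁻ x in Ioo (-L) L, (W x : ℝ≥0∞) ^ (-(1 / (p - 1))) = ∞ := h
      rw [this, ENNReal.mul_top (ENNReal.inv_ne_zero.2 hl)]
    rw [h2, ENNReal.top_rpow_of_pos hp1, ENNReal.mul_top (mul_ne_zero (ENNReal.inv_ne_zero.2 hl) hw),
      top_le_iff] at h1
    exact ENNReal.coe_ne_top h1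
  refine lt_of_le_of_lt (lintegral_mono_set ?_) (lt_top_iff_ne_top.2 hs)
  exact Ioo_subset_Ioo (by linarith [neg_abs_le a]) (by linarith [le_abs_self b])

theorem sig_ae (hp : 1 < p) (hU : IsWeight W) (hA : Ap p W) : ∀ᵐ x, sig p W x < ∞ := by
  have h1 : ∀ᵐ x : ℝ, ∀ n : ℕ, x ∈ Ioo (-(n : ℝ)) n → sig p W x < ∞ := by
    rw [ae_all_iff]
    intro n
    have := ae_lt_top (sig_meas hU.meas) (sig_fin hp hU hA (-(n : ℝ)) n).ne
    exact (ae_restrict_iff' measurableSet_Ioo).1 this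
  filter_upwards [h1] with x hx
  obtain ⟨n, hn⟩ := exists_nat_gt |x|
  exact hx n (abs_lt.1 hn)

theorem sig_pos (x : ℝ) (hp : 1 < p) : 0 < sig p W x := by
  have hp1 : 0 < p - 1 := by linarith
  rw [sig, ENNReal.rpow_neg, ENNReal.inv_pos]
  exact ENNReal.rpow_ne_top_of_nonneg (by positivity) ENNReal.coe_ne_top

theorem sig_pow (hp : 1 < p) (x : ℝ) : sig p W x ^ (-(p - 1)) = W x := by
  rw [sig, ← ENNReal.rpow_mul]
  have : -(1 / (p - 1)) * -(p - 1) = 1 := by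
    have : p - 1 ≠ 0 := by linarith
    field_simp
  rw [this, ENNReal.rpow_one]

/-- Hölder's inequality, dual form -/
theorem holder_dual (hp : 1 < p) (hU : Measurable W) {S : Set ℝ}
    (hS : ∀ᵐ x ∂(volume.restrict S), sig p W x < ∞) {h : ℝ → ℝ≥0∞} (hh : Measurable h) :
    (∫⁻ x in S, h x) ^ (p / (p - 1)) ≤ (∫⁻ x in S, h x ^ (p / (p - 1)) * sig p W x) *
      (∫⁻ x in S, (W x : ℝ≥0∞)) ^ (p / (p - 1) - 1) := by
  have hp0 : 0 < p := by linarith
  have hp1 : 0 < p - 1 := by linarith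
  set q := p / (p - 1) with hq
  have hq0 : 0 < q := by positivity
  have hq1 : q - 1 = 1 / (p - 1) := by rw [hq]; field_simp; ring
  have hpq : q.HolderConjugate p := by
    rw [Real.holderConjugate_iff]
    refine ⟨?_, ?_⟩
    · have : 0 < 1 / (p - 1) := by positivity
      linarith
    · rw [hq]; field_simp; ring
  have hsm : Measurable (sig p W) := sig_meas hU
  have h1 : ∫⁻ x in S, h x = ∫⁻ x in S, ((fun x => h x * sig p W x ^ (1 / q)) *
      (fun x => sig p W x ^ (-(1 / q)))) x := by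
    refine lintegral_congr_ae ?_
    filter_upwards [hS] with x hx
    show h x = h x * sig p W x ^ (1 / q) * sig p W x ^ (-(1 / q))
    rw [mul_assoc, ← ENNReal.rpow_add _ _ (sig_pos x hp).ne' hx.ne]
    simp
  have h2 := ENNReal.lintegral_mul_le_Lp_mul_Lq (volume.restrict S) hpq
    (f := fun x => h x * sig p W x ^ (1 / q)) (g := fun x => sig p W x ^ (-(1 / q)))
    (by fun_prop) (by fun_prop)
  rw [← h1] at h2
  have h3 : ∫⁻ x in S, (h x * sig p W x ^ (1 / q)) ^ q = ∫⁻ x in S, h x ^ q * sig p W x := by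
    refine lintegral_congr fun x => ?_
    rw [ENNReal.mul_rpow_of_nonneg _ _ hq0.le, ← ENNReal.rpow_mul, one_div,
      inv_mul_cancel₀ hq0.ne', ENNReal.rpow_one]
  have h4 : ∫⁻ x in S, (sig p W x ^ (-(1 / q))) ^ p = ∫⁻ x in S, (W x : ℝ≥0∞) := by
    refine lintegral_congr fun x => ?_
    rw [← ENNReal.rpow_mul, ← sig_pow hp x]
    congr 1
    rw [hq]; field_simp
  rw [h3, h4] at h2
  calc (∫⁻ x in S, h x) ^ q
      ≤ ((∫⁻ x in S, h x ^ q * sig p W x) ^ (1 / q) *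
          (∫⁻ x in S, (W x : ℝ≥0∞)) ^ (1 / p)) ^ q :=
        ENNReal.rpow_le_rpow h2 hq0.le
    _ = (∫⁻ x in S, h x ^ q * sig p W x) * (∫⁻ x in S, (W x : ℝ≥0∞)) ^ (q - 1) := by
        rw [ENNReal.mul_rpow_of_nonneg _ _ hq0.le, ← ENNReal.rpow_mul, ← ENNReal.rpow_mul]
        congr 2
        · rw [one_div, inv_mul_cancel₀ hq0.ne', ENNReal.rpow_one]
        · rw [hq1, hq]; field_simp

/-- conversion to real numbers -/
theorem toH (hp : 1 < p) {a b c : ℝ≥0∞} (hb : b ≠ ∞) (hc : c ≠ ∞) (h : a ^ p ≤ b * c ^ (p - 1)) :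
    a.toReal ≤ H (1 / p) b.toReal c.toReal := by
  have hp0 : 0 < p := by linarith
  have hp1 : 0 < p - 1 := by linarith
  have hcp : c ^ (p - 1) ≠ ∞ := ENNReal.rpow_ne_top_of_nonneg hp1.le hc
  have h1 := ENNReal.toReal_mono (ENNReal.mul_ne_top hb hcp) h
  rw [ENNReal.toReal_mul, ← ENNReal.toReal_rpow, ← ENNReal.toReal_rpow] at h1
  have h2 := Real.rpow_le_rpow (Real.rpow_nonneg ENNReal.toReal_nonneg _) h1
    (one_div_nonneg.2 hp0.le)
  rw [← Real.rpow_mul ENNReal.toReal_nonneg, mul_one_div_cancel hp0.ne', Real.rpow_one,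
    Real.mul_rpow ENNReal.toReal_nonneg (Real.rpow_nonneg ENNReal.toReal_nonneg _),
    ← Real.rpow_mul ENNReal.toReal_nonneg] at h2
  unfold H
  rw [show 1 - 1 / p = (p - 1) * (1 / p) by field_simp]
  exact h2

/-- conversion to real numbers -/
theorem upH (hp : 1 < p) {a b c k : ℝ≥0∞} (ha : a ≠ ∞) (hk : k ≠ ∞)
    (h : b * c ^ (p - 1) ≤ k * a ^ p) :
    H (1 / p) b.toReal c.toReal ≤ k.toReal ^ (1 / p) * a.toReal := by
  have hp0 : 0 < p := by linarith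
  have hp1 : 0 < p - 1 := by linarith
  have h1 := ENNReal.toReal_mono (ENNReal.mul_ne_top hk (ENNReal.rpow_ne_top_of_nonneg hp0.le ha)) h
  rw [ENNReal.toReal_mul, ENNReal.toReal_mul, ← ENNReal.toReal_rpow, ← ENNReal.toReal_rpow] at h1
  have h2 := Real.rpow_le_rpow (mul_nonneg ENNReal.toReal_nonneg
    (Real.rpow_nonneg ENNReal.toReal_nonneg _)) h1 (one_div_nonneg.2 hp0.le)
  rw [Real.mul_rpow ENNReal.toReal_nonneg (Real.rpow_nonneg ENNReal.toReal_nonneg _),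
    Real.mul_rpow ENNReal.toReal_nonneg (Real.rpow_nonneg ENNReal.toReal_nonneg _),
    ← Real.rpow_mul ENNReal.toReal_nonneg, ← Real.rpow_mul ENNReal.toReal_nonneg,
    mul_one_div_cancel hp0.ne', Real.rpow_one] at h2
  unfold H
  rw [show 1 - 1 / p = (p - 1) * (1 / p) by field_simp]
  exact h2

/-- integrals over half-open intervals -/
noncomputable def IL (h : ℝ → ℝ≥0∞) (u t : ℝ) : ℝ := (∫⁻ x in Ioc u (u + t), h x).toReal

theorem Ioc_split {u t : ℝ} (ht : 0 < t) :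
    Ioc u (u + t) = Ioc u (u + t / 2) ∪ Ioc (u + t / 2) (u + t / 2 + t / 2) := by
  rw [Ioc_union_Ioc_eq_Ioc (by linarith) (by linarith)]
  congr 1; ring

theorem IL_add {h : ℝ → ℝ≥0∞} (hfin : ∀ a b, ∫⁻ x in Ioc a b, h x ≠ ∞) (u t : ℝ) (ht : 0 < t) :
    IL h u t = IL h u (t / 2) + IL h (u + t / 2) (t / 2) := by
  unfold IL
  rw [Ioc_split ht, lintegral_union measurableSet_Ioc (Ioc_disjoint_Ioc_of_le le_rfl),
    ENNReal.toReal_add (hfin _ _) (hfin _ _)]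

theorem Ioc_Ioo (h : ℝ → ℝ≥0∞) (a b : ℝ) : ∫⁻ x in Ioc a b, h x = ∫⁻ x in Ioo a b, h x :=
  setLIntegral_congr Ioo_ae_eq_Ioc.symm

theorem IL_pos {h : ℝ → ℝ≥0∞} (hm : Measurable h) (hpos : ∀ᵐ x, h x ≠ 0)
    (hfin : ∀ a b, ∫⁻ x in Ioc a b, h x ≠ ∞) (u t : ℝ) (ht : 0 < t) : 0 < IL h u t := by
  refine ENNReal.toReal_pos (fun h0 => ?_) (hfin _ _)
  rw [lintegral_eq_zero_iff hm] at h0
  have h1 := (ae_restrict_iff' measurableSet_Ioc).1 h0
  have h2 : ∀ᵐ x : ℝ, x ∉ Ioc u (u + t) := by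
    filter_upwards [h1, hpos] with x hx1 hx2 hx
    exact hx2 (hx1 hx)
  have h3 : volume (Ioc u (u + t)) = 0 := by
    have h4 := measure_mono_null (t := {x : ℝ | ¬ x ∉ Ioc u (u + t)})
      (s := Ioc u (u + t)) (fun x hx => not_not.2 hx) (ae_iff.1 h2)
    exact h4
  rw [Real.volume_Ioc, ENNReal.ofReal_eq_zero] at h3
  linarith

/-- the data for `f`, `g` and the weight `W` -/
noncomputable def mkDat (hp : 1 < p) (hU : IsWeight W) {K : ℝ≥0}
    (hK : ∀ a b : ℝ, a < b →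
      ((ENNReal.ofReal (b - a))⁻¹ * ∫⁻ x in Ioo a b, (W x : ℝ≥0∞)) *
      ((ENNReal.ofReal (b - a))⁻¹ * ∫⁻ x in Ioo a b, (W x : ℝ≥0∞) ^ (-(1 / (p - 1)))) ^ (p - 1)
        ≤ K)
    {f g : ℝ → ℂ} (hf : Integrable f) (hfm : Measurable f) (hg : Integrable g) (hgm : Measurable g)
    (hZ : ∫⁻ x, ‖f x‖ₑ ^ p * W x ≠ ∞) (hY : ∫⁻ x, ‖g x‖ₑ ^ (p / (p - 1)) * sig p W x ≠ ∞) :
    Dat (1 / p) ((K : ℝ) ^ (1 / p)) where
  F u t := ∫ x in Ioc u (u + t), f x
  G u t := ∫ x in Ioc u (u + t), g x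
  f := IL (fun x => ‖f x‖ₑ)
  g := IL (fun x => ‖g x‖ₑ)
  w := IL (fun x => (W x : ℝ≥0∞))
  s := IL (sig p W)
  Z := IL (fun x => ‖f x‖ₑ ^ p * W x)
  Y := IL (fun x => ‖g x‖ₑ ^ (p / (p - 1)) * sig p W x)
  addF u t ht := by
    rw [Ioc_split ht, setIntegral_union (Ioc_disjoint_Ioc_of_le le_rfl) measurableSet_Ioc
      hf.integrableOn hf.integrableOn]
  addG u t ht := by
    rw [Ioc_split ht, setIntegral_union (Ioc_disjoint_Ioc_of_le le_rfl) measurableSet_Ioc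
      hg.integrableOn hg.integrableOn]
  addf := IL_add fun a b => (hf.integrableOn (s := Ioc a b)).2.ne
  addg := IL_add fun a b => (hg.integrableOn (s := Ioc a b)).2.ne
  addw := IL_add fun a b => by rw [Ioc_Ioo]; exact (loc_Ioo hU a b).ne
  adds := IL_add fun a b => by rw [Ioc_Ioo]; exact (sig_fin hp hU ⟨K, hK⟩ a b).ne
  addZ := IL_add fun a b => ne_top_of_le_ne_top hZ (setLIntegral_le_lintegral _ _)
  addY := IL_add fun a b => ne_top_of_le_ne_top hY (setLIntegral_le_lintegral _ _)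
  nF u t _ := by
    have h1 := enorm_integral_le_lintegral_enorm (μ := volume.restrict (Ioc u (u + t))) f
    have h2 := ENNReal.toReal_mono (hf.integrableOn (s := Ioc u (u + t))).2.ne h1
    rwa [toReal_enorm] at h2
  nG u t _ := by
    have h1 := enorm_integral_le_lintegral_enorm (μ := volume.restrict (Ioc u (u + t))) g
    have h2 := ENNReal.toReal_mono (hg.integrableOn (s := Ioc u (u + t))).2.ne h1
    rwa [toReal_enorm] at h2
  wpos := IL_pos (by have := hU.meas; fun_prop) (by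
      filter_upwards [sig_ae hp hU ⟨K, hK⟩] with x hx h0
      rw [sig, h0, ENNReal.zero_rpow_of_neg (by
        rw [neg_lt_zero]
        have : 0 < p - 1 := by linarith
        positivity)] at hx
      exact lt_irrefl _ hx) (fun a b => by rw [Ioc_Ioo]; exact (loc_Ioo hU a b).ne)
  spos := IL_pos (sig_meas hU.meas) (Eventually.of_forall fun x => (sig_pos x hp).ne')
    (fun a b => by rw [Ioc_Ioo]; exact (sig_fin hp hU ⟨K, hK⟩ a b).ne)
  Z0 _ _ _ := ENNReal.toReal_nonneg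
  Y0 _ _ _ := ENNReal.toReal_nonneg
  low u t ht := by
    have hs := sig_fin hp hU ⟨K, hK⟩ u (u + t)
    have h1 := holder_set (S := Ioc u (u + t)) hp hU.meas (by rw [Ioc_Ioo]; exact hs)
      (h := fun _ => 1) measurable_const
    rw [lintegral_const, one_mul, Measure.restrict_apply_univ, Real.volume_Ioc,
      show u + t - u = t by ring] at h1
    simp only [ENNReal.one_rpow, one_mul] at h1
    have h2 := toH hp (by rw [Ioc_Ioo]; exact (loc_Ioo hU _ _).ne) (by rw [Ioc_Ioo]; exact hs.ne) h1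
    rwa [ENNReal.toReal_ofReal ht.le] at h2
  upp u t ht := by
    have hp0 : 0 < p := by linarith
    have hp1 : 0 < p - 1 := by linarith
    have h1 := hK u (u + t) (by linarith)
    rw [show u + t - u = t by ring] at h1
    have hl0 : ENNReal.ofReal t ≠ 0 := (ENNReal.ofReal_pos.2 ht).ne'
    have hlt : ENNReal.ofReal t ≠ ∞ := ENNReal.ofReal_ne_top
    set ℓ := ENNReal.ofReal t with hℓ
    have hℓp : ℓ ^ p ≠ ∞ := ENNReal.rpow_ne_top_of_nonneg hp0.le hlt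
    have hℓp0 : ℓ ^ p ≠ 0 := by simp [ENNReal.rpow_eq_zero_iff, hl0, hlt]
    rw [← Ioc_Ioo, ← Ioc_Ioo] at h1
    set w := ∫⁻ x in Ioc u (u + t), (W x : ℝ≥0∞)
    set s := ∫⁻ x in Ioc u (u + t), (W x : ℝ≥0∞) ^ (-(1 / (p - 1)))
    have e : (ℓ⁻¹ * w) * (ℓ⁻¹ * s) ^ (p - 1) = (w * s ^ (p - 1)) * (ℓ ^ p)⁻¹ := by
      rw [ENNReal.mul_rpow_of_nonneg _ _ hp1.le]
      have : ℓ⁻¹ * ℓ⁻¹ ^ (p - 1) = (ℓ ^ p)⁻¹ := by
        calc ℓ⁻¹ * ℓ⁻¹ ^ (p - 1) = ℓ⁻¹ ^ (1 : ℝ) * ℓ⁻¹ ^ (p - 1) := by rw [ENNReal.rpow_one]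
          _ = ℓ⁻¹ ^ (1 + (p - 1)) := (ENNReal.rpow_add _ _ (ENNReal.inv_ne_zero.2 hlt)
              (ENNReal.inv_ne_top.2 hl0)).symm
          _ = ℓ⁻¹ ^ p := by congr 1; ring
          _ = _ := ENNReal.inv_rpow _ _
      rw [← this]; ring
    rw [e] at h1
    have h2 : w * s ^ (p - 1) ≤ K * ℓ ^ p := by
      calc w * s ^ (p - 1) = (w * s ^ (p - 1)) * ((ℓ ^ p)⁻¹ * ℓ ^ p) := by
            rw [ENNReal.inv_mul_cancel hℓp0 hℓp, mul_one]
        _ = (w * s ^ (p - 1)) * (ℓ ^ p)⁻¹ * ℓ ^ p := by ring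
        _ ≤ K * ℓ ^ p := by gcongr
    have h3 := upH hp hlt ENNReal.coe_ne_top h2
    rw [ENNReal.coe_toReal, hℓ, ENNReal.toReal_ofReal ht.le] at h3
    exact h3
  fZ u t _ := by
    have hs := sig_fin hp hU ⟨K, hK⟩ u (u + t)
    have h1 := holder_set (S := Ioc u (u + t)) hp hU.meas (by rw [Ioc_Ioo]; exact hs)
      (h := fun x => ‖f x‖ₑ) hfm.enorm
    exact toH hp (ne_top_of_le_ne_top hZ (setLIntegral_le_lintegral _ _))
      (by rw [Ioc_Ioo]; exact hs.ne) h1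
  gY u t _ := by
    have hp0 : 0 < p := by linarith
    have hp1 : 0 < p - 1 := by linarith
    have h1 := holder_dual (S := Ioc u (u + t)) hp hU.meas
      (ae_restrict_of_ae (sig_ae hp hU ⟨K, hK⟩)) (h := fun x => ‖g x‖ₑ) hgm.enorm
    have hq : 1 < p / (p - 1) := by rw [lt_div_iff₀ hp1]; linarith
    have h2 := toH hq (ne_top_of_le_ne_top hY (setLIntegral_le_lintegral _ _))
      (by rw [Ioc_Ioo]; exact (loc_Ioo hU _ _).ne) h1
    unfold H at h2 ⊢
    have e1 : 1 / (p / (p - 1)) = 1 - 1 / p := by field_simp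
    rw [e1, show 1 - (1 - 1 / p) = 1 / p by ring, mul_comm] at h2
    exact h2

end Pool.Agent.N246.HMW
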