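import Pool.Agent.N246.HMW.Avg

/-! The kernel of the averaged Haar shifts. -/

set_option autoImplicit false
open MeasureTheory Set Filter Topology
open scoped ENNReal NNReal

namespace Pool.Agent.N246.HMW

open Pool.Agent.N246.MZ

/-- the tent function -/
noncomputable def ten (x : ℝ) : ℝ := max 0 (min x (1 - x))

/-- the Haar function -/
noncomputable def hh (v : ℝ) : ℝ :=
  indicator (Ioc (0:ℝ) (1/2)) (fun _ => (1:ℝ)) v - indicator (Ioc (1/2:ℝ) 1) (fun _ => (1:ℝ)) v

/-- the difference of the Haar functions of the two halves -/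
noncomputable def kk (v : ℝ) : ℝ :=
  (indicator (Ioc (0:ℝ) (1/4)) (fun _ => (1:ℝ)) v - indicator (Ioc (1/4:ℝ) (1/2)) (fun _ => (1:ℝ)) v)
  - (indicator (Ioc (1/2:ℝ) (3/4)) (fun _ => (1:ℝ)) v - indicator (Ioc (3/4:ℝ) 1) (fun _ => (1:ℝ)) v)

theorem hh_meas : Measurable hh :=
  (measurable_const.indicator measurableSet_Ioc).sub (measurable_const.indicator measurableSet_Ioc)

theorem kk_meas : Measurable kk :=
  ((measurable_const.indicator measurableSet_Ioc).sub
    (measurable_const.indicator measurableSet_Ioc)).sub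
    ((measurable_const.indicator measurableSet_Ioc).sub
    (measurable_const.indicator measurableSet_Ioc))

theorem hh_abs (v : ℝ) : |hh v| ≤ indicator (Ioc (0:ℝ) 1) (fun _ => (1:ℝ)) v := by
  unfold hh
  simp only [indicator_apply, mem_Ioc]
  split_ifs <;> norm_num
  all_goals simp_all
  all_goals linarith

theorem kk_abs (v : ℝ) : |kk v| ≤ indicator (Ioc (0:ℝ) 1) (fun _ => (1:ℝ)) v := by
  unfold kk
  by_cases h0 : v ≤ 0
  · rw [indicator_of_notMem (by intro h; linarith [h.1]), indicator_of_notMem (by intro h; linarith [h.1]),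
      indicator_of_notMem (by intro h; linarith [h.1]), indicator_of_notMem (by intro h; linarith [h.1]),
      indicator_of_notMem (by intro h; linarith [h.1])]
    norm_num
  push Not at h0
  by_cases h1 : v ≤ 1/4
  · rw [indicator_of_mem (by exact ⟨h0, h1⟩), indicator_of_notMem (by intro h; linarith [h.1]),
      indicator_of_notMem (by intro h; linarith [h.1]), indicator_of_notMem (by intro h; linarith [h.1]),
      indicator_of_mem (by exact ⟨h0, by linarith⟩)]
    norm_num
  push Not at h1
  by_cases h2 : v ≤ 1/2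
  · rw [indicator_of_notMem (by intro h; linarith [h.2]), indicator_of_mem (by exact ⟨h1, h2⟩),
      indicator_of_notMem (by intro h; linarith [h.1]), indicator_of_notMem (by intro h; linarith [h.1]),
      indicator_of_mem (by exact ⟨h0, by linarith⟩)]
    norm_num
  push Not at h2
  by_cases h3 : v ≤ 3/4
  · rw [indicator_of_notMem (by intro h; linarith [h.2]), indicator_of_notMem (by intro h; linarith [h.2]),
      indicator_of_mem (by exact ⟨h2, h3⟩), indicator_of_notMem (by intro h; linarith [h.1]),
      indicator_of_mem (by exact ⟨h0, by linarith⟩)]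
    norm_num
  push Not at h3
  by_cases h4 : v ≤ 1
  · rw [indicator_of_notMem (by intro h; linarith [h.2]), indicator_of_notMem (by intro h; linarith [h.2]),
      indicator_of_notMem (by intro h; linarith [h.2]), indicator_of_mem (by exact ⟨h3, h4⟩),
      indicator_of_mem (by exact ⟨h0, by linarith⟩)]
    norm_num
  push Not at h4
  rw [indicator_of_notMem (by intro h; linarith [h.2]), indicator_of_notMem (by intro h; linarith [h.2]),
    indicator_of_notMem (by intro h; linarith [h.2]), indicator_of_notMem (by intro h; linarith [h.2]),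
    indicator_of_notMem (by intro h; linarith [h.2])]
  norm_num

theorem one_int (a b : ℝ) : Integrable (indicator (Ioc a b) (fun _ => (1:ℝ))) := by
  rw [integrable_indicator_iff measurableSet_Ioc]
  exact integrableOn_const (by rw [Real.volume_Ioc]; exact ENNReal.ofReal_ne_top)

theorem kk_int : Integrable kk :=
  (one_int 0 1).mono' kk_meas.aestronglyMeasurable (Eventually.of_forall fun v => kk_abs v)

theorem ten_lip (x y : ℝ) : |ten x - ten y| ≤ |x - y| := by
  unfold ten
  refine (abs_max_sub_max_le_max _ _ _ _).trans ?_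
  rw [sub_self, abs_zero]
  refine max_le (abs_nonneg _) ((abs_min_sub_min_le_max _ _ _ _).trans (max_le le_rfl ?_))
  rw [show 1 - x - (1 - y) = -(x - y) by ring, abs_neg]

theorem ten_cont : Continuous ten := by unfold ten; fun_prop

theorem ten_zero_left {x : ℝ} (h : x ≤ 0) : ten x = 0 := by
  unfold ten
  exact max_eq_left ((min_le_left _ _).trans h)

theorem ten_zero_right {x : ℝ} (h : 1 ≤ x) : ten x = 0 := by
  unfold ten
  exact max_eq_left ((min_le_right _ _).trans (by linarith))

theorem ten_left {x : ℝ} (h0 : 0 ≤ x) (h : x ≤ 1/2) : ten x = x := by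
  unfold ten
  rw [min_eq_left (by linarith), max_eq_right h0]

theorem ten_right {x : ℝ} (h0 : 1/2 ≤ x) (h : x ≤ 1) : ten x = 1 - x := by
  unfold ten
  rw [min_eq_right (by linarith), max_eq_right (by linarith)]

theorem ten_deriv {x : ℝ} (h0 : x ≠ 0) (h1 : x ≠ 1/2) (h2 : x ≠ 1) : HasDerivAt ten (hh x) x := by
  unfold hh
  rcases lt_or_gt_of_ne h0 with h | h
  · rw [indicator_of_notMem (by intro h'; linarith [h'.1]),
      indicator_of_notMem (by intro h'; linarith [h'.1]), sub_zero]
    refine (hasDerivAt_const x (0:ℝ)).congr_of_eventuallyEq ?_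
    filter_upwards [gt_mem_nhds h] with y hy
    exact ten_zero_left hy.le
  rcases lt_or_gt_of_ne h1 with h' | h'
  · rw [indicator_of_mem (by exact ⟨h, h'.le⟩),
      indicator_of_notMem (by intro h''; linarith [h''.1]), sub_zero]
    refine (hasDerivAt_id x).congr_of_eventuallyEq ?_
    filter_upwards [gt_mem_nhds h', lt_mem_nhds h] with y hy hy2
    exact ten_left hy2.le hy.le
  rcases lt_or_gt_of_ne h2 with h'' | h''
  · rw [indicator_of_notMem (by intro h3; linarith [h3.2]),
      indicator_of_mem (by exact ⟨h', h''.le⟩), zero_sub]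
    refine ((hasDerivAt_id x).const_sub 1).congr_of_eventuallyEq ?_
    filter_upwards [gt_mem_nhds h'', lt_mem_nhds h'] with y hy hy2
    exact ten_right hy2.le hy.le
  · rw [indicator_of_notMem (by intro h3; linarith [h3.2]),
      indicator_of_notMem (by intro h3; linarith [h3.2]), sub_zero]
    refine (hasDerivAt_const x (0:ℝ)).congr_of_eventuallyEq ?_
    filter_upwards [lt_mem_nhds h''] with y hy
    exact ten_zero_right hy.le

/-- the primitive of the correlation of the Haar functions -/
noncomputable def J (z : ℝ) : ℝ := ∫ v, kk v * (ten (v + z) - ten v)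

/-- the correlation of the Haar functions -/
noncomputable def Psi (z : ℝ) : ℝ := ∫ v, kk v * hh (v + z)

theorem J_int (z : ℝ) : Integrable (fun v => kk v * (ten (v + z) - ten v)) := by
  refine (kk_int.norm.mul_const |z|).mono' ?_ (Eventually.of_forall fun v => ?_)
  · refine (kk_meas.mul ?_).aestronglyMeasurable
    exact ((ten_cont.comp (by fun_prop : Continuous fun v : ℝ => v + z)).sub ten_cont).measurable
  · rw [norm_mul]
    refine mul_le_mul_of_nonneg_left ?_ (norm_nonneg _)
    have := ten_lip (v + z) v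
    rwa [show v + z - v = z by ring] at this

theorem J_deriv (z : ℝ) : HasDerivAt J (Psi z) z := by
  refine (hasDerivAt_integral_of_dominated_loc_of_lip (F := fun z v => kk v * (ten (v + z) - ten v))
    (F' := fun v => kk v * hh (v + z)) (bound := fun v => |kk v|) (s := univ) univ_mem ?_ (J_int z)
    ?_ ?_ kk_int.abs ?_).2
  · exact Eventually.of_forall fun z => (J_int z).aestronglyMeasurable
  · exact (kk_meas.mul (hh_meas.comp (by fun_prop : Measurable fun v : ℝ => v + z))).aestronglyMeasurable
  · refine Eventually.of_forall fun v => ?_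
    refine LipschitzOnWith.of_dist_le_mul fun x _ y _ => ?_
    rw [Real.dist_eq, Real.dist_eq, ← mul_sub, abs_mul]
    show |kk v| * |ten (v + x) - ten v - (ten (v + y) - ten v)| ≤ |(|kk v|)| * |x - y|
    rw [abs_abs]
    refine mul_le_mul_of_nonneg_left ?_ (abs_nonneg _)
    have := ten_lip (v + x) (v + y)
    rw [show v + x - (v + y) = x - y by ring] at this
    rwa [show ten (v + x) - ten v - (ten (v + y) - ten v) = ten (v + x) - ten (v + y) by ring]
  · have h : ∀ c : ℝ, ∀ᵐ v : ℝ, v + z ≠ c := by
      intro c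
      have : ∀ᵐ v : ℝ, v ≠ c - z := by rw [ae_iff]; simp
      filter_upwards [this] with v hv h
      exact hv (by linarith)
    filter_upwards [h 0, h (1/2), h 1] with v h0 h1 h2
    have h3 := ten_deriv h0 h1 h2
    have h4 : HasDerivAt (fun z => ten (v + z)) (hh (v + z)) z := by
      have := h3.comp z ((hasDerivAt_id z).const_add v)
      rw [mul_one] at this
      exact this
    exact (h4.sub_const (ten v)).const_mul (kk v)

theorem J_zero : J 0 = 0 := by
  unfold J
  simp

theorem int_kk_abs : ∫ v, |kk v| ≤ 1 := by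
  refine (integral_mono kk_int.abs (one_int 0 1) kk_abs).trans (le_of_eq ?_)
  rw [integral_indicator measurableSet_Ioc, setIntegral_const, measureReal_def, Real.volume_Ioc]
  norm_num

theorem J_le (z : ℝ) : |J z| ≤ |z| := by
  have h1 : ‖J z‖ ≤ ∫ v, |kk v| * |z| := by
    refine norm_integral_le_of_norm_le (kk_int.abs.mul_const _) (Eventually.of_forall fun v => ?_)
    rw [norm_mul]
    refine mul_le_mul_of_nonneg_left ?_ (norm_nonneg _)
    have := ten_lip (v + z) v
    rwa [show v + z - v = z by ring] at this
  rw [integral_mul_const] at h1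
  calc |J z| ≤ (∫ v, |kk v|) * |z| := h1
    _ ≤ 1 * |z| := mul_le_mul_of_nonneg_right int_kk_abs (abs_nonneg _)
    _ = _ := one_mul _

/-- the constant -/
noncomputable def cc : ℝ := -∫ v, kk v * ten v

theorem J_out {z : ℝ} (hz : 1 ≤ |z|) : J z = cc := by
  unfold J cc
  rw [← integral_neg]
  refine integral_congr_ae (Eventually.of_forall fun v => ?_)
  simp only
  by_cases hv : v ∈ Ioc (0:ℝ) 1
  · have : ten (v + z) = 0 := by
      rcases le_abs.1 hz with h | h
      · exact ten_zero_right (by linarith [hv.1])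
      · exact ten_zero_left (by linarith [hv.2])
    rw [this]; ring
  · have h1 := kk_abs v
    rw [indicator_of_notMem hv] at h1
    have : kk v = 0 := abs_eq_zero.1 (le_antisymm h1 (abs_nonneg _))
    rw [this]; ring

theorem ten_symm (x : ℝ) : ten (1 - x) = ten x := by
  unfold ten
  rw [show 1 - (1 - x) = x by ring, min_comm]

theorem kk_symm : ∀ᵐ v : ℝ, kk (1 - v) = kk v := by
  have h : ∀ c : ℝ, ∀ᵐ v : ℝ, v ≠ c := by
    intro c; rw [ae_iff]; simp
  filter_upwards [h 0, h (1/4), h (1/2), h (3/4), h 1] with v h0 h1 h2 h3 h4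
  unfold kk
  have e : ∀ a b : ℝ, v ≠ a → v ≠ b → indicator (Ioc (1 - b) (1 - a)) (fun _ => (1:ℝ)) (1 - v)
      = indicator (Ioc a b) (fun _ => (1:ℝ)) v := by
    intro a b ha hb
    by_cases hv : v ∈ Ioc a b
    · rw [indicator_of_mem hv, indicator_of_mem]
      exact ⟨by linarith [lt_of_le_of_ne hv.2 hb], by linarith [hv.1]⟩
    · rw [indicator_of_notMem hv, indicator_of_notMem]
      intro h5
      exact hv ⟨lt_of_le_of_ne (by linarith [h5.2]) (Ne.symm ha), by linarith [h5.1]⟩
  have e1 := e (3/4) 1 h3 h4
  have e2 := e (1/2) (3/4) h2 h3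
  have e3 := e (1/4) (1/2) h1 h2
  have e4 := e 0 (1/4) h0 h1
  norm_num at e1 e2 e3 e4
  norm_num
  rw [e1, e2, e3, e4]
  ring

theorem J_even (z : ℝ) : J (-z) = J z := by
  unfold J
  have h1 : ∫ v, kk v * (ten (v + -z) - ten v) = ∫ v, kk (1 - v) * (ten (1 - v + -z) - ten (1 - v)) :=
    (integral_sub_left_eq_self (fun v => kk v * (ten (v + -z) - ten v)) volume 1).symm
  rw [h1]
  refine integral_congr_ae ?_
  filter_upwards [kk_symm] with v hv
  rw [hv, ten_symm, show 1 - v + -z = 1 - (v + z) by ring, ten_symm]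

theorem int_piece {a b : ℝ} (hab : a ≤ b) (φ : ℝ → ℝ) :
    ∫ v, indicator (Ioc a b) (fun _ => (1:ℝ)) v * φ v = ∫ v in a..b, φ v := by
  rw [intervalIntegral.integral_of_le hab, ← integral_indicator measurableSet_Ioc]
  refine integral_congr_ae (Eventually.of_forall fun v => ?_)
  by_cases hv : v ∈ Ioc a b
  · simp only [indicator_of_mem hv, one_mul]
  · simp only [indicator_of_notMem hv, zero_mul]

theorem piece_int (a b : ℝ) : Integrable (fun v => indicator (Ioc a b) (fun _ => (1:ℝ)) v * ten v) := by
  have h1 : IntegrableOn ten (Ioc a b) :=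
    (ten_cont.integrableOn_Icc (a := a) (b := b)).mono_set Ioc_subset_Icc_self
  refine ((integrable_indicator_iff measurableSet_Ioc).2 h1).congr (Eventually.of_forall fun v => ?_)
  by_cases hv : v ∈ Ioc a b
  · simp only [indicator_of_mem hv, one_mul]
  · simp only [indicator_of_notMem hv, zero_mul]

theorem cc_val : cc = 1 / 8 := by
  have e : ∀ v, kk v * ten v =
      (indicator (Ioc (0:ℝ) (1/4)) (fun _ => (1:ℝ)) v * ten v
        - indicator (Ioc (1/4:ℝ) (1/2)) (fun _ => (1:ℝ)) v * ten v)
      - (indicator (Ioc (1/2:ℝ) (3/4)) (fun _ => (1:ℝ)) v * ten v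
        - indicator (Ioc (3/4:ℝ) 1) (fun _ => (1:ℝ)) v * ten v) := by
    intro v; unfold kk; ring
  have i1 : ∫ v in (0:ℝ)..(1/4), ten v = 1 / 32 := by
    rw [intervalIntegral.integral_congr (g := fun v => v) (fun v hv => by
      rw [uIcc_of_le (by norm_num)] at hv
      exact ten_left hv.1 (by linarith [hv.2])), integral_id]
    norm_num
  have i2 : ∫ v in (1/4:ℝ)..(1/2), ten v = 3 / 32 := by
    rw [intervalIntegral.integral_congr (g := fun v => v) (fun v hv => by
      rw [uIcc_of_le (by norm_num)] at hv
      exact ten_left (by linarith [hv.1]) (by linarith [hv.2])), integral_id]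
    norm_num
  have i3 : ∫ v in (1/2:ℝ)..(3/4), ten v = 3 / 32 := by
    rw [intervalIntegral.integral_congr (g := fun v => 1 - v) (fun v hv => by
      rw [uIcc_of_le (by norm_num)] at hv
      exact ten_right hv.1 (by linarith [hv.2])),
      intervalIntegral.integral_sub (g := fun v : ℝ => v) intervalIntegrable_const
        (continuous_id'.intervalIntegrable _ _), integral_id,
      intervalIntegral.integral_const]
    norm_num
  have i4 : ∫ v in (3/4:ℝ)..1, ten v = 1 / 32 := by
    rw [intervalIntegral.integral_congr (g := fun v => 1 - v) (fun v hv => by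
      rw [uIcc_of_le (by norm_num)] at hv
      exact ten_right (by linarith [hv.1]) (by linarith [hv.2])),
      intervalIntegral.integral_sub (g := fun v : ℝ => v) intervalIntegrable_const
        (continuous_id'.intervalIntegrable _ _), integral_id,
      intervalIntegral.integral_const]
    norm_num
  unfold cc
  simp_rw [e]
  have s1 : ∀ a b c d : ℝ, Integrable (fun v => indicator (Ioc a b) (fun _ => (1:ℝ)) v * ten v
      - indicator (Ioc c d) (fun _ => (1:ℝ)) v * ten v) := fun a b c d =>
    (piece_int a b).sub (piece_int c d)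
  have s2 : ∀ a b c d : ℝ, a ≤ b → c ≤ d →
      ∫ v, (indicator (Ioc a b) (fun _ => (1:ℝ)) v * ten v
      - indicator (Ioc c d) (fun _ => (1:ℝ)) v * ten v)
      = (∫ v in a..b, ten v) - ∫ v in c..d, ten v := fun a b c d hab hcd => by
    rw [integral_sub (piece_int a b) (piece_int c d), int_piece hab, int_piece hcd]
  rw [integral_sub (s1 _ _ _ _) (s1 _ _ _ _), s2 _ _ _ _ (by norm_num) (by norm_num),
    s2 _ _ _ _ (by norm_num) (by norm_num), i1, i2, i3, i4]
  norm_num

theorem Psi_meas : Measurable Psi := by
  have : Psi = deriv J := by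
    ext z; exact (J_deriv z).deriv.symm
  rw [this]
  exact measurable_deriv J

theorem Psi_le (z : ℝ) : |Psi z| ≤ 1 := by
  have h1 : ‖Psi z‖ ≤ ∫ v, |kk v| := by
    refine norm_integral_le_of_norm_le kk_int.abs (Eventually.of_forall fun v => ?_)
    rw [norm_mul]
    refine mul_le_of_le_one_right (norm_nonneg _) ?_
    refine (hh_abs _).trans (indicator_le_self' (fun _ _ => zero_le_one) _)
  exact h1.trans int_kk_abs

/-- the kernel -/
noncomputable def Kr (a b z : ℝ) : ℝ := z⁻¹ * (J (z / a) - J (z / b))

theorem Psi_integral {a b z : ℝ} (ha : 0 < a) (hab : a ≤ b) (hz : z ≠ 0) :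
    ∫ t in Ioc a b, (t ^ 2)⁻¹ * Psi (z / t) = Kr a b z := by
  rw [← intervalIntegral.integral_of_le hab]
  have hd : ∀ t ∈ uIcc a b, HasDerivAt (fun t => -z⁻¹ * J (z / t)) ((t ^ 2)⁻¹ * Psi (z / t)) t := by
    intro t ht
    rw [uIcc_of_le hab] at ht
    have ht0 : 0 < t := ha.trans_le ht.1
    have h1 : HasDerivAt (fun t => z / t) (-(z / t ^ 2)) t := by
      have := (hasDerivAt_inv ht0.ne').const_mul z
      simp only [div_eq_mul_inv]
      convert! this using 1
      ring
    have h2 := ((J_deriv (z / t)).comp t h1).const_mul (-z⁻¹)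
    convert! h2 using 1
    field_simp
  have hi : IntervalIntegrable (fun t => (t ^ 2)⁻¹ * Psi (z / t)) volume a b := by
    rw [intervalIntegrable_iff_integrableOn_Ioc_of_le hab]
    refine Measure.integrableOn_of_bounded (M := (a ^ 2)⁻¹) ?_ ?_ ?_
    · rw [Real.volume_Ioc]; exact ENNReal.ofReal_ne_top
    · exact ((by fun_prop : Measurable fun t : ℝ => (t ^ 2)⁻¹).mul
        (Psi_meas.comp (measurable_const.div measurable_id))).aestronglyMeasurable
    · refine (ae_restrict_iff' measurableSet_Ioc).2 (Eventually.of_forall fun t ht => ?_)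
      have ht0 : 0 < t := ha.trans ht.1
      rw [norm_mul, norm_inv, Real.norm_eq_abs, Real.norm_eq_abs, abs_of_pos (by positivity)]
      calc (t ^ 2)⁻¹ * |Psi (z / t)| ≤ (a ^ 2)⁻¹ * 1 := by
            refine mul_le_mul ?_ (Psi_le _) (abs_nonneg _) (by positivity)
            exact inv_anti₀ (by positivity) (pow_le_pow_left₀ ha.le ht.1.le 2)
        _ = _ := mul_one _
  rw [intervalIntegral.integral_eq_sub_of_hasDerivAt hd hi]
  unfold Kr
  ring

/-- the inner integral -/
theorem inner_int {t : ℝ} (ht : 0 < t) (x y : ℝ) :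
    ∫ u, hh ((y - u) / t) * kk ((x - u) / t) = t * Psi ((y - x) / t) := by
  have h1 : ∫ u, hh ((y - u) / t) * kk ((x - u) / t)
      = ∫ u, (fun w => hh (w / t + (y - x) / t) * kk (w / t)) (x - u) := by
    refine integral_congr_ae (Eventually.of_forall fun u => ?_)
    simp only
    congr 2
    field_simp
    ring
  rw [h1, integral_sub_left_eq_self (fun w => hh (w / t + (y - x) / t) * kk (w / t)) volume x]
  have h2 := Measure.integral_comp_div (fun v => hh (v + (y - x) / t) * kk v) t
  rw [h2, abs_of_pos ht, smul_eq_mul]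
  unfold Psi
  congr 1
  refine integral_congr_ae (Eventually.of_forall fun v => ?_)
  simp only
  ring

end Pool.Agent.N246.HMW
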