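import Mathlib

/-! A weighted inequality on finite dyadic trees. -/

set_option autoImplicit false
open Set

namespace Pool.Agent.N246.HMW

/-- geometric mean with weights `θ`, `1 - θ` -/
noncomputable def H (θ x y : ℝ) : ℝ := x ^ θ * y ^ (1 - θ)

theorem H_nonneg {θ x y : ℝ} (hx : 0 ≤ x) (hy : 0 ≤ y) : 0 ≤ H θ x y :=
  mul_nonneg (Real.rpow_nonneg hx _) (Real.rpow_nonneg hy _)

theorem H_mono {θ : ℝ} (h0 : 0 < θ) (h1 : θ < 1) {x y x' y' : ℝ} (hx : 0 ≤ x) (hy : 0 ≤ y)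
    (hxx : x ≤ x') (hyy : y ≤ y') : H θ x y ≤ H θ x' y' := by
  unfold H
  exact mul_le_mul (Real.rpow_le_rpow hx hxx h0.le) (Real.rpow_le_rpow hy hyy (by linarith))
    (Real.rpow_nonneg hy _) (Real.rpow_nonneg (hx.trans hxx) _)

/-- superadditivity -/
theorem H_super {θ : ℝ} (h0 : 0 < θ) (h1 : θ < 1) {x1 y1 x2 y2 : ℝ} (hx1 : 0 ≤ x1) (hy1 : 0 ≤ y1)
    (hx2 : 0 ≤ x2) (hy2 : 0 ≤ y2) : H θ x1 y1 + H θ x2 y2 ≤ H θ (x1 + x2) (y1 + y2) := by
  have h1' : 0 < 1 - θ := by linarith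
  rcases (add_nonneg hx1 hx2).eq_or_lt with hX | hX
  · have e1 : x1 = 0 := by linarith
    have e2 : x2 = 0 := by linarith
    rw [e1, e2]
    simp [H, Real.zero_rpow h0.ne']
  rcases (add_nonneg hy1 hy2).eq_or_lt with hY | hY
  · have e1 : y1 = 0 := by linarith
    have e2 : y2 = 0 := by linarith
    rw [e1, e2]
    simp [H, Real.zero_rpow h1'.ne']
  set X := x1 + x2
  set Y := y1 + y2
  have key : ∀ x y : ℝ, 0 ≤ x → 0 ≤ y → H θ x y ≤ H θ X Y * (θ * (x / X) + (1 - θ) * (y / Y)) := by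
    intro x y hx hy
    have h2 := Real.geom_mean_le_arith_mean2_weighted (w₁ := θ) (w₂ := 1 - θ) (p₁ := x / X)
      (p₂ := y / Y) h0.le h1'.le (by positivity) (by positivity) (by ring)
    have h3 : H θ x y = H θ X Y * ((x / X) ^ θ * (y / Y) ^ (1 - θ)) := by
      unfold H
      rw [Real.div_rpow hx hX.le, Real.div_rpow hy hY.le]
      have hXp : 0 < X ^ θ := Real.rpow_pos_of_pos hX _
      have hYp : 0 < Y ^ (1 - θ) := Real.rpow_pos_of_pos hY _
      field_simp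
    rw [h3]
    exact mul_le_mul_of_nonneg_left h2 (H_nonneg hX.le hY.le)
  calc H θ x1 y1 + H θ x2 y2
      ≤ H θ X Y * (θ * (x1 / X) + (1 - θ) * (y1 / Y)) +
        H θ X Y * (θ * (x2 / X) + (1 - θ) * (y2 / Y)) :=
        add_le_add (key _ _ hx1 hy1) (key _ _ hx2 hy2)
    _ = H θ X Y * (θ * ((x1 + x2) / X) + (1 - θ) * ((y1 + y2) / Y)) := by ring
    _ = H θ X Y := by
        rw [div_self hX.ne', div_self hY.ne']; ring

/-! ### The maximal function -/

/-- the sum over the leaves of the `e`-th powers of the maximal function -/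
noncomputable def Tot (r s : ℝ → ℝ → ℝ) (e : ℝ) : ℕ → ℝ → ℝ → ℝ → ℝ
  | 0, m, u, t => (max m (r u t)) ^ e * s u t
  | n + 1, m, u, t => Tot r s e n (max m (r u t)) u (t / 2) +
      Tot r s e n (max m (r u t)) (u + t / 2) (t / 2)

/-- sum over the leaves -/
noncomputable def Lf (v : ℝ → ℝ → ℝ) : ℕ → ℝ → ℝ → ℝ
  | 0, u, t => v u t
  | n + 1, u, t => Lf v n u (t / 2) + Lf v n (u + t / 2) (t / 2)

theorem Tot_nonneg {r s : ℝ → ℝ → ℝ} {e : ℝ} (hs : ∀ u t, 0 < t → 0 ≤ s u t) (n : ℕ) :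
    ∀ m u t : ℝ, 0 ≤ m → 0 < t → 0 ≤ Tot r s e n m u t := by
  induction n with
  | zero =>
    intro m u t hm ht
    exact mul_nonneg (Real.rpow_nonneg (hm.trans (le_max_left _ _)) _) (hs u t ht)
  | succ n ih =>
    intro m u t hm ht
    have ht2 : 0 < t / 2 := by linarith
    exact add_nonneg (ih _ _ _ (hm.trans (le_max_left _ _)) ht2)
      (ih _ _ _ (hm.trans (le_max_left _ _)) ht2)

theorem Lf_nonneg {v : ℝ → ℝ → ℝ} (hv : ∀ u t, 0 < t → 0 ≤ v u t) (n : ℕ) :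
    ∀ u t : ℝ, 0 < t → 0 ≤ Lf v n u t := by
  induction n with
  | zero => exact fun u t ht => hv u t ht
  | succ n ih =>
    intro u t ht
    have ht2 : 0 < t / 2 := by linarith
    exact add_nonneg (ih _ _ ht2) (ih _ _ ht2)

theorem Lf_le {v Z : ℝ → ℝ → ℝ} (hZ : ∀ u t, 0 < t → Z u t = Z u (t / 2) + Z (u + t / 2) (t / 2))
    (h : ∀ u t, 0 < t → v u t ≤ Z u t) (n : ℕ) : ∀ u t : ℝ, 0 < t → Lf v n u t ≤ Z u t := by
  induction n with
  | zero => exact h
  | succ n ih =>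
    intro u t ht
    have ht2 : 0 < t / 2 := by linarith
    rw [hZ u t ht]
    exact add_le_add (ih _ _ ht2) (ih _ _ ht2)

/-- Burkholder's inequality at one point -/
theorem burk {e : ℝ} (he : 1 < e) {m ρ : ℝ} (hm : 0 ≤ m) (hρ : 0 ≤ ρ) :
    (max m ρ) ^ e - e / (e - 1) * (max m ρ) ^ (e - 1) * ρ
      ≤ m ^ e - e / (e - 1) * m ^ (e - 1) * ρ := by
  have he0 : 0 < e := by linarith
  have he1 : 0 < e - 1 := by linarith
  rcases le_total ρ m with h | h
  · rw [max_eq_left h]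
  rw [max_eq_right h]
  have h1 : ρ ^ (e - 1) * ρ = ρ ^ e := by
    rcases hρ.eq_or_lt with h0 | h0
    · rw [← h0, Real.zero_rpow he0.ne', mul_zero]
    · rw [← Real.rpow_add_one h0.ne']; congr 1; ring
  have h2 := Real.geom_mean_le_arith_mean2_weighted (w₁ := (e - 1) / e) (w₂ := 1 / e)
    (p₁ := m ^ e) (p₂ := ρ ^ e) (by positivity) (by positivity) (Real.rpow_nonneg hm _)
    (Real.rpow_nonneg hρ _) (by field_simp; ring)
  rw [← Real.rpow_mul hm, ← Real.rpow_mul hρ, mul_div_cancel₀ _ he0.ne',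
    mul_one_div_cancel he0.ne', Real.rpow_one] at h2
  have h3 : e * (m ^ (e - 1) * ρ) ≤ (e - 1) * m ^ e + ρ ^ e := by
    calc e * (m ^ (e - 1) * ρ) ≤ e * ((e - 1) / e * m ^ e + 1 / e * ρ ^ e) :=
          mul_le_mul_of_nonneg_left h2 he0.le
      _ = _ := by field_simp
  have h4 : e / (e - 1) * ρ ^ (e - 1) * ρ = e / (e - 1) * ρ ^ e := by rw [mul_assoc, h1]
  rw [h4]
  have h5 : ρ ^ e - e / (e - 1) * ρ ^ e = -(ρ ^ e / (e - 1)) := by field_simp; ring
  have h6 : m ^ e - e / (e - 1) * m ^ (e - 1) * ρ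
      = ((e - 1) * m ^ e - e * (m ^ (e - 1) * ρ)) / (e - 1) := by field_simp
  rw [h5, h6, ← neg_div]
  exact div_le_div_of_nonneg_right (by linarith) he1.le

theorem doob1 {e : ℝ} (he : 1 < e) {φ s : ℝ → ℝ → ℝ}
    (hφ : ∀ u t, 0 < t → φ u t = φ u (t / 2) + φ (u + t / 2) (t / 2))
    (hs : ∀ u t, 0 < t → s u t = s u (t / 2) + s (u + t / 2) (t / 2))
    (hφ0 : ∀ u t, 0 < t → 0 ≤ φ u t) (hs0 : ∀ u t, 0 < t → 0 < s u t) (n : ℕ) :
    ∀ m u t : ℝ, 0 ≤ m → 0 < t →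
      Tot (fun u t => φ u t / s u t) s e n m u t -
        e / (e - 1) * Tot (fun u t => φ u t / s u t) φ (e - 1) n m u t
      ≤ m ^ e * s u t - e / (e - 1) * m ^ (e - 1) * φ u t := by
  have step : ∀ m u t : ℝ, 0 ≤ m → 0 < t →
      (max m (φ u t / s u t)) ^ e * s u t - e / (e - 1) * (max m (φ u t / s u t)) ^ (e - 1) * φ u t
      ≤ m ^ e * s u t - e / (e - 1) * m ^ (e - 1) * φ u t := by
    intro m u t hm ht
    have h1 := burk he hm (div_nonneg (hφ0 u t ht) (hs0 u t ht).le)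
    have h2 := mul_le_mul_of_nonneg_right h1 (hs0 u t ht).le
    have e1 : φ u t / s u t * s u t = φ u t := div_mul_cancel₀ _ (hs0 u t ht).ne'
    rw [sub_mul, sub_mul, mul_assoc _ (φ u t / s u t), mul_assoc _ (φ u t / s u t), e1] at h2
    exact h2
  induction n with
  | zero =>
    intro m u t hm ht
    simp only [Tot]
    rw [← mul_assoc]
    exact step m u t hm ht
  | succ n ih =>
    intro m u t hm ht
    have ht2 : 0 < t / 2 := by linarith
    simp only [Tot]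
    set m1 := max m (φ u t / s u t) with hm1
    have hm10 : 0 ≤ m1 := hm.trans (le_max_left _ _)
    have h1 := ih m1 u (t / 2) hm10 ht2
    have h2 := ih m1 (u + t / 2) (t / 2) hm10 ht2
    have h3 := step m u t hm ht
    rw [hφ u t ht, hs u t ht] at h3 ⊢
    rw [← hφ u t ht, ← hs u t ht] at h3
    rw [← hm1] at h3
    rw [← hφ u t ht, ← hs u t ht]
    have e1 : s u (t / 2) = s u t - s (u + t / 2) (t / 2) := by rw [hs u t ht]; ring
    have e2 : φ u (t / 2) = φ u t - φ (u + t / 2) (t / 2) := by rw [hφ u t ht]; ring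
    rw [e1, e2] at h1
    linarith

theorem doob2 {e : ℝ} (he : 1 < e) {φ s : ℝ → ℝ → ℝ}
    (hφ0 : ∀ u t, 0 < t → 0 ≤ φ u t) (hs0 : ∀ u t, 0 < t → 0 < s u t) (n : ℕ) :
    ∀ m u t : ℝ, 0 ≤ m → 0 < t →
      Tot (fun u t => φ u t / s u t) φ (e - 1) n m u t ≤
        H (1 / e) (Lf (fun u t => φ u t ^ e * s u t ^ (1 - e)) n u t)
          (Tot (fun u t => φ u t / s u t) s e n m u t) := by
  have he0 : 0 < e := by linarith
  have h10 : 0 < 1 / e := by positivity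
  have h11 : 1 / e < 1 := by rw [div_lt_one he0]; exact he
  have hv0 : ∀ u t, 0 < t → 0 ≤ φ u t ^ e * s u t ^ (1 - e) := fun u t ht =>
    mul_nonneg (Real.rpow_nonneg (hφ0 u t ht) _) (Real.rpow_nonneg (hs0 u t ht).le _)
  induction n with
  | zero =>
    intro m u t hm ht
    simp only [Tot, Lf, H]
    set M := max m (φ u t / s u t)
    have hM : 0 ≤ M := hm.trans (le_max_left _ _)
    have hφ := hφ0 u t ht
    have hs := hs0 u t ht
    rw [Real.mul_rpow (Real.rpow_nonneg hφ _) (Real.rpow_nonneg hs.le _),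
      Real.mul_rpow (Real.rpow_nonneg hM _) hs.le, ← Real.rpow_mul hφ, ← Real.rpow_mul hs.le,
      ← Real.rpow_mul hM, mul_one_div_cancel he0.ne', Real.rpow_one]
    have e1 : e * (1 - 1 / e) = e - 1 := by field_simp
    have e2 : (s u t) ^ ((1 - e) * (1 / e)) * (s u t) ^ (1 - 1 / e) = 1 := by
      rw [← Real.rpow_add hs]
      have : (1 - e) * (1 / e) + (1 - 1 / e) = 0 := by field_simp; ring
      rw [this, Real.rpow_zero]
    rw [e1]
    refine le_of_eq ?_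
    calc M ^ (e - 1) * φ u t = M ^ (e - 1) * φ u t * 1 := (mul_one _).symm
      _ = M ^ (e - 1) * φ u t * ((s u t) ^ ((1 - e) * (1 / e)) * (s u t) ^ (1 - 1 / e)) := by rw [e2]
      _ = _ := by ring
  | succ n ih =>
    intro m u t hm ht
    have ht2 : 0 < t / 2 := by linarith
    simp only [Tot, Lf]
    set m1 := max m (φ u t / s u t)
    have hm10 : 0 ≤ m1 := hm.trans (le_max_left _ _)
    refine (add_le_add (ih m1 u (t / 2) hm10 ht2) (ih m1 (u + t / 2) (t / 2) hm10 ht2)).trans ?_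
    exact H_super h10 h11 (Lf_nonneg hv0 n _ _ ht2)
      (Tot_nonneg (fun u t ht => (hs0 u t ht).le) n _ _ _ hm10 ht2)
      (Lf_nonneg hv0 n _ _ ht2) (Tot_nonneg (fun u t ht => (hs0 u t ht).le) n _ _ _ hm10 ht2)

/-- the dyadic maximal theorem -/
theorem doob {e : ℝ} (he : 1 < e) {φ s Z : ℝ → ℝ → ℝ}
    (hφ : ∀ u t, 0 < t → φ u t = φ u (t / 2) + φ (u + t / 2) (t / 2))
    (hs : ∀ u t, 0 < t → s u t = s u (t / 2) + s (u + t / 2) (t / 2))
    (hZ : ∀ u t, 0 < t → Z u t = Z u (t / 2) + Z (u + t / 2) (t / 2))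
    (hφ0 : ∀ u t, 0 < t → 0 ≤ φ u t) (hs0 : ∀ u t, 0 < t → 0 < s u t)
    (hZ0 : ∀ u t, 0 < t → 0 ≤ Z u t)
    (hφZ : ∀ u t, 0 < t → φ u t ≤ H (1 / e) (Z u t) (s u t)) (n : ℕ) {u t : ℝ} (ht : 0 < t) :
    Tot (fun u t => φ u t / s u t) s e n 0 u t ≤ (e / (e - 1)) ^ e * Z u t := by
  have he0 : 0 < e := by linarith
  have he1 : 0 < e - 1 := by linarith
  set T := Tot (fun u t => φ u t / s u t) s e n 0 u t with hT
  have hT0 : 0 ≤ T := Tot_nonneg (fun u t ht => (hs0 u t ht).le) n _ _ _ le_rfl ht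
  have h1 := doob1 he hφ hs hφ0 hs0 n 0 u t le_rfl ht
  rw [Real.zero_rpow he0.ne', Real.zero_rpow he1.ne', zero_mul, mul_zero, zero_mul, sub_zero,
    ← hT] at h1
  have h2 := doob2 he hφ0 hs0 n 0 u t le_rfl ht
  rw [← hT] at h2
  have hLZ : Lf (fun u t => φ u t ^ e * s u t ^ (1 - e)) n u t ≤ Z u t := by
    refine Lf_le hZ (fun u t ht => ?_) n u t ht
    have h3 := Real.rpow_le_rpow (hφ0 u t ht) (hφZ u t ht) he0.le
    unfold H at h3
    rw [Real.mul_rpow (Real.rpow_nonneg (hZ0 u t ht) _) (Real.rpow_nonneg (hs0 u t ht).le _),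
      ← Real.rpow_mul (hZ0 u t ht), ← Real.rpow_mul (hs0 u t ht).le, one_div_mul_cancel he0.ne',
      Real.rpow_one] at h3
    have e1 : (1 - 1 / e) * e = e - 1 := by field_simp
    rw [e1] at h3
    calc φ u t ^ e * s u t ^ (1 - e) ≤ Z u t * s u t ^ (e - 1) * s u t ^ (1 - e) :=
          mul_le_mul_of_nonneg_right h3 (Real.rpow_nonneg (hs0 u t ht).le _)
      _ = Z u t := by
          rw [mul_assoc, ← Real.rpow_add (hs0 u t ht)]
          simp
  have hL0 : 0 ≤ Lf (fun u t => φ u t ^ e * s u t ^ (1 - e)) n u t :=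
    Lf_nonneg (fun u t ht => mul_nonneg (Real.rpow_nonneg (hφ0 u t ht) _)
      (Real.rpow_nonneg (hs0 u t ht).le _)) n u t ht
  have h11 : 1 / e < 1 := by rw [div_lt_one he0]; exact he
  have h3 : T ≤ e / (e - 1) * H (1 / e) (Z u t) T := by
    have h4 := H_mono (θ := 1 / e) (by positivity) h11 hL0 hT0 hLZ (le_refl T)
    have h5 : 0 ≤ e / (e - 1) := by positivity
    have h6 := mul_le_mul_of_nonneg_left (h2.trans h4) h5
    linarith
  rcases hT0.eq_or_lt with h0 | h0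
  · rw [← h0]
    have := hZ0 u t ht
    positivity
  have h7 : T ^ (1 / e) ≤ e / (e - 1) * Z u t ^ (1 / e) := by
    unfold H at h3
    have hTp : 0 < T ^ (1 - 1 / e) := Real.rpow_pos_of_pos h0 _
    have h8 : T ^ (1 / e) * T ^ (1 - 1 / e) = T := by
      rw [← Real.rpow_add h0]
      simp
    have h9 : T ^ (1 / e) * T ^ (1 - 1 / e) ≤ e / (e - 1) * Z u t ^ (1 / e) * T ^ (1 - 1 / e) := by
      rw [h8]; linarith
    exact le_of_mul_le_mul_right h9 hTp
  have h10 := Real.rpow_le_rpow (Real.rpow_nonneg hT0 _) h7 he0.le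
  rw [← Real.rpow_mul hT0, one_div_mul_cancel he0.ne', Real.rpow_one,
    Real.mul_rpow (by positivity) (Real.rpow_nonneg (hZ0 u t ht) _), ← Real.rpow_mul (hZ0 u t ht),
    one_div_mul_cancel he0.ne', Real.rpow_one] at h10
  exact h10

end Pool.Agent.N246.HMW
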